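import Pool.Agent.Lib_helper41.PM.Integ

/-!
# The inequality of Birman, Koplienko and Solomyak in the form we need
-/

open Matrix MeasureTheory
open scoped ENNReal BigOperators ComplexOrder

namespace Pool.Agent.Lib_helper41.PM
variable {n : ℕ} {q : ℝ≥0∞}

/-- the function `F_t(A)` in terms of the resolvent -/
lemma eff_cj {s t : ℝ} (ht : 0 < t) (U : unitaryGroup (Fin n) ℂ) {a : Fin n → ℝ}
    (ha : ∀ i, 0 ≤ a i) :
    cj U (fun k => (Real.rpowIntegrand₀₁ s t (a k) : ℂ)) =
      t ^ (s - 1) • (1 - cj U (fun i => (((1 + t⁻¹ * a i)⁻¹ : ℝ) : ℂ))) := by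
  have h1 : ((1 : Mat n) - cj U (fun i => (((1 + t⁻¹ * a i)⁻¹ : ℝ) : ℂ)) :
      Mat n) = cj U (fun i => ((hh (a i / t) : ℝ) : ℂ)) := by
    rw [sub_eq_iff_eq_add, add_cj_real, one_cj_real U]
    congr 1
    ext i
    congr 1
    unfold hh
    have h3 := ha i
    have : 1 + a i / t ≠ 0 := by positivity
    have : 1 + t⁻¹ * a i ≠ 0 := by positivity
    have : t + a i ≠ 0 := by positivity
    field_simp
    ring
  rw [h1, smul_cj_real]
  congr 1
  ext i
  rw [int01 ht (ha i)]

lemma hh_mono {a b : ℝ} (ha : 0 ≤ a) (hab : a ≤ b) : hh a ≤ hh b := by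
  unfold hh
  rw [div_le_div_iff₀ (by linarith) (by linarith)]
  nlinarith

/-- existence of the inverse of `1 + t⁻¹ N` -/
lemma exists_res {N : Mat n} (hN : N.PosSemidef) {t : ℝ} (ht : 0 < t) :
    ∃ Ni : Mat n, (1 + t⁻¹ • N) * Ni = 1 := by
  obtain ⟨U, v, hU⟩ := exists_cj hN.1
  have hv : ∀ i, 0 ≤ v i := by
    intro i
    have h1 := dg_nonneg U hN i
    rw [hU, dg_cj] at h1
    exact h1
  refine ⟨cj U (fun i => (((1 + t⁻¹ * v i)⁻¹ : ℝ) : ℂ)), ?_⟩
  rw [hU, smul_cj_real]
  exact cj_inv fun i => mul_nonneg (inv_pos.mpr ht).le (hv i)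

theorem ando_claim {s : ℝ} (hs : s ∈ Set.Ioo (0 : ℝ) 1) {A B : Mat n} (hA : A.PosDef)
    (hB : B.PosDef) {V : unitaryGroup (Fin n) ℂ} {e : Fin n → ℝ}
    (hV : mpow A s - mpow B s = cj V (fun i => (e i : ℂ)))
    {Q : unitaryGroup (Fin n) ℂ} {z : Fin n → ℝ} (hQ : A - B = cj Q (fun i => (z i : ℂ)))
    {w : Fin n → ℝ} (hw0 : ∀ i, 0 ≤ w i) {π : Equiv.Perm (Fin n)}
    (hπ : Monovary (w ∘ π) (fun i => |z i|)) :
    ∑ i, w i * |e i| ≤ ∑ i, w (π i) * |z i| ^ s := by
  obtain ⟨μ, hμ⟩ := Real.exists_measure_rpow_eq_integral_rpowIntegrand₀₁ hs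
  obtain ⟨UA, a, hUA⟩ := exists_cj hA.1
  obtain ⟨UB, b, hUB⟩ := exists_cj hB.1
  have ha : ∀ i, 0 ≤ a i := fun i => (posDef_cj_pos UA a (hUA ▸ hA) i).le
  have hb : ∀ i, 0 ≤ b i := fun i => (posDef_cj_pos UB b (hUB ▸ hB) i).le
  set F : ℝ → ℝ → ℝ := fun t x => Real.rpowIntegrand₀₁ s t x with hF
  set sg : Fin n → ℝ := fun i => if 0 ≤ e i then 1 else -1 with hsg
  have hsge : ∀ i, |e i| = sg i * e i := by
    intro i
    simp only [hsg]
    split_ifs with h
    · rw [abs_of_nonneg h, one_mul]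
    · rw [abs_of_neg (not_le.mp h)]; ring
  set G : ℝ → Fin n → ℝ := fun t i => sg i * (dg V (cj UA (fun k => (F t (a k) : ℂ))) i -
    dg V (cj UB (fun k => (F t (b k) : ℂ))) i) with hG
  have IA := fun i => dg_integral hμ V UA ha i
  have IB := fun i => dg_integral hμ V UB hb i
  have hint : ∀ i, IntegrableOn (fun t => G t i) (Set.Ioi 0) μ := by
    intro i
    exact ((IA i).1.sub (IB i).1).const_mul _
  have heint : ∀ i, |e i| = ∫ t in Set.Ioi 0, G t i ∂μ := by
    intro i
    have h1 : e i = dg V (mpow A s) i - dg V (mpow B s) i := by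
      have h2 := congrFun (dg_sub V (mpow A s) (mpow B s)) i
      rw [hV, dg_cj] at h2
      exact h2
    have s1 : ∫ t in Set.Ioi 0, G t i ∂μ = sg i *
        ∫ t in Set.Ioi 0, (dg V (cj UA (fun k => (F t (a k) : ℂ))) i -
          dg V (cj UB (fun k => (F t (b k) : ℂ))) i) ∂μ := by
      rw [← integral_const_mul]
    have s2 : ∫ t in Set.Ioi 0, (dg V (cj UA (fun k => (F t (a k) : ℂ))) i -
          dg V (cj UB (fun k => (F t (b k) : ℂ))) i) ∂μ =
        ∫ t in Set.Ioi 0, dg V (cj UA (fun k => (F t (a k) : ℂ))) i ∂μ -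
        ∫ t in Set.Ioi 0, dg V (cj UB (fun k => (F t (b k) : ℂ))) i ∂μ :=
      integral_sub (IA i).1 (IB i).1
    rw [s1, s2, ← (IA i).2, ← (IB i).2, hsge, h1]
    congr 2
    · rw [hUA, mpow_cj]
    · rw [hUB, mpow_cj]
  -- positive and negative part
  set zp : Fin n → ℝ := fun j => max (z j) 0 with hzp
  set zm : Fin n → ℝ := fun j => max (-z j) 0 with hzm
  have hzp0 : ∀ j, 0 ≤ zp j := fun j => le_max_right _ _
  have hzm0 : ∀ j, 0 ≤ zm j := fun j => le_max_right _ _
  set Zp : Mat n := cj Q (fun i => (zp i : ℂ)) with hZp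
  set Zm : Mat n := cj Q (fun i => (zm i : ℂ)) with hZm
  have hZpp : Zp.PosSemidef := posSemidef_cj Q zp hzp0
  have hZmp : Zm.PosSemidef := posSemidef_cj Q zm hzm0
  have hZ : A - B + Zm = Zp := by
    rw [hQ, hZm, hZp, add_cj_real]
    congr 1
    ext i
    congr 1
    simp only [hzp, hzm]
    rcases le_total 0 (z i) with h | h
    · rw [max_eq_right (by linarith), max_eq_left h, add_zero]
    · rw [max_eq_left (by linarith), max_eq_right h]; ring
  -- pointwise estimate
  have hpt : ∀ t ∈ Set.Ioi (0 : ℝ), ∑ i, w i * G t i ≤ ∑ i, w (π i) * F t |z i| := by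
    intro t ht
    have ht0 : (0 : ℝ) < t := ht
    have hti : (0 : ℝ) < t⁻¹ := inv_pos.mpr ht0
    have ha' : ∀ i, 0 ≤ t⁻¹ * a i := fun i => mul_nonneg hti.le (ha i)
    have hb' : ∀ i, 0 ≤ t⁻¹ * b i := fun i => mul_nonneg hti.le (hb i)
    set YA : Mat n := 1 + t⁻¹ • A with hYA
    set YB : Mat n := 1 + t⁻¹ • B with hYB
    set YAi : Mat n := cj UA (fun i => (((1 + t⁻¹ * a i)⁻¹ : ℝ) : ℂ)) with hYAi
    set YBi : Mat n := cj UB (fun i => (((1 + t⁻¹ * b i)⁻¹ : ℝ) : ℂ)) with hYBi
    have hYA1 : (YA - 1).PosSemidef := by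
      rw [hYA, add_sub_cancel_left]; exact hA.posSemidef.smul hti.le
    have hYB1 : (YB - 1).PosSemidef := by
      rw [hYB, add_sub_cancel_left]; exact hB.posSemidef.smul hti.le
    have iYA : YA * YAi = 1 := by
      rw [hYA, hUA, smul_cj_real]; exact cj_inv ha'
    have iYB : YB * YBi = 1 := by
      rw [hYB, hUB, smul_cj_real]; exact cj_inv hb'
    obtain ⟨Cp, hCp⟩ := exists_res (hB.posSemidef.add hZpp) ht0
    obtain ⟨Cm, hCm⟩ := exists_res (hA.posSemidef.add hZmp) ht0
    have hCp' : (YB + cj Q (fun i => ((t⁻¹ * zp i : ℝ) : ℂ))) * Cp = 1 := by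
      rw [← smul_cj_real, ← hCp, hYB, hZp, smul_add, add_assoc]
    have hCm' : (YA + cj Q (fun i => ((t⁻¹ * zm i : ℝ) : ℂ))) * Cm = 1 := by
      rw [← smul_cj_real, ← hCm, hYA, hZm, smul_add, add_assoc]
    obtain ⟨Dp, hDp, Lp⟩ := L2 hYB1 (fun j => mul_nonneg hti.le (hzp0 j)) iYB hCp' V
    obtain ⟨Dm, hDm, Lm⟩ := L2 hYA1 (fun j => mul_nonneg hti.le (hzm0 j)) iYA hCm' V
    have mp : (YAi - Cp).PosSemidef := by
      refine inv_anti hYA1 (Y := 1 + t⁻¹ • (B + Zp)) ?_ iYA hCp
      have : 1 + t⁻¹ • (B + Zp) - YA = t⁻¹ • Zm := by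
        rw [hYA, ← hZ]; module
      rw [this]; exact hZmp.smul hti.le
    have mm : (YBi - Cm).PosSemidef := by
      refine inv_anti hYB1 (Y := 1 + t⁻¹ • (A + Zm)) ?_ iYB hCm
      have : 1 + t⁻¹ • (A + Zm) - YB = t⁻¹ • Zp := by
        rw [hYB, ← hZ]; module
      rw [this]; exact hZpp.smul hti.le
    have htr : 0 < t ^ (s - 1) := Real.rpow_pos_of_pos ht0 _
    have hGt : ∀ i, G t i = t ^ (s - 1) * (sg i * (dg V YBi i - dg V YAi i)) := by
      intro i
      have e1 := eff_cj (s := s) ht0 UA ha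
      have e2 := eff_cj (s := s) ht0 UB hb
      simp only [hG, hF]
      rw [e1, e2, dg_smul, dg_smul, dg_sub, dg_sub]
      simp only [Pi.smul_apply, Pi.sub_apply, smul_eq_mul]
      ring
    have kp : ∀ j, t ^ (s - 1) * hh (t⁻¹ * zp j) = F t (zp j) := by
      intro j
      simp only [hF]
      rw [int01 ht0 (hzp0 j)]
      congr 2
      field_simp
    have km : ∀ j, t ^ (s - 1) * hh (t⁻¹ * zm j) = F t (zm j) := by
      intro j
      simp only [hF]
      rw [int01 ht0 (hzm0 j)]
      congr 2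
      field_simp
    have hFm : ∀ x y, 0 ≤ x → x ≤ y → F t x ≤ F t y := by
      intro x y hx hxy
      simp only [hF]
      rw [int01 ht0 hx, int01 ht0 (hx.trans hxy)]
      apply mul_le_mul_of_nonneg_left _ htr.le
      exact hh_mono (by positivity) (div_le_div_of_nonneg_right hxy ht0.le)
    have hF0 : ∀ x, 0 ≤ x → 0 ≤ F t x := by
      intro x hx
      simp only [hF]
      rw [int01 ht0 hx]
      exact mul_nonneg htr.le (hh_nonneg (by positivity))
    have hFz : F t 0 = 0 := by
      simp only [hF]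
      rw [int01 ht0 le_rfl, zero_div]
      simp [hh]
    set D : Fin n → Fin n → ℝ := fun i j =>
      if 0 ≤ e i then (if 0 < z j then Dp i j else 0) else (if 0 < z j then 0 else Dm i j) with hD
    have hD0 : ∀ i j, 0 ≤ D i j := by
      intro i j
      simp only [hD]
      have := hDp.nonneg i j
      have := hDm.nonneg i j
      split_ifs <;> first | exact le_rfl | assumption
    have hDD : DSS D := by
      refine ⟨hD0, fun i => ?_, fun j => ?_⟩
      · by_cases h : 0 ≤ e i
        · refine le_trans (Finset.sum_le_sum fun j _ => ?_) (hDp.row i)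
          simp only [hD, h, if_true]
          split_ifs
          · exact le_rfl
          · exact hDp.nonneg i j
        · refine le_trans (Finset.sum_le_sum fun j _ => ?_) (hDm.row i)
          simp only [hD, h, if_false]
          split_ifs
          · exact hDm.nonneg i j
          · exact le_rfl
      · by_cases h : 0 < z j
        · refine le_trans (Finset.sum_le_sum fun i _ => ?_) (hDp.col j)
          simp only [hD, h, if_true]
          split_ifs
          · exact le_rfl
          · exact hDp.nonneg i j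
        · refine le_trans (Finset.sum_le_sum fun i _ => ?_) (hDm.col j)
          simp only [hD, h, if_false]
          split_ifs
          · exact hDm.nonneg i j
          · exact le_rfl
    have b1 : ∀ i, G t i ≤ ∑ j, D i j * F t |z j| := by
      intro i
      rw [hGt]
      by_cases h : 0 ≤ e i
      · have h1 : sg i = 1 := by simp only [hsg, h, if_true]
        have h2 := dg_nonneg V mp i
        rw [dg_sub] at h2
        have h3 := Lp i
        rw [dg_sub] at h3
        simp only [Pi.sub_apply] at h2 h3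
        rw [h1, one_mul]
        have h4 : dg V YBi i - dg V YAi i ≤ ∑ j, Dp i j * hh (t⁻¹ * zp j) := by linarith
        refine (mul_le_mul_of_nonneg_left h4 htr.le).trans ?_
        rw [Finset.mul_sum]
        refine Finset.sum_le_sum fun j _ => ?_
        have h5 : t ^ (s - 1) * (Dp i j * hh (t⁻¹ * zp j)) = Dp i j * F t (zp j) := by
          rw [← kp]; ring
        rw [h5]
        simp only [hD, h, if_true]
        split_ifs with h6
        · have : zp j = |z j| := by
            simp only [hzp]; rw [max_eq_left h6.le, abs_of_pos h6]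
          rw [this]
        · have : zp j = 0 := by
            simp only [hzp]; exact max_eq_right (not_lt.mp h6)
          rw [this, hFz]; simp
      · have h1 : sg i = -1 := by simp only [hsg, h, if_false]
        have h2 := dg_nonneg V mm i
        rw [dg_sub] at h2
        have h3 := Lm i
        rw [dg_sub] at h3
        simp only [Pi.sub_apply] at h2 h3
        rw [h1]
        have h4 : -1 * (dg V YBi i - dg V YAi i) ≤ ∑ j, Dm i j * hh (t⁻¹ * zm j) := by linarith
        refine (mul_le_mul_of_nonneg_left h4 htr.le).trans ?_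
        rw [Finset.mul_sum]
        refine Finset.sum_le_sum fun j _ => ?_
        have h5 : t ^ (s - 1) * (Dm i j * hh (t⁻¹ * zm j)) = Dm i j * F t (zm j) := by
          rw [← km]; ring
        rw [h5]
        simp only [hD, h, if_false]
        split_ifs with h6
        · have : zm j = 0 := by
            simp only [hzm]; exact max_eq_right (by linarith)
          rw [this, hFz]; simp
        · have : zm j = |z j| := by
            simp only [hzm]; rw [max_eq_left (by linarith), abs_of_nonpos (not_lt.mp h6)]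
          rw [this]
    have mz : Monovary (w ∘ π) (fun i => F t |z i|) :=
      monovary_comp hπ (f := fun x => F t x) fun i j hij => hFm _ _ (abs_nonneg _) hij
    calc ∑ i, w i * G t i ≤ ∑ i, w i * ∑ j, D i j * F t |z j| :=
          Finset.sum_le_sum fun i _ => mul_le_mul_of_nonneg_left (b1 i) (hw0 i)
      _ ≤ _ := dss_le' hDD hw0 (fun i => hF0 _ (abs_nonneg _)) mz
  -- integrate
  have i1 : ∑ i, w i * |e i| = ∫ t in Set.Ioi 0, ∑ i, w i * G t i ∂μ := by
    rw [integral_finset_sum]
    · refine Finset.sum_congr rfl fun i _ => ?_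
      rw [integral_const_mul, ← heint]
    · intro i _
      exact (hint i).const_mul _
  have iA : ∀ i, IntegrableOn (fun t => w (π i) * F t |z i|) (Set.Ioi 0) μ := by
    intro i
    exact ((hμ _ (abs_nonneg (z i))).1).const_mul _
  have i2 : ∫ t in Set.Ioi 0, ∑ i, w (π i) * F t |z i| ∂μ = ∑ i, w (π i) * |z i| ^ s := by
    rw [integral_finset_sum _ fun i _ => iA i]
    refine Finset.sum_congr rfl fun i _ => ?_
    rw [integral_const_mul, ← (hμ _ (abs_nonneg (z i))).2]
  rw [i1, ← i2]
  apply setIntegral_mono_on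
  · exact integrable_finset_sum _ fun i _ => (hint i).const_mul _
  · exact integrable_finset_sum _ fun i _ => iA i
  · exact measurableSet_Ioi
  · exact hpt

theorem E_bound (hq : 1 ≤ q) {s : ℝ} (hs : s ∈ Set.Ioo (0 : ℝ) 1) {A B : Mat n} (hA : A.PosDef)
    (hB : B.PosDef) {V : unitaryGroup (Fin n) ℂ} {e : Fin n → ℝ}
    (hV : mpow A s - mpow B s = cj V (fun i => (e i : ℂ))) :
    nq q (fun i => |e i| ^ (1 / s)) ≤ schatten q (A - B) := by
  obtain ⟨Q, z, hQ⟩ := exists_cj (hA.1.sub hB.1)
  rw [hQ, schatten_cj hq]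
  have hs0 := hs.1
  have hs1 := hs.2
  set r : ℝ := 1 / s with hr
  have hr1 : 1 < r := by rw [hr, lt_div_iff₀ hs0]; linarith
  obtain ⟨w', hw0, hw1, hw2⟩ := exists_dual hq (fun i => |e i| ^ r)
  set w : Fin n → ℝ := fun i => w' i * |e i| ^ (r - 1) with hw
  have hw0' : ∀ i, 0 ≤ w i := fun i => mul_nonneg (hw0 i) (Real.rpow_nonneg (abs_nonneg _) _)
  obtain ⟨π, hπ⟩ := exists_monovary w (fun i => |z i|)
  have hcl := ando_claim hs hA hB hV hQ hw0' hπ
  set N : ℝ := ∑ i, w' i * |e i| ^ r with hN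
  have hNn : nq q (fun i => |e i| ^ r) ≤ N := by
    refine hw2.trans (le_of_eq ?_)
    refine Finset.sum_congr rfl fun i _ => ?_
    rw [abs_of_nonneg (Real.rpow_nonneg (abs_nonneg _) _)]
  have h1 : ∑ i, w i * |e i| = N := by
    refine Finset.sum_congr rfl fun i _ => ?_
    simp only [hw]
    rw [mul_assoc]
    congr 1
    rcases eq_or_ne (e i) 0 with h0 | h0
    · rw [h0, abs_zero, mul_zero, Real.zero_rpow (by linarith)]
    · rw [← Real.rpow_add_one (abs_ne_zero.mpr h0), sub_add_cancel]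
  -- Young's inequality
  have young : ∀ u v : ℝ, 0 ≤ u → 0 ≤ v →
      u ^ (r - 1) * v ^ s ≤ (1 - s) * u ^ r + s * v := by
    intro u v hu hv
    have h2 := Real.geom_mean_le_arith_mean2_weighted (w₁ := 1 - s) (w₂ := s)
      (p₁ := u ^ r) (p₂ := v) (by linarith) hs0.le (Real.rpow_nonneg hu _) hv (by ring)
    have h3 : (u ^ r) ^ (1 - s) = u ^ (r - 1) := by
      rw [← Real.rpow_mul hu]
      congr 1
      rw [hr]
      field_simp
    rwa [h3] at h2
  have h2 : ∑ i, w (π i) * |z i| ^ s ≤ (1 - s) * N + s * ∑ i, w' (π i) * |z i| := by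
    have h3 : (1 - s) * N + s * ∑ i, w' (π i) * |z i| =
        ∑ i, w' (π i) * ((1 - s) * |e (π i)| ^ r + s * |z i|) := by
      have h4 : N = ∑ i, w' (π i) * |e (π i)| ^ r := by
        rw [hN, ← Equiv.sum_comp π]
      rw [h4, Finset.mul_sum, Finset.mul_sum, ← Finset.sum_add_distrib]
      refine Finset.sum_congr rfl fun i _ => ?_
      ring
    rw [h3]
    refine Finset.sum_le_sum fun i _ => ?_
    simp only [hw]
    rw [mul_assoc]
    exact mul_le_mul_of_nonneg_left (young _ _ (abs_nonneg _) (abs_nonneg _)) (hw0 _)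
  have h3 : N ≤ ∑ i, w' (π i) * |z i| := by
    rw [h1] at hcl
    have : s * N ≤ s * ∑ i, w' (π i) * |z i| := by linarith
    exact le_of_mul_le_mul_left this hs0
  exact hNn.trans (h3.trans (dual_perm hq hw1 π z))

end Pool.Agent.Lib_helper41.PM
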