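import Pool.Agent.Lib_helper41.PM.Loewner

/-!
# Exponents above one are not monotonic for q ≠ 2
-/

open Matrix
open scoped ENNReal BigOperators ComplexOrder

namespace Pool.Agent.Lib_helper41.PM
variable {n : ℕ} {q : ℝ≥0∞}

lemma exists_norming (hq : 1 ≤ q) (hq2 : q ≠ 2) : ∃ l1 l2 w1 w2 : ℝ, 0 < l1 ∧ 0 < l2 ∧ 0 < w1 ∧
    0 ≤ w2 ∧ w2 * l1 < w1 * l2 ∧
    (∀ x : Fin 2 → ℝ, w1 * x 0 - w2 * x 1 ≤ nq q x) ∧ nq q ![l1, -l2] ≤ w1 * l1 + w2 * l2 := by
  rcases eq_or_ne q ∞ with rfl | hqt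
  · refine ⟨2, 1, 1, 0, by norm_num, by norm_num, by norm_num, le_rfl, by norm_num, ?_, ?_⟩
    · intro x
      have h := abs_le_nq (q := ∞) hq x 0
      have := le_abs_self (x 0)
      linarith
    · unfold nq
      rw [PiLp.norm_eq_ciSup]
      apply ciSup_le
      intro i
      fin_cases i <;> simp
  rcases eq_or_ne q 1 with rfl | hq1
  · refine ⟨1, 2, 1, 1, by norm_num, by norm_num, by norm_num, by norm_num, by norm_num, ?_, ?_⟩
    · intro x
      unfold nq
      rw [PiLp.norm_eq_sum (by norm_num)]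
      simp only [ENNReal.toReal_one, Real.rpow_one, div_one, Fin.sum_univ_two, Real.norm_eq_abs]
      have h1 := le_abs_self (x 0)
      have h2 := neg_abs_le (x 1)
      linarith
    · refine (nq_le_sum hq _).trans ?_
      rw [Fin.sum_univ_two]
      norm_num
  -- the case `1 < q < ∞`
  set r := q.toReal with hr
  have hr1 : 1 < r := by
    have h1 : 1 < q := lt_of_le_of_ne hq (Ne.symm hq1)
    have := (ENNReal.toReal_lt_toReal ENNReal.one_ne_top hqt).mpr h1
    simpa using this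
  have hr2 : r ≠ 2 := by
    intro h
    apply hq2
    have := (ENNReal.toReal_eq_toReal_iff' hqt (by norm_num : (2 : ℝ≥0∞) ≠ ∞)).mp
    apply this
    rw [← hr, h]
    norm_num
  obtain ⟨ρ, hρ0, hρ⟩ : ∃ ρ : ℝ, 0 < ρ ∧ ρ ^ (r - 1) < ρ := by
    rcases lt_or_gt_of_ne hr2 with h | h
    · refine ⟨2, by norm_num, ?_⟩
      calc (2 : ℝ) ^ (r - 1) < 2 ^ (1 : ℝ) := Real.rpow_lt_rpow_of_exponent_lt (by norm_num) (by linarith)
        _ = 2 := by norm_num
    · refine ⟨1 / 2, by norm_num, ?_⟩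
      calc (1 / 2 : ℝ) ^ (r - 1) < (1 / 2) ^ (1 : ℝ) :=
            Real.rpow_lt_rpow_of_exponent_gt (by norm_num) (by norm_num) (by linarith)
        _ = 1 / 2 := by norm_num
  set S : ℝ := 1 + ρ ^ r with hS
  have hS0 : 0 < S := by positivity
  have hpos : 0 < ρ ^ (r - 1) := by positivity
  have hr0 : 0 < r := by linarith
  have hmul : ρ ^ (r - 1) * ρ = ρ ^ r := by
    rw [← Real.rpow_add_one hρ0.ne', sub_add_cancel]
  refine ⟨1, ρ, S ^ (1 / r) / S, S ^ (1 / r) / S * ρ ^ (r - 1), one_pos, hρ0, by positivity,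
    by positivity, ?_, ?_, ?_⟩
  · rw [mul_one]
    exact mul_lt_mul_of_pos_left hρ (by positivity)
  · intro x
    have hc := Real.HolderConjugate.conjExponent hr1
    have h1 := Real.inner_le_Lp_mul_Lq (Finset.univ : Finset (Fin 2)) x
      ![S ^ (1 / r) / S, -(S ^ (1 / r) / S * ρ ^ (r - 1))] hc
    have h2 : (∑ i, |x i| ^ r) ^ (1 / r) = nq q x := by
      unfold nq
      rw [PiLp.norm_eq_sum (by rw [← hr]; exact hr0)]
      rfl
    rw [h2] at h1
    have hr10 : r - 1 ≠ 0 := by linarith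
    have hk1 : (1 / r - 1) * r.conjExponent = -1 := by
      unfold Real.conjExponent
      field_simp
      ring
    have hk2 : (r - 1) * r.conjExponent = r := by
      unfold Real.conjExponent
      field_simp
    have hw : S ^ (1 / r) / S = S ^ (1 / r - 1) := by
      rw [Real.rpow_sub_one hS0.ne']
    have h3 : (∑ i, |(![S ^ (1 / r) / S, -(S ^ (1 / r) / S * ρ ^ (r - 1))] : Fin 2 → ℝ) i| ^
        r.conjExponent) = 1 := by
      rw [Fin.sum_univ_two]
      simp only [Matrix.cons_val_zero, Matrix.cons_val_one, abs_neg]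
      rw [abs_of_pos (by positivity), abs_of_pos (by positivity), hw,
        Real.mul_rpow (by positivity) (by positivity), ← Real.rpow_mul hS0.le, hk1,
        ← Real.rpow_mul hρ0.le, hk2, Real.rpow_neg_one]
      rw [← mul_one_add, ← hS]
      exact inv_mul_cancel₀ hS0.ne'
    rw [h3, Real.one_rpow, mul_one, Fin.sum_univ_two] at h1
    simp only [Matrix.cons_val_zero, Matrix.cons_val_one] at h1
    linarith
  · have h2 : nq q ![1, -ρ] = S ^ (1 / r) := by
      unfold nq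
      rw [PiLp.norm_eq_sum (by rw [← hr]; exact hr0)]
      rw [Fin.sum_univ_two, ← hr]
      simp only [Matrix.cons_val_zero, Matrix.cons_val_one, norm_one, Real.one_rpow, norm_neg,
        Real.norm_eq_abs, abs_of_pos hρ0]
      rw [hS]
    rw [h2, mul_one, mul_assoc, hmul]
    rw [← mul_one_add, ← hS, div_mul_cancel₀ _ hS0.ne']

/-- diagonal matrices in dimension two -/
noncomputable def dg2 (x y : ℝ) : Mat 2 := x • pr 1 0 + y • pr 0 1

lemma dg2_eq (x y : ℝ) : dg2 x y = cj (1 : unitaryGroup (Fin 2) ℂ) (fun i => ((![x, y] i : ℝ) : ℂ)) := by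
  rw [cj_one_two]; simp [dg2]

lemma mpow_dg2 (x y s : ℝ) : mpow (dg2 x y) s = dg2 (x ^ s) (y ^ s) := by
  rw [dg2_eq, mpow_cj, cj_one_two]
  simp [dg2]

lemma dg2_isHermitian (x y : ℝ) : (dg2 x y).IsHermitian := by
  rw [dg2_eq]; exact cj_isHermitian _ _

lemma dg2_posSemidef {x y : ℝ} (hx : 0 ≤ x) (hy : 0 ≤ y) : (dg2 x y).PosSemidef :=
  ((pr_posSemidef _ _).smul hx).add ((pr_posSemidef _ _).smul hy)

lemma dg2_posDef {x y : ℝ} (hx : 0 < x) (hy : 0 < y) : (dg2 x y).PosDef := by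
  rw [dg2_eq]
  apply posDef_cj
  intro i
  fin_cases i
  · simpa using hx
  · simpa using hy

lemma dg_dg2 {a b : ℝ} (h : a ^ 2 + b ^ 2 = 1) (x y : ℝ) :
    dg (rot a b h) (dg2 x y) = ![x * a ^ 2 + y * b ^ 2, x * b ^ 2 + y * a ^ 2] := by
  unfold dg dg2 rot pr
  ext i
  fin_cases i <;> simp [Matrix.mul_apply, Fin.sum_univ_two, star_apply] <;> ring

/-- a rank one positive matrix -/
noncomputable def vv (x y : ℂ) : Mat 2 := !![x * star x, x * star y; y * star x, y * star y]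

lemma vv_posSemidef (x y : ℂ) : (vv x y).PosSemidef := by
  have h : vv x y = vecMulVec ![x, y] (star ![x, y]) := by
    ext i j
    fin_cases i <;> fin_cases j <;> simp [vv, vecMulVec_apply]
  rw [h]
  exact posSemidef_vecMulVec_self_star _

/-- sandwich of a Hermitian matrix between diagonal matrices -/
lemma sandwich {M : Mat 2} (hM : M.IsHermitian) {e : ℝ} (he : 0 < e) :
    ∃ K : ℝ, 0 ≤ K ∧ (dg2 K ((M 1 1).re + e) - M).PosSemidef ∧
      (M - dg2 (-K) ((M 1 1).re - e)).PosSemidef := by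
  have h00 : ((M 0 0).re : ℂ) = M 0 0 := by
    have := hM.apply 0 0
    exact Complex.conj_eq_iff_re.mp this
  have h11 : ((M 1 1).re : ℂ) = M 1 1 := by
    have := hM.apply 1 1
    exact Complex.conj_eq_iff_re.mp this
  have h10 : star (M 0 1) = M 1 0 := hM.apply 1 0
  set m : ℝ := Complex.normSq (M 0 1) with hm
  have hmm : M 0 1 * (starRingEnd ℂ) (M 0 1) = (m : ℂ) := Complex.mul_conj _
  have h10' : M 1 0 = (starRingEnd ℂ) (M 0 1) := h10.symm
  have hm0 : 0 ≤ m := Complex.normSq_nonneg _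
  have heC : (e : ℂ) ≠ 0 := by exact_mod_cast he.ne'
  have hes : star (e : ℂ) = (e : ℂ) := Complex.conj_ofReal e
  have heta : ∀ N : Mat 2, N = !![N 0 0, N 0 1; N 1 0, N 1 1] := Matrix.eta_fin_two
  refine ⟨|(M 0 0).re| + m / e, by positivity, ?_, ?_⟩
  · have key : dg2 (|(M 0 0).re| + m / e) ((M 1 1).re + e) - M =
        (1 / e) • vv (-(M 0 1)) (e : ℂ) + (|(M 0 0).re| - (M 0 0).re) • pr 1 0 := by
      rw [heta M]
      ext i j
      fin_cases i <;> fin_cases j
      · simp only [dg2, pr, vv, star_neg, hes]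
        simp
        rw [h00, hmm]
        field_simp
        ring
      · simp only [dg2, pr, vv, star_neg, hes]
        simp
        field_simp
      · simp only [dg2, pr, vv, star_neg, hes]
        simp
        rw [h10']
        field_simp
      · simp only [dg2, pr, vv, star_neg, hes]
        simp
        rw [h11]
        field_simp
        ring
    rw [key]
    exact ((vv_posSemidef _ _).smul (by positivity)).add
      ((pr_posSemidef _ _).smul (sub_nonneg.mpr (le_abs_self _)))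
  · have key : M - dg2 (-(|(M 0 0).re| + m / e)) ((M 1 1).re - e) =
        (1 / e) • vv (M 0 1) (e : ℂ) + (|(M 0 0).re| + (M 0 0).re) • pr 1 0 := by
      rw [heta M]
      ext i j
      fin_cases i <;> fin_cases j
      · simp only [dg2, pr, vv, star_neg, hes]
        simp
        rw [h00, hmm]
        field_simp
        ring
      · simp only [dg2, pr, vv, star_neg, hes]
        simp
        field_simp
      · simp only [dg2, pr, vv, star_neg, hes]
        simp
        rw [h10']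
        field_simp
      · simp only [dg2, pr, vv, star_neg, hes]
        simp
        rw [h11]
        field_simp
        ring
    rw [key]
    refine ((vv_posSemidef _ _).smul (by positivity)).add
      ((pr_posSemidef _ _).smul ?_)
    have := neg_abs_le (M 0 0).re
    linarith

lemma mpow_posDef {Y : Mat n} (hY : Y.PosDef) (s : ℝ) : (mpow Y s).PosDef := by
  obtain ⟨U, c, rfl⟩ := exists_cj hY.1
  rw [mpow_cj]
  exact posDef_cj U _ fun i => Real.rpow_pos_of_pos (posDef_cj_pos U c hY i) _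

/-- the second matrix of the example is positive definite -/
lemma exists_Y {a b l1 l2 : ℝ} (h : a ^ 2 + b ^ 2 = 1) (hl1 : 0 < l1) (hl2 : 0 < l2)
    (hc : l1 * b ^ 2 < l2 * a ^ 2) : ∃ σ : ℝ, 0 < σ ∧
    (pr 1 0 - (σ * l1) • pr a b + (σ * l2) • pr (-b) a).PosDef := by
  set δ : ℝ := l2 * a ^ 2 - l1 * b ^ 2 with hδ
  have hδ0 : 0 < δ := by rw [hδ]; linarith
  refine ⟨δ / (2 * (l1 * l2)), by positivity, ?_⟩
  set σ : ℝ := δ / (2 * (l1 * l2)) with hσ
  have hσ0 : 0 < σ := by positivity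
  have hσl : σ * (l1 * l2) = δ / 2 := by
    rw [hσ]; field_simp
  set y : ℝ := σ * δ with hy
  have hy0 : 0 < y := by positivity
  set m : ℝ := σ * ((l1 + l2) * (a * b)) with hm
  set x : ℝ := 1 - σ * (l1 * a ^ 2 - l2 * b ^ 2) with hx
  have hdet : x * y - m ^ 2 = σ * δ / 2 := by
    have e1 : x * y - m ^ 2 = σ * δ - σ ^ 2 * (l1 * l2) * (a ^ 2 + b ^ 2) ^ 2 := by
      rw [hx, hy, hm, hδ]; ring
    rw [e1, h]
    have : σ ^ 2 * (l1 * l2) = σ * (σ * (l1 * l2)) := by ring
    rw [this, hσl]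
    ring
  have heq : pr 1 0 - (σ * l1) • pr a b + (σ * l2) • pr (-b) a =
      !![(x : ℂ), ((-m : ℝ) : ℂ); ((-m : ℝ) : ℂ), (y : ℂ)] := by
    ext i j
    fin_cases i <;> fin_cases j <;> simp [pr, hx, hy, hm, hδ] <;> ring
  have hyC : (y : ℂ) ≠ 0 := by exact_mod_cast hy0.ne'
  have hpsd : (!![(x : ℂ), ((-m : ℝ) : ℂ); ((-m : ℝ) : ℂ), (y : ℂ)] : Mat 2).PosSemidef := by
    have e : (!![(x : ℂ), ((-m : ℝ) : ℂ); ((-m : ℝ) : ℂ), (y : ℂ)] : Mat 2) =
        (1 / y) • pr (-m) y + ((x * y - m ^ 2) / y) • pr 1 0 := by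
      ext i j
      fin_cases i <;> fin_cases j <;> simp [pr] <;> field_simp <;> ring
    rw [e]
    refine ((pr_posSemidef _ _).smul (by positivity)).add ((pr_posSemidef _ _).smul ?_)
    rw [hdet]
    positivity
  rw [heq, hpsd.posDef_iff_det_ne_zero, Matrix.det_fin_two]
  simp only [Matrix.of_apply, Matrix.cons_val', Matrix.cons_val_zero, Matrix.cons_val_fin_one,
    Matrix.cons_val_one]
  have h2 : (x : ℂ) * (y : ℂ) - ((-m : ℝ) : ℂ) * ((-m : ℝ) : ℂ) = ((σ * δ / 2 : ℝ) : ℂ) := by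
    rw [← hdet]
    push_cast
    ring
  rw [h2]
  have : σ * δ / 2 ≠ 0 := by positivity
  exact_mod_cast this

open Filter Topology in
lemma exists_eps {p c e g K K2 : ℝ} (hp : 1 < p) (hc : 0 < c) (he : 0 < e) (hg : 0 < g)
    (hK : 0 ≤ K) : ∃ ε : ℝ, 0 < ε ∧ ε < 1 ∧ ε * (K + 1) ≤ 1 ∧ ε ^ p ≤ ε * e ∧
      ε * K2 < (ε * c) ^ (1 / p) * g := by
  have t1 : Tendsto (fun ε : ℝ => ε ^ (p - 1)) (𝓝[>] 0) (𝓝 0) := by
    have := (Real.continuousAt_rpow_const 0 (p - 1) (Or.inr (by linarith))).tendsto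
    rw [Real.zero_rpow (by linarith)] at this
    exact this.mono_left nhdsWithin_le_nhds
  have hpp : 0 < 1 - 1 / p := by
    have : 1 / p < 1 := by rw [div_lt_one (by linarith)]; exact hp
    linarith
  have t2 : Tendsto (fun ε : ℝ => ε ^ (1 - 1 / p) * K2) (𝓝[>] 0) (𝓝 0) := by
    have := (Real.continuousAt_rpow_const 0 (1 - 1 / p) (Or.inr hpp.le)).tendsto
    rw [Real.zero_rpow hpp.ne'] at this
    have h2 := (this.mono_left (nhdsWithin_le_nhds (s := Set.Ioi 0))).mul_const K2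
    rwa [zero_mul] at h2
  have hcg : 0 < c ^ (1 / p) * g := by positivity
  have e1 := t1.eventually (gt_mem_nhds he)
  have e2 := t2.eventually (gt_mem_nhds hcg)
  have e3 : ∀ᶠ ε : ℝ in 𝓝[>] 0, ε < 1 / (K + 1) :=
    (gt_mem_nhds (by positivity : (0 : ℝ) < 1 / (K + 1))).filter_mono nhdsWithin_le_nhds
  have e4 : ∀ᶠ ε : ℝ in 𝓝[>] 0, ε < 1 :=
    (gt_mem_nhds (by norm_num : (0 : ℝ) < 1)).filter_mono nhdsWithin_le_nhds
  have e5 : ∀ᶠ ε : ℝ in 𝓝[>] 0, 0 < ε := self_mem_nhdsWithin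
  obtain ⟨ε, h1, h2, h3, h4, h5⟩ := (e1.and (e2.and (e3.and (e4.and e5)))).exists
  refine ⟨ε, h5, h4, ?_, ?_, ?_⟩
  · rw [lt_div_iff₀ (by positivity)] at h3
    exact h3.le
  · have : ε ^ p = ε * ε ^ (p - 1) := by
      rw [mul_comm, ← Real.rpow_add_one h5.ne', sub_add_cancel]
    rw [this]
    exact mul_le_mul_of_nonneg_left h1.le h5.le
  · have e6 : ε = ε ^ (1 / p) * ε ^ (1 - 1 / p) := by
      rw [← Real.rpow_add h5, add_sub_cancel, Real.rpow_one]
    have h6 : 0 < ε ^ (1 / p) := Real.rpow_pos_of_pos h5 _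
    calc ε * K2 = ε ^ (1 / p) * (ε ^ (1 - 1 / p) * K2) := by rw [← mul_assoc, ← e6]
      _ < ε ^ (1 / p) * (c ^ (1 / p) * g) := mul_lt_mul_of_pos_left h2 h6
      _ = (ε * c) ^ (1 / p) * g := by rw [Real.mul_rpow h5.le hc.le, mul_assoc]

/-- exponents above one are not monotonic for `q ≠ 2` -/
theorem not_monotonic_big (hq : 1 ≤ q) (hq2 : q ≠ 2) {p : ℝ} (hp : 1 < p) :
    ¬ Monotonic p q := by
  intro hmon
  obtain ⟨l1, l2, w1, w2, hl1, hl2, hw1, hw2, hw, hdual, hnorm⟩ := exists_norming hq hq2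
  have hp0 : 0 < p := by linarith
  -- the rotation
  set T : ℝ := (w2 / w1 + l2 / l1) / 2 with hT
  have hT0 : 0 < T := by positivity
  have hlt : w2 / w1 < l2 / l1 := by
    rw [div_lt_div_iff₀ hw1 hl1]
    linarith
  have hT1 : w2 < w1 * T := by
    have h1 : w2 / w1 < T := by rw [hT]; linarith
    rw [div_lt_iff₀ hw1] at h1
    linarith
  have hT2 : l1 * T < l2 := by
    have h1 : T < l2 / l1 := by rw [hT]; linarith
    rw [lt_div_iff₀ hl1] at h1
    linarith
  set a : ℝ := √(1 / (1 + T)) with ha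
  set b : ℝ := √(T / (1 + T)) with hb
  have ha2 : a ^ 2 = 1 / (1 + T) := Real.sq_sqrt (by positivity)
  have hb2 : b ^ 2 = T / (1 + T) := Real.sq_sqrt (by positivity)
  have hab : a ^ 2 + b ^ 2 = 1 := by rw [ha2, hb2]; field_simp
  have ha1 : a ^ 2 ≤ 1 := by nlinarith [sq_nonneg b]
  have hb1 : b ^ 2 ≤ 1 := by nlinarith [sq_nonneg a]
  have ha0 : 0 < a ^ 2 := by rw [ha2]; positivity
  have hb0 : 0 < b ^ 2 := by rw [hb2]; positivity
  have c1 : w2 * a ^ 2 < w1 * b ^ 2 := by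
    rw [ha2, hb2, mul_one_div, ← mul_div_assoc]
    exact div_lt_div_of_pos_right hT1 (by positivity)
  have c2 : l1 * b ^ 2 < l2 * a ^ 2 := by
    rw [ha2, hb2, mul_one_div, ← mul_div_assoc]
    exact div_lt_div_of_pos_right hT2 (by positivity)
  obtain ⟨σ, hσ, hY⟩ := exists_Y hab hl1 hl2 c2
  set Y : Mat 2 := pr 1 0 - (σ * l1) • pr a b + (σ * l2) • pr (-b) a with hYdef
  set M : Mat 2 := mpow Y p with hM
  have hMpd : M.PosDef := mpow_posDef hY p
  set c : ℝ := (M 1 1).re with hc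
  have hc0 : 0 < c := (Complex.lt_def.mp (hMpd.diag_pos (i := 1))).1
  -- the constants
  set G : ℝ := w1 * b ^ 2 - w2 * a ^ 2 with hG
  have hG0 : 0 < G := by rw [hG]; linarith
  set H : ℝ := w1 * b ^ 2 + 2 * (w2 * a ^ 2) with hH
  have hw2a : 0 ≤ w2 * a ^ 2 := mul_nonneg hw2 ha0.le
  have hGH : G ≤ H := by rw [hG, hH]; linarith
  have hH0 : 0 < H := lt_of_lt_of_le hG0 hGH
  set η : ℝ := G / (2 * H) with hη
  have hη0 : 0 < η := by positivity
  have hη1 : η ≤ 1 / 2 := by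
    rw [hη, div_le_div_iff₀ (by positivity) (by norm_num)]
    linarith
  have hηH : η * H = G / 2 := by rw [hη]; field_simp
  set g : ℝ := w1 * (1 - η) * b ^ 2 - w2 * (1 + 2 * η) * a ^ 2 with hg
  have hg0 : 0 < g := by
    have : g = G - η * H := by rw [hg, hG, hH]; ring
    rw [this, hηH]
    linarith
  have he0 : 0 < c * η := by positivity
  obtain ⟨K, hK0, hKu, hKl⟩ := sandwich hMpd.1 he0
  rw [← hc] at hKu hKl
  obtain ⟨ε, hε0, hε1, hεK, hεp, hεg⟩ := exists_eps (K2 := 1 + w1 * (K + 1) + w2 * K) hp hc0 he0 hg0 hK0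
  -- the first matrix
  have hX : (dg2 1 ε).PosDef := dg2_posDef one_pos hε0
  have hmono := hmon 2 (dg2 1 ε) Y hX hY (a := 1 - ε) ⟨by linarith, by linarith⟩ (b := 1)
    ⟨zero_le_one, le_rfl⟩ (by linarith)
  simp only at hmono
  rw [mean_one hp0.ne' hX] at hmono
  -- the mean
  set N : Mat 2 := (1 - ε) • dg2 1 (ε ^ p) + ε • M with hN
  have hmean : mean p (1 - ε) (dg2 1 ε) Y = mpow N (1 / p) := by
    unfold mean
    rw [mpow_dg2, Real.one_rpow, sub_sub_cancel]
  rw [hmean] at hmono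
  have hεp0 : 0 < ε ^ p := Real.rpow_pos_of_pos hε0 p
  have hNpsd : N.PosSemidef :=
    ((dg2_posSemidef zero_le_one hεp0.le).smul (by linarith)).add (hMpd.posSemidef.smul hε0.le)
  have hs : (1 / p) ∈ Set.Icc (0 : ℝ) 1 := by
    constructor
    · positivity
    · rw [div_le_one hp0]; exact hp.le
  have hup : (dg2 (1 + ε * K) (ε * c * (1 + 2 * η)) - N).PosSemidef := by
    have e : dg2 (1 + ε * K) (ε * c * (1 + 2 * η)) - N =
        ε • (dg2 K (c + c * η) - M) + dg2 ε (ε * (c * η) - (1 - ε) * ε ^ p) := by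
      rw [hN]
      unfold dg2
      module
    rw [e]
    refine (hKu.smul hε0.le).add (dg2_posSemidef hε0.le ?_)
    nlinarith
  have hlow : (N - dg2 (1 - ε * (K + 1)) (ε * c * (1 - η))).PosSemidef := by
    have e : N - dg2 (1 - ε * (K + 1)) (ε * c * (1 - η)) =
        ε • (M - dg2 (-K) (c - c * η)) + dg2 0 ((1 - ε) * ε ^ p) := by
      rw [hN]
      unfold dg2
      module
    rw [e]
    exact (hKl.smul hε0.le).add (dg2_posSemidef le_rfl (mul_nonneg (by linarith) hεp0.le))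
  have hεc : 0 < ε * c := by positivity
  have h1η : 0 ≤ 1 - η := by linarith
  have hup2 := mpow_mono hs hNpsd hup
  have hlow2 := mpow_mono hs (dg2_posSemidef (by linarith) (by positivity)) hlow
  rw [mpow_dg2] at hup2 hlow2
  set κ : ℝ := (ε * c) ^ (1 / p) with hκ
  have hκ0 : 0 < κ := by positivity
  -- scalar estimates
  have k1 : 1 - ε * (K + 1) ≤ (1 - ε * (K + 1)) ^ (1 / p) := by
    rcases (sub_nonneg.mpr hεK).eq_or_lt with h0 | h0
    · rw [← h0]
      exact Real.rpow_nonneg le_rfl _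
    · have := Real.rpow_le_rpow_of_exponent_ge h0 (by nlinarith) hs.2
      rwa [Real.rpow_one] at this
  have k2 : (1 + ε * K) ^ (1 / p) ≤ 1 + ε * K := by
    have := Real.rpow_le_rpow_of_exponent_le (x := 1 + ε * K) (by nlinarith) hs.2
    rwa [Real.rpow_one] at this
  have k3 : κ * (1 - η) ≤ (ε * c * (1 - η)) ^ (1 / p) := by
    rw [Real.mul_rpow hεc.le h1η]
    apply mul_le_mul_of_nonneg_left _ hκ0.le
    have := Real.rpow_le_rpow_of_exponent_ge (x := 1 - η) (by linarith) (by linarith) hs.2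
    rwa [Real.rpow_one] at this
  have k4 : (ε * c * (1 + 2 * η)) ^ (1 / p) ≤ κ * (1 + 2 * η) := by
    rw [Real.mul_rpow hεc.le (by linarith)]
    apply mul_le_mul_of_nonneg_left _ hκ0.le
    have := Real.rpow_le_rpow_of_exponent_le (x := 1 + 2 * η) (by linarith) hs.2
    rwa [Real.rpow_one] at this
  -- the diagonal in the rotated basis
  set R := rot a b hab with hR
  have d0 := dg_nonneg R hlow2 0
  have d1 := dg_nonneg R hup2 1
  rw [dg_sub, dg_dg2] at d0 d1
  simp only [Pi.sub_apply, Matrix.cons_val_zero, Matrix.cons_val_one] at d0 d1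
  have hYrot : Y = dg2 1 0 - cj R (fun i => ((![σ * l1, -(σ * l2)] i : ℝ) : ℂ)) := by
    rw [hR, cj_rot, hYdef]
    unfold dg2
    simp only [Matrix.cons_val_zero, Matrix.cons_val_one]
    module
  have dY : dg R Y = ![a ^ 2 - σ * l1, b ^ 2 + σ * l2] := by
    rw [hYrot, dg_sub, dg_cj, dg_dg2]
    ext i
    fin_cases i <;> simp
  have hmh : (mpow N (1 / p)).IsHermitian := by
    obtain ⟨U, d, hU⟩ := exists_cj hNpsd.1
    rw [hU, mpow_cj]
    exact cj_isHermitian _ _
  have low := (hdual (dg R (mpow N (1 / p) - Y))).trans (nq_dg_le hq R (hmh.sub hY.1))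
  rw [dg_sub, dY] at low
  simp only [Pi.sub_apply, Matrix.cons_val_zero, Matrix.cons_val_one] at low
  -- upper bound for the distance of the endpoints
  have hXY : dg2 1 ε - Y = ε • pr 0 1 + cj R (fun i => ((![σ * l1, -(σ * l2)] i : ℝ) : ℂ)) := by
    rw [hYrot]
    unfold dg2
    module
  have hup3 : schatten q (dg2 1 ε - Y) ≤ ε + σ * (w1 * l1 + w2 * l2) := by
    rw [hXY]
    refine (schatten_add_le hq (isHermitian_smul (pr_posSemidef 0 1).1 ε)
      (cj_isHermitian R _)).trans ?_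
    rw [schatten_smul hq (pr_posSemidef 0 1).1, abs_of_pos hε0]
    have j2 := schatten_pr hq (show (0 : ℝ) ^ 2 + 1 ^ 2 = 1 by norm_num)
    have j3 : schatten q (cj R (fun i => ((![σ * l1, -(σ * l2)] i : ℝ) : ℂ))) =
        σ * nq q ![l1, -l2] := by
      have h1 := schatten_conj hq R ![σ * l1, -(σ * l2)]
      have h2 : (![σ * l1, -(σ * l2)] : Fin 2 → ℝ) = σ • ![l1, -l2] := by
        ext i
        fin_cases i <;> simp
      unfold cj
      rw [h1, h2, nq_smul hq, abs_of_pos hσ]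
    rw [j3]
    have j4 := mul_le_mul_of_nonneg_left hnorm hσ.le
    have j5 := mul_le_mul_of_nonneg_left j2 hε0.le
    linarith
  have fin := (low.trans hmono).trans hup3
  have f0 : (1 - ε * (K + 1)) * a ^ 2 + κ * (1 - η) * b ^ 2 ≤ dg R (mpow N (1 / p)) 0 := by
    have s1 := mul_le_mul_of_nonneg_right k1 ha0.le
    have s2 := mul_le_mul_of_nonneg_right k3 hb0.le
    linarith
  have f1 : dg R (mpow N (1 / p)) 1 ≤ (1 + ε * K) * b ^ 2 + κ * (1 + 2 * η) * a ^ 2 := by
    have s1 := mul_le_mul_of_nonneg_right k2 hb0.le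
    have s2 := mul_le_mul_of_nonneg_right k4 ha0.le
    linarith
  have g0 := mul_le_mul_of_nonneg_left f0 hw1.le
  have g1 := mul_le_mul_of_nonneg_left f1 hw2
  have r1 : ε * (w1 * (K + 1)) * a ^ 2 ≤ ε * (w1 * (K + 1)) * 1 :=
    mul_le_mul_of_nonneg_left ha1 (by positivity)
  have r2 : ε * (w2 * K) * b ^ 2 ≤ ε * (w2 * K) * 1 :=
    mul_le_mul_of_nonneg_left hb1 (by positivity)
  have r3 : κ * g = w1 * (κ * (1 - η) * b ^ 2) - w2 * (κ * (1 + 2 * η) * a ^ 2) := by
    rw [hg]; ring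
  linarith

end Pool.Agent.Lib_helper41.PM
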