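import Pool.Agent.Lib_helper41.PM.Loewner

/-!
# Contractions, doubly substochastic matrices, simultaneous diagonalisation
-/

open Matrix
open scoped ENNReal BigOperators ComplexOrder

namespace Pool.Agent.Lib_helper41.PM
variable {n : ℕ} {q : ℝ≥0∞}

/-- contraction -/
def Contr (P : Mat n) : Prop := (1 - Pᴴ * P).PosSemidef ∧ (1 - P * Pᴴ).PosSemidef

lemma contr_of_left {P : Mat n} (h : (1 - Pᴴ * P).PosSemidef) : Contr P := by
  refine ⟨h, ?_⟩
  have : Invertible (1 : Mat n) := invertibleOne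
  have h1 : (fromBlocks (1 : Mat n) P Pᴴ (1 : Mat n)).PosSemidef := by
    rw [PosDef.fromBlocks₁₁ P (1 : Mat n) PosDef.one]
    simpa using h
  rw [PosDef.fromBlocks₂₂ (1 : Mat n) P PosDef.one] at h1
  simpa using h1

lemma Contr.star {P : Mat n} (h : Contr P) : Contr Pᴴ := by
  refine ⟨?_, ?_⟩
  · rw [conjTranspose_conjTranspose]; exact h.2
  · rw [conjTranspose_conjTranspose]; exact h.1

lemma Contr.mul {P Q : Mat n} (hP : Contr P) (hQ : Contr Q) : Contr (P * Q) := by
  apply contr_of_left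
  have e : 1 - (P * Q)ᴴ * (P * Q) = (1 - Qᴴ * Q) + Qᴴ * (1 - Pᴴ * P) * Q := by
    rw [conjTranspose_mul]
    noncomm_ring
  rw [e]
  exact hQ.1.add (hP.1.conjTranspose_mul_mul_same Q)

lemma contr_unitary (U : unitaryGroup (Fin n) ℂ) : Contr (U : Mat n) := by
  apply contr_of_left
  rw [← star_eq_conjTranspose, unitary_star_mul, sub_self]
  exact PosSemidef.zero

lemma contr_star_unitary (U : unitaryGroup (Fin n) ℂ) : Contr (star (U : Mat n)) :=
  (contr_unitary U).star

/-- doubly substochastic -/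
structure DSS (D : Fin n → Fin n → ℝ) : Prop where
  nonneg : ∀ i j, 0 ≤ D i j
  row : ∀ i, ∑ j, D i j ≤ 1
  col : ∀ j, ∑ i, D i j ≤ 1

lemma DSS.mono {D D' : Fin n → Fin n → ℝ} (hD : DSS D) (h0 : ∀ i j, 0 ≤ D' i j)
    (h : ∀ i j, D' i j ≤ D i j) : DSS D' :=
  ⟨h0, fun i => (Finset.sum_le_sum fun j _ => h i j).trans (hD.row i),
    fun j => (Finset.sum_le_sum fun i _ => h i j).trans (hD.col j)⟩

lemma DSS.mul {D D' : Fin n → Fin n → ℝ} (hD : DSS D) (hD' : DSS D') :
    DSS (fun i j => ∑ k, D i k * D' k j) := by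
  refine ⟨fun i j => Finset.sum_nonneg fun k _ => mul_nonneg (hD.nonneg _ _) (hD'.nonneg _ _),
    fun i => ?_, fun j => ?_⟩
  · rw [Finset.sum_comm]
    calc ∑ k, ∑ j, D i k * D' k j = ∑ k, D i k * ∑ j, D' k j := by
          simp only [Finset.mul_sum]
      _ ≤ ∑ k, D i k * 1 := Finset.sum_le_sum fun k _ =>
          mul_le_mul_of_nonneg_left (hD'.row k) (hD.nonneg _ _)
      _ ≤ 1 := by simpa using hD.row i
  · rw [Finset.sum_comm]
    calc ∑ k, ∑ i, D i k * D' k j = ∑ k, (∑ i, D i k) * D' k j := by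
          simp only [Finset.sum_mul]
      _ ≤ ∑ k, 1 * D' k j := Finset.sum_le_sum fun k _ =>
          mul_le_mul_of_nonneg_right (hD.col k) (hD'.nonneg _ _)
      _ ≤ 1 := by simpa using hD'.col j

lemma row_sum_normSq (P : Mat n) (i : Fin n) :
    ∑ j, Complex.normSq (P i j) = ((P * Pᴴ) i i).re := by
  rw [Matrix.mul_apply, Complex.re_sum]
  refine Finset.sum_congr rfl fun j _ => ?_
  rw [conjTranspose_apply, ← starRingEnd_apply]
  have : P i j * (starRingEnd ℂ) (P i j) = ((Complex.normSq (P i j) : ℝ) : ℂ) := Complex.mul_conj _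
  rw [this, Complex.ofReal_re]

lemma col_sum_normSq (P : Mat n) (j : Fin n) :
    ∑ i, Complex.normSq (P i j) = ((Pᴴ * P) j j).re := by
  have := row_sum_normSq Pᴴ j
  rw [conjTranspose_conjTranspose] at this
  rw [← this]
  refine Finset.sum_congr rfl fun i _ => ?_
  rw [conjTranspose_apply]
  exact (Complex.normSq_conj _).symm

lemma diag_re_nonneg {C : Mat n} (hC : C.PosSemidef) (i : Fin n) : 0 ≤ (C i i).re :=
  (Complex.le_def.mp (hC.diag_nonneg (i := i))).1

lemma DSS.of_contr {P : Mat n} (h : Contr P) : DSS (fun i j => Complex.normSq (P i j)) := by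
  refine ⟨fun i j => Complex.normSq_nonneg _, fun i => ?_, fun j => ?_⟩
  · rw [row_sum_normSq]
    have := diag_re_nonneg h.2 i
    simp only [Matrix.sub_apply, one_apply_eq, Complex.sub_re, Complex.one_re] at this
    linarith
  · rw [col_sum_normSq]
    have := diag_re_nonneg h.1 j
    simp only [Matrix.sub_apply, one_apply_eq, Complex.sub_re, Complex.one_re] at this
    linarith

lemma DSS.transpose {D : Fin n → Fin n → ℝ} (h : DSS D) : DSS (fun i j => D j i) :=
  ⟨fun i j => h.nonneg j i, h.col, h.row⟩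

/-- rearrangement for doubly substochastic matrices -/
lemma dss_le {D : Fin n → Fin n → ℝ} (hD : DSS D) {w x : Fin n → ℝ} (hw : ∀ i, 0 ≤ w i)
    (hx : ∀ i, 0 ≤ x i) (hm : Monovary w x) :
    ∑ i, w i * ∑ j, D i j * x j ≤ ∑ i, w i * x i := by
  classical
  obtain ⟨M, M11, M12, M21, M22⟩ : ∃ M : Matrix (Fin n ⊕ Fin n) (Fin n ⊕ Fin n) ℝ,
      (∀ i j, M (Sum.inl i) (Sum.inl j) = D i j) ∧
      (∀ i j, M (Sum.inl i) (Sum.inr j) = if i = j then 1 - ∑ k, D i k else 0) ∧
      (∀ i j, M (Sum.inr i) (Sum.inl j) = if i = j then 1 - ∑ k, D k i else 0) ∧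
      (∀ i j, M (Sum.inr i) (Sum.inr j) = D j i) :=
    ⟨fun a b => Sum.elim (fun i => Sum.elim (fun j => D i j)
      (fun j => if i = j then 1 - ∑ k, D i k else 0) b)
      (fun i => Sum.elim (fun j => if i = j then 1 - ∑ k, D k i else 0) (fun j => D j i) b) a,
      fun _ _ => rfl, fun _ _ => rfl, fun _ _ => rfl, fun _ _ => rfl⟩
  have hM : M ∈ doublyStochastic ℝ (Fin n ⊕ Fin n) := by
    rw [mem_doublyStochastic]
    refine ⟨?_, ?_, ?_⟩
    · rintro (i | i) (j | j)
      · rw [M11]; exact hD.nonneg i j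
      · rw [M12]
        split_ifs
        · linarith [hD.row i]
        · exact le_rfl
      · rw [M21]
        split_ifs
        · linarith [hD.col i]
        · exact le_rfl
      · rw [M22]; exact hD.nonneg j i
    · ext a
      rcases a with i | i
      · simp [M11, M12, M21, M22, mulVec, dotProduct, Fintype.sum_sum_type]
      · simp [M11, M12, M21, M22, mulVec, dotProduct, Fintype.sum_sum_type]
    · ext a
      rcases a with i | i
      · simp [M11, M12, M21, M22, vecMul, dotProduct, Fintype.sum_sum_type]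
      · simp [M11, M12, M21, M22, vecMul, dotProduct, Fintype.sum_sum_type]
  obtain ⟨c, hc0, hc1, hcM⟩ := exists_eq_sum_perm_of_mem_doublyStochastic hM
  set w' : Fin n ⊕ Fin n → ℝ := Sum.elim w 0 with hw'
  set x' : Fin n ⊕ Fin n → ℝ := Sum.elim x 0 with hx'
  have hm' : Monovary w' x' := by
    rintro (i | i) (j | j) hij
    · exact hm hij
    · simp only [hx', Sum.elim_inl, Sum.elim_inr, Pi.zero_apply] at hij
      exact absurd hij (not_lt.mpr (hx i))
    · simp only [hw', Sum.elim_inl, Sum.elim_inr, Pi.zero_apply]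
      exact hw j
    · simp only [hw', Sum.elim_inr, Pi.zero_apply, le_refl]
  have h1 : ∑ i, w i * ∑ j, D i j * x j = ∑ a, w' a * (M *ᵥ x') a := by
    rw [Fintype.sum_sum_type]
    simp [hw', hx', M11, mulVec, dotProduct, Fintype.sum_sum_type]
  have h2 : ∑ i, w i * x i = ∑ a, w' a * x' a := by
    rw [Fintype.sum_sum_type]
    simp [hw', hx']
  rw [h1, h2]
  have h3 : M *ᵥ x' = ∑ σ, c σ • (x' ∘ σ) := by
    rw [← hcM, Matrix.sum_mulVec]
    refine Finset.sum_congr rfl fun σ _ => ?_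
    rw [Matrix.smul_mulVec]
    congr 1
    ext i
    simp [Matrix.mulVec, dotProduct, Equiv.Perm.permMatrix, PEquiv.toMatrix_apply]
  rw [h3]
  have h4 : ∑ a, w' a * (∑ σ, c σ • (x' ∘ σ)) a = ∑ σ, c σ * ∑ a, w' a * x' (σ a) := by
    simp only [Finset.sum_apply, Pi.smul_apply, Function.comp_apply, smul_eq_mul, Finset.mul_sum]
    rw [Finset.sum_comm]
    refine Finset.sum_congr rfl fun σ _ => Finset.sum_congr rfl fun a _ => by ring
  rw [h4]
  calc ∑ σ, c σ * ∑ a, w' a * x' (σ a) ≤ ∑ σ, c σ * ∑ a, w' a * x' a := by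
        refine Finset.sum_le_sum fun σ _ => mul_le_mul_of_nonneg_left ?_ (hc0 σ)
        exact hm'.sum_mul_comp_perm_le_sum_mul
    _ = ∑ a, w' a * x' a := by rw [← Finset.sum_mul, hc1, one_mul]

lemma exists_monovary (w x : Fin n → ℝ) : ∃ π : Equiv.Perm (Fin n), Monovary (w ∘ π) x := by
  refine ⟨(Tuple.sort x).symm.trans (Tuple.sort w), ?_⟩
  intro i j hij
  have h1 := Tuple.monotone_sort w
  have h2 := Tuple.monotone_sort x
  have h3 : (Tuple.sort x).symm i ≤ (Tuple.sort x).symm j := by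
    by_contra hcon
    push Not at hcon
    have := h2 hcon.le
    simp only [Function.comp_apply, Equiv.apply_symm_apply] at this
    linarith
  exact h1 h3

lemma dss_le' {D : Fin n → Fin n → ℝ} (hD : DSS D) {w x : Fin n → ℝ} (hw : ∀ i, 0 ≤ w i)
    (hx : ∀ i, 0 ≤ x i) {π : Equiv.Perm (Fin n)} (hm : Monovary (w ∘ π) x) :
    ∑ i, w i * ∑ j, D i j * x j ≤ ∑ i, w (π i) * x i := by
  have hD' : DSS (fun i j => D (π i) j) :=
    ⟨fun i j => hD.nonneg _ _, fun i => hD.row _, fun j => by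
      rw [Equiv.sum_comp π (fun i => D i j)]; exact hD.col j⟩
  have := dss_le hD' (w := w ∘ π) (x := x) (fun i => hw _) hx hm
  simp only [Function.comp_apply] at this
  rwa [Equiv.sum_comp π (fun i => w i * ∑ j, D i j * x j)] at this

/-- simultaneous diagonalisation -/
lemma exists_simul {X Y : Mat n} (hX : X.PosDef) (hY : Y.IsHermitian) :
    ∃ (R : Mat n) (w : Fin n → ℝ), Rᴴ * X * R = 1 ∧
      Rᴴ * Y * R = diagonal (fun i => (w i : ℂ)) := by
  obtain ⟨U, c, rfl⟩ := exists_cj hX.1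
  have hc := posDef_cj_pos U c hX
  set S : Mat n := cj U (fun i => ((c i ^ (-(1 / 2) : ℝ) : ℝ) : ℂ)) with hS
  have hSh : Sᴴ = S := cj_isHermitian U _
  have hSS : S * cj U (fun i => (c i : ℂ)) * S = 1 := by
    rw [hS, cj_mul, cj_mul, ← cj_one U]
    congr 1
    ext i
    simp only [Pi.mul_apply, Pi.one_apply, ← Complex.ofReal_mul]
    have h1 : c i ^ (-(1 / 2) : ℝ) * c i * c i ^ (-(1 / 2) : ℝ) = 1 := by
      nth_rewrite 2 [← Real.rpow_one (c i)]
      rw [← Real.rpow_add (hc i), ← Real.rpow_add (hc i)]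
      norm_num
    rw [h1, Complex.ofReal_one]
  have hSYS : (S * Y * S).IsHermitian := by
    unfold IsHermitian
    rw [conjTranspose_mul, conjTranspose_mul, hSh, hY, mul_assoc]
  obtain ⟨V, w, hV⟩ := exists_cj hSYS
  refine ⟨S * (V : Mat n), w, ?_, ?_⟩
  · rw [conjTranspose_mul, hSh, ← star_eq_conjTranspose]
    calc _ = Star.star (V : Mat n) * (S * cj U (fun i => (c i : ℂ)) * S) * (V : Mat n) := by
          simp only [mul_assoc]
      _ = 1 := by rw [hSS, mul_one, unitary_star_mul]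
  · rw [conjTranspose_mul, hSh, ← star_eq_conjTranspose]
    calc _ = Star.star (V : Mat n) * (S * Y * S) * (V : Mat n) := by
          simp only [mul_assoc]
      _ = (Star.star (V : Mat n) * (V : Mat n)) * diagonal (fun i => (w i : ℂ)) *
          (Star.star (V : Mat n) * (V : Mat n)) := by
          rw [hV]; unfold cj; simp only [mul_assoc]
      _ = _ := by rw [unitary_star_mul, one_mul, mul_one]

end Pool.Agent.Lib_helper41.PM
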