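import Mathlib

/-!
# Definitions: Schatten norms, powers and power means of positive definite matrices
-/

open Matrix
open scoped ENNReal ComplexOrder

namespace Pool.Agent.Lib_helper41.PM

/-- Complex `n × n` matrices. -/
abbrev Mat (n : ℕ) : Type := Matrix (Fin n) (Fin n) ℂ

/-- The singular values of `A`: square roots of the eigenvalues of `Aᴴ A`. -/
noncomputable def sv {n : ℕ} (A : Mat n) (i : Fin n) : ℝ :=
  √((isHermitian_conjTranspose_mul_self A).eigenvalues i)

/-- The Schatten `q`-norm: the `ℓ_q` norm of the vector of singular values. -/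
noncomputable def schatten {n : ℕ} (q : ℝ≥0∞) (A : Mat n) : ℝ := ‖WithLp.toLp q (sv A)‖

/-- The power `X ^ s` of a Hermitian matrix by functional calculus. -/
noncomputable def mpow {n : ℕ} (X : Mat n) (s : ℝ) : Mat n := cfc (fun x : ℝ => x ^ s) X

/-- The weighted power mean `(t X^p + (1-t) Y^p)^(1/p)`. -/
noncomputable def mean {n : ℕ} (p t : ℝ) (X Y : Mat n) : Mat n :=
  mpow (t • mpow X p + (1 - t) • mpow Y p) (1 / p)

/-- The power mean with exponent `p` is monotonic with respect to the Schatten metric `δ_q`. -/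
def Monotonic (p : ℝ) (q : ℝ≥0∞) : Prop :=
  ∀ (n : ℕ) (X Y : Mat n), X.PosDef → Y.PosDef →
    MonotoneOn (fun t : ℝ => schatten q (mean p t X Y - Y)) (Set.Icc 0 1)

end Pool.Agent.Lib_helper41.PM
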