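import Pool.Agent.Lib_helper41.PM.Schatten

/-!
# Power means: definitions and the case `p = 1/2`
-/

open Matrix
open scoped ENNReal BigOperators ComplexOrder

namespace Pool.Agent.Lib_helper41.PM
variable {n : ℕ} {q : ℝ≥0∞}

/-- `U diag(c) U*` for complex `c` -/
noncomputable def cj (U : unitaryGroup (Fin n) ℂ) (c : Fin n → ℂ) : Mat n :=
  (U : Mat n) * diagonal c * star (U : Mat n)

lemma cj_mul (U : unitaryGroup (Fin n) ℂ) (c d : Fin n → ℂ) :
    cj U c * cj U d = cj U (c * d) := by
  unfold cj
  calc _ = (U : Mat n) * diagonal c * (star (U : Mat n) * (U : Mat n)) * diagonal d *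
        star (U : Mat n) := by simp only [mul_assoc]
    _ = _ := by
      rw [unitary_star_mul, mul_one, mul_assoc (U : Mat n), diagonal_mul_diagonal]
      rfl

lemma cj_add (U : unitaryGroup (Fin n) ℂ) (c d : Fin n → ℂ) :
    cj U c + cj U d = cj U (c + d) := by
  unfold cj
  rw [← add_mul, ← mul_add, diagonal_add]
  rfl

lemma cj_one (U : unitaryGroup (Fin n) ℂ) : cj U 1 = 1 := by
  unfold cj
  have : diagonal (1 : Fin n → ℂ) = (1 : Mat n) := diagonal_one
  rw [this, mul_one, unitary_mul_star]

lemma cj_smul (U : unitaryGroup (Fin n) ℂ) (a : ℝ) (c : Fin n → ℂ) :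
    a • cj U c = cj U (a • c) := by
  unfold cj
  rw [← smul_mul_assoc, ← mul_smul_comm]
  congr 2
  ext i j
  by_cases hij : i = j
  · subst hij; simp
  · simp [hij]

lemma cj_isHermitian (U : unitaryGroup (Fin n) ℂ) (c : Fin n → ℝ) :
    (cj U (fun i => (c i : ℂ))).IsHermitian := by
  unfold cj IsHermitian
  rw [conjTranspose_mul, conjTranspose_mul, diagonal_conjTranspose]
  rw [← star_eq_conjTranspose, ← star_eq_conjTranspose, star_star, mul_assoc]
  congr 2
  congr 1
  ext i
  simp

lemma cj_aeval (U : unitaryGroup (Fin n) ℂ) (c : Fin n → ℝ) (P : Polynomial ℝ) :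
    Polynomial.aeval (cj U (fun i => (c i : ℂ))) P = cj U (fun i => ((P.eval (c i) : ℝ) : ℂ)) := by
  induction P using Polynomial.induction_on' with
  | add p r hp hr =>
    rw [map_add, hp, hr, cj_add]
    congr 1
    ext i
    simp
  | monomial k a =>
    rw [Polynomial.aeval_monomial]
    have hpow : ∀ k : ℕ, cj U (fun i => (c i : ℂ)) ^ k = cj U (fun i => ((c i ^ k : ℝ) : ℂ)) := by
      intro k
      induction k with
      | zero =>
        rw [pow_zero, ← cj_one U]
        simp only [pow_zero, Complex.ofReal_one]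
        rfl
      | succ k ih =>
        rw [pow_succ, ih, cj_mul]
        congr 1
        ext i
        simp [pow_succ]
    rw [hpow, Algebra.algebraMap_eq_smul_one, smul_mul_assoc, one_mul, cj_smul]
    congr 1
    ext i
    simp

lemma spectrum_cj (U : unitaryGroup (Fin n) ℂ) (c : Fin n → ℝ) {x : ℝ}
    (hx : x ∈ spectrum ℝ (cj U (fun i => (c i : ℂ)))) : ∃ i, x = c i := by
  by_contra hcon
  push Not at hcon
  apply hx
  rw [spectrum.mem_resolventSet_iff]
  have h1 : algebraMap ℝ (Mat n) x - cj U (fun i => (c i : ℂ)) =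
      cj U (fun i => ((x - c i : ℝ) : ℂ)) := by
    rw [Algebra.algebraMap_eq_smul_one, ← cj_one U, cj_smul, sub_eq_iff_eq_add, cj_add]
    congr 1
    ext i
    simp
  rw [h1]
  refine ⟨⟨cj U (fun i => ((x - c i : ℝ) : ℂ)), cj U (fun i => (((x - c i)⁻¹ : ℝ) : ℂ)), ?_, ?_⟩,
    rfl⟩
  · rw [cj_mul, ← cj_one U]
    congr 1
    ext i
    have : x - c i ≠ 0 := sub_ne_zero.mpr (hcon i)
    simp only [Pi.mul_apply, Pi.one_apply, ← Complex.ofReal_mul, mul_inv_cancel₀ this,
      Complex.ofReal_one]
  · rw [cj_mul, ← cj_one U]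
    congr 1
    ext i
    have : x - c i ≠ 0 := sub_ne_zero.mpr (hcon i)
    simp only [Pi.mul_apply, Pi.one_apply, ← Complex.ofReal_mul, inv_mul_cancel₀ this,
      Complex.ofReal_one]

/-- functional calculus in diagonal form -/
lemma cfc_cj (U : unitaryGroup (Fin n) ℂ) (c : Fin n → ℝ) (f : ℝ → ℝ) :
    cfc f (cj U (fun i => (c i : ℂ))) = cj U (fun i => (f (c i) : ℂ)) := by
  classical
  let s : Finset ℝ := Finset.univ.image c
  let P : Polynomial ℝ := Lagrange.interpolate s id f
  have hP : ∀ i, P.eval (c i) = f (c i) := fun i =>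
    Lagrange.eval_interpolate_at_node (v := id) f (Set.injOn_id _)
      (Finset.mem_image_of_mem c (Finset.mem_univ i))
  have h1 : cfc f (cj U (fun i => (c i : ℂ))) = cfc P.eval (cj U (fun i => (c i : ℂ))) := by
    apply cfc_congr
    intro x hx
    obtain ⟨i, rfl⟩ := spectrum_cj U c hx
    exact (hP i).symm
  have hsa : IsSelfAdjoint (cj U (fun i => (c i : ℂ))) := (cj_isHermitian U c).isSelfAdjoint
  rw [h1, cfc_polynomial P _ hsa, cj_aeval]
  simp only [hP]

lemma mpow_cj (U : unitaryGroup (Fin n) ℂ) (c : Fin n → ℝ) (s : ℝ) :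
    mpow (cj U (fun i => (c i : ℂ))) s = cj U (fun i => ((c i ^ s : ℝ) : ℂ)) :=
  cfc_cj U c _

lemma exists_cj {C : Mat n} (hC : C.IsHermitian) : ∃ (U : unitaryGroup (Fin n) ℂ)
    (c : Fin n → ℝ), C = cj U (fun i => (c i : ℂ)) := exists_diag hC

lemma posDef_cj_pos (U : unitaryGroup (Fin n) ℂ) (c : Fin n → ℝ)
    (h : (cj U (fun i => (c i : ℂ))).PosDef) (i : Fin n) : 0 < c i := by
  have h1 : (U : Mat n)ᴴ * cj U (fun i => (c i : ℂ)) * (U : Mat n) =
      diagonal (fun i => (c i : ℂ)) := by
    unfold cj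
    rw [← star_eq_conjTranspose]
    calc _ = (star (U : Mat n) * (U : Mat n)) * diagonal (fun i => (c i : ℂ)) *
          (star (U : Mat n) * (U : Mat n)) := by simp only [mul_assoc]
      _ = _ := by rw [unitary_star_mul, one_mul, mul_one]
  have h2 := h.conjTranspose_mul_mul_same (B := (U : Mat n)) (by
    intro x y hxy
    have := congrArg (fun v => (star (U : Mat n)) *ᵥ v) hxy
    simpa [Matrix.mulVec_mulVec, unitary_star_mul] using this)
  rw [h1, posDef_diagonal_iff] at h2
  exact_mod_cast h2 i

/-- conjugation by a unitary -/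
lemma dg_nonneg (U : unitaryGroup (Fin n) ℂ) {C : Mat n} (hC : C.PosSemidef) (i : Fin n) :
    0 ≤ dg U C i := by
  have h := hC.conjTranspose_mul_mul_same (U : Mat n)
  rw [← star_eq_conjTranspose] at h
  exact (Complex.le_def.mp (h.diag_nonneg (i := i))).1

/-- pinching lemma for squares -/
lemma pinch_sq (hq : 1 ≤ q) {A B : Mat n} (hA : A.PosSemidef) (hB : B.PosSemidef) :
    schatten q ((A - B) * (A - B)) ≤ schatten q (A * A - B * B) := by
  obtain ⟨U, h, hU⟩ := exists_cj (hA.1.sub hB.1)
  have hd : star (U : Mat n) * (A - B) * (U : Mat n) = diagonal (fun i => (h i : ℂ)) := by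
    rw [hU]
    unfold cj
    calc _ = (star (U : Mat n) * (U : Mat n)) * diagonal (fun i => (h i : ℂ)) *
          (star (U : Mat n) * (U : Mat n)) := by simp only [mul_assoc]
      _ = _ := by rw [unitary_star_mul, one_mul, mul_one]
  have h1 : (A - B) * (A - B) = cj U (fun i => ((h i ^ 2 : ℝ) : ℂ)) := by
    rw [hU, cj_mul]
    congr 1
    ext i
    simp [pow_two]
  have h2 : schatten q ((A - B) * (A - B)) = nq q (fun i => h i ^ 2) := by
    rw [h1]
    exact schatten_conj hq U _
  have h3 : star (U : Mat n) * (A * A - B * B) * (U : Mat n) =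
      (star (U : Mat n) * A * (U : Mat n)) * diagonal (fun i => (h i : ℂ)) +
        diagonal (fun i => (h i : ℂ)) * (star (U : Mat n) * B * (U : Mat n)) := by
    rw [← hd]
    have e1 : star (U : Mat n) * A * (U : Mat n) * (star (U : Mat n) * (A - B) * (U : Mat n)) =
        star (U : Mat n) * (A * (A - B)) * (U : Mat n) := by
      calc _ = star (U : Mat n) * A * ((U : Mat n) * star (U : Mat n)) * (A - B) * (U : Mat n) := by
            simp only [mul_assoc]
        _ = _ := by rw [unitary_mul_star, mul_one]; simp only [mul_assoc]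
    have e2 : star (U : Mat n) * (A - B) * (U : Mat n) * (star (U : Mat n) * B * (U : Mat n)) =
        star (U : Mat n) * ((A - B) * B) * (U : Mat n) := by
      calc _ = star (U : Mat n) * (A - B) * ((U : Mat n) * star (U : Mat n)) * B * (U : Mat n) := by
            simp only [mul_assoc]
        _ = _ := by rw [unitary_mul_star, mul_one]; simp only [mul_assoc]
    rw [e1, e2, ← add_mul, ← mul_add]
    congr 2
    noncomm_ring
  have h4 : ∀ i, dg U A i - dg U B i = h i := by
    intro i
    have := congrFun (dg_sub U A B) i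
    rw [Pi.sub_apply] at this
    rw [← this]
    unfold dg
    rw [hd]
    simp
  have h5 : ∀ i, dg U (A * A - B * B) i = h i * (dg U A i + dg U B i) := by
    intro i
    unfold dg
    rw [h3]
    simp only [Matrix.add_apply, mul_diagonal, diagonal_mul, Complex.add_re, Complex.re_mul_ofReal,
      Complex.re_ofReal_mul]
    ring
  rw [h2]
  refine le_trans (nq_mono hq fun i => ?_) (nq_dg_le hq U (C := A * A - B * B) ?_)
  · rw [h5]
    have a0 := dg_nonneg U hA i
    have b0 := dg_nonneg U hB i
    have e := h4 i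
    rw [abs_mul, abs_of_nonneg (sq_nonneg (h i)), abs_of_nonneg (add_nonneg a0 b0), ← sq_abs,
      pow_two]
    apply mul_le_mul_of_nonneg_left _ (abs_nonneg _)
    rw [abs_le]
    constructor <;> linarith
  · have hAA : (A * A).IsHermitian := by
      unfold IsHermitian; rw [conjTranspose_mul, hA.1]
    have hBB : (B * B).IsHermitian := by
      unfold IsHermitian; rw [conjTranspose_mul, hB.1]
    exact hAA.sub hBB

lemma posSemidef_cj (U : unitaryGroup (Fin n) ℂ) (c : Fin n → ℝ) (hc : ∀ i, 0 ≤ c i) :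
    (cj U (fun i => (c i : ℂ))).PosSemidef := by
  unfold cj
  rw [star_eq_conjTranspose]
  apply PosSemidef.mul_mul_conjTranspose_same
  apply PosSemidef.diagonal
  intro i
  show (0 : ℂ) ≤ (c i : ℂ)
  exact_mod_cast hc i

lemma mpow_two {M : Mat n} (hM : M.IsHermitian) : mpow M (1 / (1 / 2)) = M * M := by
  obtain ⟨U, c, rfl⟩ := exists_cj hM
  rw [mpow_cj, cj_mul]
  congr 1
  ext i
  rw [show (1 / (1 / 2) : ℝ) = (2 : ℕ) by norm_num, Real.rpow_natCast]
  simp [pow_two]

lemma mpow_half_posSemidef {X : Mat n} (hX : X.PosDef) : (mpow X (1 / 2)).PosSemidef := by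
  obtain ⟨U, c, rfl⟩ := exists_cj hX.1
  rw [mpow_cj]
  exact posSemidef_cj U _ fun i => Real.rpow_nonneg (posDef_cj_pos U c hX i).le _

lemma mpow_half_sq {X : Mat n} (hX : X.PosDef) : mpow X (1 / 2) * mpow X (1 / 2) = X := by
  obtain ⟨U, c, rfl⟩ := exists_cj hX.1
  rw [mpow_cj, cj_mul]
  congr 1
  ext i
  have h := posDef_cj_pos U c hX i
  simp only [Pi.mul_apply]
  rw [← Complex.ofReal_mul, ← Real.rpow_add h]
  norm_num

lemma isHermitian_mul_self {M : Mat n} (hM : M.IsHermitian) : (M * M).IsHermitian := by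
  unfold IsHermitian; rw [conjTranspose_mul, hM]

/-- The case `p = 1/2`: in-betweenness for all Schatten norms. -/
theorem half_step (hq : 1 ≤ q) {A B : Mat n} (hA : A.PosSemidef) (hB : B.PosSemidef)
    {s t : ℝ} (hs : 0 ≤ s) (hst : s ≤ t) (ht : t ≤ 1) :
    schatten q ((s • A + (1 - s) • B) * (s • A + (1 - s) • B) - B * B) ≤
      schatten q ((t • A + (1 - t) • B) * (t • A + (1 - t) • B) - B * B) := by
  rcases hs.eq_or_lt with rfl | hs0
  · have : ((0 : ℝ) • A + (1 - (0 : ℝ)) • B) * ((0 : ℝ) • A + (1 - (0 : ℝ)) • B) - B * B = 0 := by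
      simp
    rw [this]
    have h0 : schatten q (0 : Mat n) = 0 := by
      have := schatten_smul (n := n) (q := q) hq isHermitian_zero 0
      rwa [zero_smul, abs_zero, zero_mul] at this
    rw [h0]
    exact schatten_nonneg hq _
  have ht0 : 0 < t := lt_of_lt_of_le hs0 hst
  set M : Mat n := t • A + (1 - t) • B with hM
  have hMp : M.PosSemidef := (hA.smul ht0.le).add (hB.smul (by linarith))
  set D : Mat n := M * M - B * B with hD
  set H : Mat n := A - B with hH
  have hHh : H.IsHermitian := hA.1.sub hB.1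
  have hDh : D.IsHermitian := (isHermitian_mul_self hMp.1).sub (isHermitian_mul_self hB.1)
  have hMB : M - B = t • H := by
    rw [hM, hH]
    module
  -- the pinching estimate
  have h1 : schatten q (H * H) ≤ schatten q D / t ^ 2 := by
    have h2 := pinch_sq hq hMp hB
    rw [hMB, smul_mul_smul_comm, schatten_smul hq (isHermitian_mul_self hHh),
      abs_of_nonneg (mul_nonneg ht0.le ht0.le), ← pow_two] at h2
    rw [le_div_iff₀ (by positivity), mul_comm]
    exact h2
  have h3 : (s • A + (1 - s) • B) * (s • A + (1 - s) • B) - B * B =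
      (s / t) • D - (s * (t - s)) • (H * H) := by
    have e1 : s • A + (1 - s) • B = B + s • H := by rw [hH]; module
    have e2 : M = B + t • H := by rw [hM, hH]; module
    rw [hD, e1, e2]
    have hst' : s / t * t = s := div_mul_cancel₀ s ht0.ne'
    have e3 : ∀ r : ℝ, (B + r • H) * (B + r • H) - B * B = r • (B * H + H * B + r • (H * H)) := by
      intro r
      rw [add_mul, mul_add, mul_add, smul_mul_smul_comm, smul_mul_assoc, mul_smul_comm]
      module
    rw [e3, e3, smul_smul (s / t) t, hst']
    module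
  rw [h3]
  refine (schatten_sub_le hq (isHermitian_smul hDh _) (isHermitian_smul (isHermitian_mul_self hHh) _)).trans ?_
  rw [schatten_smul hq hDh, schatten_smul hq (isHermitian_mul_self hHh),
    abs_of_nonneg (by positivity), abs_of_nonneg (mul_nonneg hs0.le (by linarith))]
  have hS := schatten_nonneg hq D
  have h4 : s / t * schatten q D + s * (t - s) * schatten q (H * H) ≤
      s / t * schatten q D + s * (t - s) * (schatten q D / t ^ 2) := by
    have : 0 ≤ s * (t - s) := mul_nonneg hs0.le (by linarith)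
    nlinarith [mul_le_mul_of_nonneg_left h1 this]
  refine h4.trans ?_
  have h5 : s / t * schatten q D + s * (t - s) * (schatten q D / t ^ 2) =
      (1 - (1 - s / t) ^ 2) * schatten q D := by
    field_simp
    ring
  rw [h5]
  have := mul_nonneg (sq_nonneg (1 - s / t)) hS
  linarith

end Pool.Agent.Lib_helper41.PM
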