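import Pool.Agent.Lib_helper41.PM.Lem

/-!
# Integral representations and the two norm inequalities
-/

open Matrix MeasureTheory
open scoped ENNReal BigOperators ComplexOrder

namespace Pool.Agent.Lib_helper41.PM
variable {n : ℕ} {q : ℝ≥0∞}

lemma dg_cj_sum (U V : unitaryGroup (Fin n) ℂ) (k : Fin n → ℝ) (i : Fin n) :
    dg U (cj V (fun j => (k j : ℂ))) i =
      ∑ j, Complex.normSq ((star (U : Mat n) * (V : Mat n)) i j) * k j := by
  have := dg_RkR U (V : Mat n) k i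
  rw [← star_eq_conjTranspose] at this
  exact this

lemma dg_integral {μ : Measure ℝ} {F : ℝ → ℝ → ℝ} {f : ℝ → ℝ}
    (hF : ∀ x ∈ Set.Ici (0 : ℝ), IntegrableOn (fun t => F t x) (Set.Ioi 0) μ ∧
      f x = ∫ t in Set.Ioi 0, F t x ∂μ) (U V : unitaryGroup (Fin n) ℂ) {a : Fin n → ℝ}
    (ha : ∀ i, 0 ≤ a i) (i : Fin n) :
    IntegrableOn (fun t => dg U (cj V (fun k => (F t (a k) : ℂ))) i) (Set.Ioi 0) μ ∧
    dg U (cj V (fun k => (f (a k) : ℂ))) i =
      ∫ t in Set.Ioi 0, dg U (cj V (fun k => (F t (a k) : ℂ))) i ∂μ := by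
  simp only [dg_cj_sum]
  constructor
  · apply integrable_finset_sum
    intro j _
    exact ((hF (a j) (ha j)).1).const_mul _
  · rw [integral_finset_sum]
    · refine Finset.sum_congr rfl fun j _ => ?_
      rw [integral_const_mul, ← (hF (a j) (ha j)).2]
    · intro j _
      exact ((hF (a j) (ha j)).1).const_mul _

/-- norming functional -/
lemma exists_dual (hq : 1 ≤ q) (c : Fin n → ℝ) : ∃ w : Fin n → ℝ, (∀ i, 0 ≤ w i) ∧
    (∀ x : Fin n → ℝ, ∑ i, w i * |x i| ≤ nq q x) ∧ nq q c ≤ ∑ i, w i * |c i| := by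
  classical
  have : Fact (1 ≤ q) := ⟨hq⟩
  obtain ⟨g, hg1, hg2⟩ := exists_dual_vector'' ℝ (WithLp.toLp q c : PiLp q (fun _ : Fin n => ℝ))
  have hgs : ∀ x : Fin n → ℝ, g (WithLp.toLp q x) = ∑ i, g (WithLp.toLp q (Pi.single i 1)) * x i := by
    intro x
    have h1 : (WithLp.toLp q x : PiLp q (fun _ : Fin n => ℝ)) =
        ∑ i, x i • (WithLp.toLp q (Pi.single i 1) : PiLp q (fun _ : Fin n => ℝ)) := by
      have h2 : x = ∑ i, (x i) • (Pi.single i 1 : Fin n → ℝ) := by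
        ext j
        simp [Finset.sum_apply, Pi.single_apply]
      conv_lhs => rw [h2]
      rw [WithLp.toLp_sum]
      simp only [WithLp.toLp_smul]
    rw [h1, map_sum]
    refine Finset.sum_congr rfl fun i _ => ?_
    rw [map_smul, smul_eq_mul, mul_comm]
  have hle : ∀ x : Fin n → ℝ, g (WithLp.toLp q x) ≤ nq q x := by
    intro x
    have h1 := g.le_opNorm (WithLp.toLp q x)
    have h2 : ‖g‖ * ‖WithLp.toLp q x‖ ≤ 1 * ‖WithLp.toLp q x‖ :=
      mul_le_mul_of_nonneg_right hg1 (norm_nonneg _)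
    rw [one_mul] at h2
    exact (le_abs_self _).trans (h1.trans h2)
  set v : Fin n → ℝ := fun i => g (WithLp.toLp q (Pi.single i 1)) with hv
  refine ⟨fun i => |v i|, fun i => abs_nonneg _, ?_, ?_⟩
  · intro x
    set y : Fin n → ℝ := fun i => if 0 ≤ v i then |x i| else -|x i| with hy
    have h1 : nq q y = nq q x := by
      apply nq_abs hq
      intro i
      simp only [hy]
      split_ifs <;> simp
    rw [← h1]
    refine le_trans (le_of_eq ?_) (hle y)
    rw [hgs]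
    refine Finset.sum_congr rfl fun i _ => ?_
    simp only [hy]
    split_ifs with h
    · rw [abs_of_nonneg h]
    · rw [abs_of_neg (not_le.mp h)]
      ring
  · have h1 : nq q c = g (WithLp.toLp q c) := hg2.symm
    rw [h1, hgs]
    refine Finset.sum_le_sum fun i _ => ?_
    calc v i * c i ≤ |v i * c i| := le_abs_self _
      _ = |v i| * |c i| := abs_mul _ _

lemma dual_perm (hq : 1 ≤ q) {w : Fin n → ℝ} (hw : ∀ x : Fin n → ℝ, ∑ i, w i * |x i| ≤ nq q x)
    (π : Equiv.Perm (Fin n)) (x : Fin n → ℝ) : ∑ i, w (π i) * |x i| ≤ nq q x := by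
  have h1 := hw (x ∘ π.symm)
  rw [nq_perm hq] at h1
  refine le_trans (le_of_eq ?_) h1
  rw [← Equiv.sum_comp π (fun i => w i * |(x ∘ π.symm) i|)]
  simp

lemma schatten_cj (hq : 1 ≤ q) (U : unitaryGroup (Fin n) ℂ) (c : Fin n → ℝ) :
    schatten q (cj U (fun i => (c i : ℂ))) = nq q c := schatten_conj hq U c

lemma int12 {r t x : ℝ} (ht : 0 < t) (hx : 0 ≤ x) :
    Real.rpowIntegrand₁₂ r t x = t ^ (r - 1) * kap (x / t) := by
  unfold Real.rpowIntegrand₁₂ kap
  congr 1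
  have : t + x ≠ 0 := by positivity
  field_simp
  ring

lemma int01 {s t x : ℝ} (ht : 0 < t) (hx : 0 ≤ x) :
    Real.rpowIntegrand₀₁ s t x = t ^ (s - 1) * hh (x / t) := by
  unfold Real.rpowIntegrand₀₁ hh
  have h1 : t ^ s = t ^ (s - 1) * t := by rw [← Real.rpow_add_one ht.ne', sub_add_cancel]
  rw [h1, mul_assoc]
  congr 1
  have : t + x ≠ 0 := by positivity
  field_simp
  ring

lemma cj_sub_posSemidef_one {U : unitaryGroup (Fin n) ℂ} {a : Fin n → ℝ} (ha : ∀ i, 0 ≤ a i) :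
    (1 + cj U (fun i => (a i : ℂ)) - 1).PosSemidef := by
  rw [add_sub_cancel_left]
  exact posSemidef_cj U a ha

lemma cj_inv {U : unitaryGroup (Fin n) ℂ} {a : Fin n → ℝ} (ha : ∀ i, 0 ≤ a i) :
    (1 + cj U (fun i => (a i : ℂ))) * cj U (fun i => (((1 + a i)⁻¹ : ℝ) : ℂ)) = 1 := by
  rw [← cj_one U, cj_add, cj_mul]
  congr 1
  ext i
  simp only [Pi.mul_apply, Pi.add_apply, Pi.one_apply]
  have : 1 + a i ≠ 0 := by linarith [ha i]
  rw [← Complex.ofReal_one, ← Complex.ofReal_add, ← Complex.ofReal_mul, mul_inv_cancel₀ this]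

lemma monovary_comp {w x : Fin n → ℝ} (h : Monovary w x) {f : ℝ → ℝ}
    (hf : ∀ i j, x i ≤ x j → f (x i) ≤ f (x j)) : Monovary w (fun i => f (x i)) := by
  intro i j hij
  apply h
  by_contra hcon
  push Not at hcon
  have := hf j i hcon
  simp only at hij
  linarith

lemma smul_cj_real (U : unitaryGroup (Fin n) ℂ) (a : ℝ) (c : Fin n → ℝ) :
    a • cj U (fun i => (c i : ℂ)) = cj U (fun i => ((a * c i : ℝ) : ℂ)) := by
  rw [cj_smul]
  congr 1
  ext i
  simp

lemma add_cj_real (U : unitaryGroup (Fin n) ℂ) (a c : Fin n → ℝ) :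
    cj U (fun i => (a i : ℂ)) + cj U (fun i => (c i : ℂ)) =
      cj U (fun i => ((a i + c i : ℝ) : ℂ)) := by
  rw [cj_add]
  congr 1
  ext i
  simp

lemma one_cj_real (U : unitaryGroup (Fin n) ℂ) : (1 : Mat n) = cj U (fun _ => ((1 : ℝ) : ℂ)) := by
  have h : (fun _ => ((1 : ℝ) : ℂ)) = (1 : Fin n → ℂ) := by
    ext i; simp
  rw [h, cj_one]

/-- the function `Φ_t(A)` in terms of the resolvent -/
lemma phi_cj {r t : ℝ} (ht : 0 < t) (U : unitaryGroup (Fin n) ℂ) {a : Fin n → ℝ}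
    (ha : ∀ i, 0 ≤ a i) :
    cj U (fun k => (Real.rpowIntegrand₁₂ r t (a k) : ℂ)) =
      t ^ (r - 1) • (t⁻¹ • cj U (fun i => (a i : ℂ)) - 1 +
        cj U (fun i => (((1 + t⁻¹ * a i)⁻¹ : ℝ) : ℂ))) := by
  have h1 : (t⁻¹ • cj U (fun i => (a i : ℂ)) - 1 + cj U (fun i => (((1 + t⁻¹ * a i)⁻¹ : ℝ) : ℂ)) :
      Mat n) = cj U (fun i => ((kap (a i / t) : ℝ) : ℂ)) := by
    have h2 : (1 : Mat n) + cj U (fun i => ((kap (a i / t) : ℝ) : ℂ)) =
        t⁻¹ • cj U (fun i => (a i : ℂ)) + cj U (fun i => (((1 + t⁻¹ * a i)⁻¹ : ℝ) : ℂ)) := by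
      rw [smul_cj_real, add_cj_real, one_cj_real U, add_cj_real]
      congr 1
      ext i
      congr 1
      unfold kap
      have h3 := ha i
      have : 1 + a i / t ≠ 0 := by positivity
      have : 1 + t⁻¹ * a i ≠ 0 := by positivity
      have : t + a i ≠ 0 := by positivity
      field_simp
      ring
    rw [sub_add_eq_add_sub, sub_eq_iff_eq_add, add_comm _ (1 : Mat n), h2]
  rw [h1, smul_cj_real]
  congr 1
  ext i
  rw [int12 ht (ha i)]

theorem J_bound (hq : 1 ≤ q) {r : ℝ} (hr : r ∈ Set.Ioo (1 : ℝ) 2) {A B : Mat n} (hA : A.PosDef)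
    (hB : B.PosDef) {l : ℝ} (hl0 : 0 ≤ l) (hl1 : l ≤ 1) {V : unitaryGroup (Fin n) ℂ}
    {e : Fin n → ℝ} (hV : A - B = cj V (fun i => (e i : ℂ))) :
    schatten q (l • mpow A r + (1 - l) • mpow B r - mpow (l • A + (1 - l) • B) r) ≤
      (l * (1 - l) ^ r + (1 - l) * l ^ r) * nq q (fun i => |e i| ^ r) := by
  obtain ⟨μ, hμ⟩ := Real.exists_measure_rpow_eq_integral_rpowIntegrand₁₂ hr
  have hl1' : 0 ≤ 1 - l := by linarith
  obtain ⟨UA, a, hUA⟩ := exists_cj hA.1
  obtain ⟨UB, b, hUB⟩ := exists_cj hB.1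
  have hMp : (l • A + (1 - l) • B).PosDef := by
    rcases hl0.eq_or_lt with h0 | h0
    · rw [← h0]; simpa using hB
    · exact (hA.smul h0).add_posSemidef (hB.posSemidef.smul hl1')
  obtain ⟨UM, m, hUM⟩ := exists_cj hMp.1
  have ha : ∀ i, 0 ≤ a i := fun i => (posDef_cj_pos UA a (hUA ▸ hA) i).le
  have hb : ∀ i, 0 ≤ b i := fun i => (posDef_cj_pos UB b (hUB ▸ hB) i).le
  have hm : ∀ i, 0 ≤ m i := fun i => (posDef_cj_pos UM m (hUM ▸ hMp) i).le
  rw [hUM, mpow_cj]
  nth_rewrite 1 [hUA]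
  nth_rewrite 1 [hUB]
  rw [mpow_cj, mpow_cj]
  set J : Mat n := l • cj UA (fun i => ((a i ^ r : ℝ) : ℂ)) +
    (1 - l) • cj UB (fun i => ((b i ^ r : ℝ) : ℂ)) - cj UM (fun i => ((m i ^ r : ℝ) : ℂ)) with hJ
  have hJh : J.IsHermitian := ((isHermitian_smul (cj_isHermitian _ _) _).add
    (isHermitian_smul (cj_isHermitian _ _) _)).sub (cj_isHermitian _ _)
  obtain ⟨U, c, hU⟩ := exists_cj hJh
  rw [hU, schatten_cj hq]
  obtain ⟨w, hw0, hw1, hw2⟩ := exists_dual hq c
  obtain ⟨π, hπ⟩ := exists_monovary w (fun i => |e i|)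
  -- the integrand
  set Φ : ℝ → ℝ → ℝ := fun t x => Real.rpowIntegrand₁₂ r t x with hΦ
  set Jt : ℝ → Mat n := fun t => l • cj UA (fun k => (Φ t (a k) : ℂ)) +
    (1 - l) • cj UB (fun k => (Φ t (b k) : ℂ)) - cj UM (fun k => (Φ t (m k) : ℂ)) with hJt
  have hdgJt : ∀ t i, dg U (Jt t) i = l * dg U (cj UA (fun k => (Φ t (a k) : ℂ))) i +
      (1 - l) * dg U (cj UB (fun k => (Φ t (b k) : ℂ))) i -
      dg U (cj UM (fun k => (Φ t (m k) : ℂ))) i := by
    intro t i
    simp only [hJt]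
    rw [dg_sub, dg_add, dg_smul, dg_smul]
    rfl
  have IA := fun i => dg_integral hμ U UA ha i
  have IB := fun i => dg_integral hμ U UB hb i
  have IM := fun i => dg_integral hμ U UM hm i
  have hint : ∀ i, IntegrableOn (fun t => dg U (Jt t) i) (Set.Ioi 0) μ := by
    intro i
    simp only [hdgJt]
    exact (((IA i).1.const_mul _).add ((IB i).1.const_mul _)).sub (IM i).1
  have hcint : ∀ i, c i = ∫ t in Set.Ioi 0, dg U (Jt t) i ∂μ := by
    intro i
    have h1 : c i = dg U J i := by rw [hU, dg_cj]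
    rw [h1]
    have s1 : ∫ t in Set.Ioi 0, dg U (Jt t) i ∂μ =
        ∫ t in Set.Ioi 0, (l * dg U (cj UA (fun k => (Φ t (a k) : ℂ))) i +
          (1 - l) * dg U (cj UB (fun k => (Φ t (b k) : ℂ))) i) ∂μ -
        ∫ t in Set.Ioi 0, dg U (cj UM (fun k => (Φ t (m k) : ℂ))) i ∂μ := by
      simp only [hdgJt]
      exact integral_sub (((IA i).1.const_mul _).add ((IB i).1.const_mul _)) (IM i).1
    have s2 : ∫ t in Set.Ioi 0, (l * dg U (cj UA (fun k => (Φ t (a k) : ℂ))) i +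
          (1 - l) * dg U (cj UB (fun k => (Φ t (b k) : ℂ))) i) ∂μ =
        l * ∫ t in Set.Ioi 0, dg U (cj UA (fun k => (Φ t (a k) : ℂ))) i ∂μ +
        (1 - l) * ∫ t in Set.Ioi 0, dg U (cj UB (fun k => (Φ t (b k) : ℂ))) i ∂μ := by
      rw [← integral_const_mul, ← integral_const_mul]
      exact integral_add ((IA i).1.const_mul _) ((IB i).1.const_mul _)
    rw [s1, s2, ← (IA i).2, ← (IB i).2, ← (IM i).2, hJ,
      dg_sub, dg_add, dg_smul, dg_smul]
    rfl
  -- pointwise estimate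
  have hpt : ∀ t ∈ Set.Ioi (0 : ℝ), (∀ i, 0 ≤ dg U (Jt t) i) ∧
      ∑ i, w i * dg U (Jt t) i ≤
        ∑ i, w (π i) * (l * Φ t ((1 - l) * |e i|) + (1 - l) * Φ t (l * |e i|)) := by
    intro t ht
    have ht0 : (0 : ℝ) < t := ht
    have hti : (0 : ℝ) < t⁻¹ := inv_pos.mpr ht0
    have ha' : ∀ i, 0 ≤ t⁻¹ * a i := fun i => mul_nonneg hti.le (ha i)
    have hb' : ∀ i, 0 ≤ t⁻¹ * b i := fun i => mul_nonneg hti.le (hb i)
    have hm' : ∀ i, 0 ≤ t⁻¹ * m i := fun i => mul_nonneg hti.le (hm i)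
    set X : Mat n := 1 + cj UM (fun i => ((t⁻¹ * m i : ℝ) : ℂ)) with hX
    set YA : Mat n := 1 + cj UA (fun i => ((t⁻¹ * a i : ℝ) : ℂ)) with hYA
    set YB : Mat n := 1 + cj UB (fun i => ((t⁻¹ * b i : ℝ) : ℂ)) with hYB
    set Xi : Mat n := cj UM (fun i => (((1 + t⁻¹ * m i)⁻¹ : ℝ) : ℂ)) with hXi
    set YAi : Mat n := cj UA (fun i => (((1 + t⁻¹ * a i)⁻¹ : ℝ) : ℂ)) with hYAi
    set YBi : Mat n := cj UB (fun i => (((1 + t⁻¹ * b i)⁻¹ : ℝ) : ℂ)) with hYBi
    have eX : X = 1 + t⁻¹ • (l • A + (1 - l) • B) := by rw [hX, hUM, smul_cj_real]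
    have eYA : YA = 1 + t⁻¹ • A := by rw [hYA, ← smul_cj_real, ← hUA]
    have eYB : YB = 1 + t⁻¹ • B := by rw [hYB, ← smul_cj_real, ← hUB]
    have dA : X - YA = cj V (fun i => ((-(t⁻¹ * (1 - l)) * e i : ℝ) : ℂ)) := by
      rw [← smul_cj_real, ← hV, eX, eYA]
      module
    have dB : X - YB = cj V (fun i => ((t⁻¹ * l * e i : ℝ) : ℂ)) := by
      rw [← smul_cj_real, ← hV, eX, eYB]
      module
    obtain ⟨DA, hDA, LA⟩ := L1 (cj_sub_posSemidef_one hm') (cj_sub_posSemidef_one ha')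
      (cj_inv hm') (cj_inv ha') dA U
    obtain ⟨DB, hDB, LB⟩ := L1 (cj_sub_posSemidef_one hm') (cj_sub_posSemidef_one hb')
      (cj_inv hm') (cj_inv hb') dB U
    have hJt' : Jt t = t ^ (r - 1) • (l • (YAi - Xi + Xi * (YA - X) * Xi) +
        (1 - l) • (YBi - Xi + Xi * (YB - X) * Xi)) := by
      have h1 : l • (YAi - Xi + Xi * (YA - X) * Xi) + (1 - l) • (YBi - Xi + Xi * (YB - X) * Xi) =
          l • YAi + (1 - l) • YBi - Xi := by
        have h2 : YA - X = (t⁻¹ * (1 - l)) • (A - B) := by rw [eX, eYA]; module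
        have h3 : YB - X = -(t⁻¹ * l) • (A - B) := by rw [eX, eYB]; module
        rw [h2, h3]
        simp only [mul_smul_comm, smul_mul_assoc]
        module
      have h4 : Jt t = t ^ (r - 1) • (l • (t⁻¹ • A - 1 + YAi) + (1 - l) • (t⁻¹ • B - 1 + YBi) -
          (t⁻¹ • (l • A + (1 - l) • B) - 1 + Xi)) := by
        simp only [hJt, hΦ]
        rw [phi_cj ht0 UA ha, phi_cj ht0 UB hb, phi_cj ht0 UM hm, ← hUA, ← hUB, ← hUM]
        module
      rw [h1, h4]
      congr 1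
      module
    have htr : 0 < t ^ (r - 1) := Real.rpow_pos_of_pos ht0 _
    have hdg : ∀ i, dg U (Jt t) i = t ^ (r - 1) * (l * dg U (YAi - Xi + Xi * (YA - X) * Xi) i +
        (1 - l) * dg U (YBi - Xi + Xi * (YB - X) * Xi) i) := by
      intro i
      rw [hJt', dg_smul, dg_add, dg_smul, dg_smul]
      rfl
    have kA : ∀ j, t ^ (r - 1) * kap |-(t⁻¹ * (1 - l)) * e j| = Φ t ((1 - l) * |e j|) := by
      intro j
      simp only [hΦ]
      rw [int12 ht0 (mul_nonneg hl1' (abs_nonneg _)), abs_mul, abs_neg,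
        abs_of_nonneg (mul_nonneg hti.le hl1')]
      congr 2
      field_simp
    have kB : ∀ j, t ^ (r - 1) * kap |t⁻¹ * l * e j| = Φ t (l * |e j|) := by
      intro j
      simp only [hΦ]
      rw [int12 ht0 (mul_nonneg hl0 (abs_nonneg _)), abs_mul,
        abs_of_nonneg (mul_nonneg hti.le hl0)]
      congr 2
      field_simp
    have hΦm : ∀ x y, 0 ≤ x → x ≤ y → Φ t x ≤ Φ t y := by
      intro x y hx hxy
      simp only [hΦ]
      rw [int12 ht0 hx, int12 ht0 (hx.trans hxy)]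
      apply mul_le_mul_of_nonneg_left _ htr.le
      exact kap_mono (by positivity) (div_le_div_of_nonneg_right hxy ht0.le)
    have hΦ0 : ∀ x, 0 ≤ x → 0 ≤ Φ t x := by
      intro x hx
      simp only [hΦ]
      rw [int12 ht0 hx]
      exact mul_nonneg htr.le (kap_nonneg (by positivity))
    refine ⟨fun i => ?_, ?_⟩
    · rw [hdg]
      exact mul_nonneg htr.le (add_nonneg (mul_nonneg hl0 (LA i).1) (mul_nonneg hl1' (LB i).1))
    · have b1 : ∀ i, dg U (Jt t) i ≤ l * ∑ j, DA i j * Φ t ((1 - l) * |e j|) +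
          (1 - l) * ∑ j, DB i j * Φ t (l * |e j|) := by
        intro i
        rw [hdg]
        have s1 : t ^ (r - 1) * dg U (YAi - Xi + Xi * (YA - X) * Xi) i ≤
            ∑ j, DA i j * Φ t ((1 - l) * |e j|) := by
          refine (mul_le_mul_of_nonneg_left (LA i).2 htr.le).trans (le_of_eq ?_)
          rw [Finset.mul_sum]
          refine Finset.sum_congr rfl fun j _ => ?_
          rw [← kA]; ring
        have s2 : t ^ (r - 1) * dg U (YBi - Xi + Xi * (YB - X) * Xi) i ≤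
            ∑ j, DB i j * Φ t (l * |e j|) := by
          refine (mul_le_mul_of_nonneg_left (LB i).2 htr.le).trans (le_of_eq ?_)
          rw [Finset.mul_sum]
          refine Finset.sum_congr rfl fun j _ => ?_
          rw [← kB]; ring
        have s3 := mul_le_mul_of_nonneg_left s1 hl0
        have s4 := mul_le_mul_of_nonneg_left s2 hl1'
        linarith
      have mA : Monovary (w ∘ π) (fun i => Φ t ((1 - l) * |e i|)) := by
        refine monovary_comp hπ (f := fun x => Φ t ((1 - l) * x)) fun i j hij => ?_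
        exact hΦm _ _ (mul_nonneg hl1' (abs_nonneg _)) (mul_le_mul_of_nonneg_left hij hl1')
      have mB : Monovary (w ∘ π) (fun i => Φ t (l * |e i|)) := by
        refine monovary_comp hπ (f := fun x => Φ t (l * x)) fun i j hij => ?_
        exact hΦm _ _ (mul_nonneg hl0 (abs_nonneg _)) (mul_le_mul_of_nonneg_left hij hl0)
      have rA := dss_le' hDA hw0 (fun i => hΦ0 _ (mul_nonneg hl1' (abs_nonneg (e i)))) mA
      have rB := dss_le' hDB hw0 (fun i => hΦ0 _ (mul_nonneg hl0 (abs_nonneg (e i)))) mB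
      calc ∑ i, w i * dg U (Jt t) i
          ≤ ∑ i, w i * (l * ∑ j, DA i j * Φ t ((1 - l) * |e j|) +
            (1 - l) * ∑ j, DB i j * Φ t (l * |e j|)) :=
            Finset.sum_le_sum fun i _ => mul_le_mul_of_nonneg_left (b1 i) (hw0 i)
        _ = l * ∑ i, w i * ∑ j, DA i j * Φ t ((1 - l) * |e j|) +
            (1 - l) * ∑ i, w i * ∑ j, DB i j * Φ t (l * |e j|) := by
            rw [Finset.mul_sum (s := Finset.univ) (a := l), Finset.mul_sum (s := Finset.univ) (a := 1 - l), ← Finset.sum_add_distrib]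
            refine Finset.sum_congr rfl fun i _ => ?_
            ring
        _ ≤ l * ∑ i, w (π i) * Φ t ((1 - l) * |e i|) +
            (1 - l) * ∑ i, w (π i) * Φ t (l * |e i|) :=
            add_le_add (mul_le_mul_of_nonneg_left rA hl0) (mul_le_mul_of_nonneg_left rB hl1')
        _ = _ := by
            rw [Finset.mul_sum, Finset.mul_sum, ← Finset.sum_add_distrib]
            refine Finset.sum_congr rfl fun i _ => ?_
            ring
  -- integrate
  have hc0 : ∀ i, 0 ≤ c i := by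
    intro i
    rw [hcint]
    exact setIntegral_nonneg measurableSet_Ioi fun t ht => (hpt t ht).1 i
  have i1 : ∑ i, w i * |c i| = ∫ t in Set.Ioi 0, ∑ i, w i * dg U (Jt t) i ∂μ := by
    rw [integral_finset_sum]
    · refine Finset.sum_congr rfl fun i _ => ?_
      rw [integral_const_mul, ← hcint, abs_of_nonneg (hc0 i)]
    · intro i _
      exact (hint i).const_mul _
  have iA : ∀ i, IntegrableOn (fun t => w (π i) * (l * Φ t ((1 - l) * |e i|) +
      (1 - l) * Φ t (l * |e i|))) (Set.Ioi 0) μ := by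
    intro i
    exact ((((hμ _ (mul_nonneg hl1' (abs_nonneg (e i)))).1.const_mul _).add
      ((hμ _ (mul_nonneg hl0 (abs_nonneg (e i)))).1.const_mul _))).const_mul _
  have i2 : ∫ t in Set.Ioi 0, ∑ i, w (π i) * (l * Φ t ((1 - l) * |e i|) +
      (1 - l) * Φ t (l * |e i|)) ∂μ =
      (l * (1 - l) ^ r + (1 - l) * l ^ r) * ∑ i, w (π i) * |(|e i| ^ r)| := by
    rw [integral_finset_sum _ fun i _ => iA i, Finset.mul_sum]
    refine Finset.sum_congr rfl fun i _ => ?_
    rw [integral_const_mul, integral_add ((hμ _ (mul_nonneg hl1' (abs_nonneg (e i)))).1.const_mul _)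
      ((hμ _ (mul_nonneg hl0 (abs_nonneg (e i)))).1.const_mul _), integral_const_mul,
      integral_const_mul, ← (hμ _ (mul_nonneg hl1' (abs_nonneg (e i)))).2,
      ← (hμ _ (mul_nonneg hl0 (abs_nonneg (e i)))).2,
      Real.mul_rpow hl1' (abs_nonneg _), Real.mul_rpow hl0 (abs_nonneg _),
      abs_of_nonneg (Real.rpow_nonneg (abs_nonneg _) _)]
    ring
  have i3 : ∫ t in Set.Ioi 0, ∑ i, w i * dg U (Jt t) i ∂μ ≤
      ∫ t in Set.Ioi 0, ∑ i, w (π i) * (l * Φ t ((1 - l) * |e i|) +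
      (1 - l) * Φ t (l * |e i|)) ∂μ := by
    apply setIntegral_mono_on
    · exact integrable_finset_sum _ fun i _ => (hint i).const_mul _
    · exact integrable_finset_sum _ fun i _ => iA i
    · exact measurableSet_Ioi
    · intro t ht
      exact (hpt t ht).2
  have hcl : 0 ≤ l * (1 - l) ^ r + (1 - l) * l ^ r := by positivity
  calc nq q c ≤ ∑ i, w i * |c i| := hw2
    _ ≤ (l * (1 - l) ^ r + (1 - l) * l ^ r) * ∑ i, w (π i) * |(|e i| ^ r)| := by
        rw [i1, ← i2]; exact i3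
    _ ≤ _ := mul_le_mul_of_nonneg_left (dual_perm hq hw1 π _) hcl

end Pool.Agent.Lib_helper41.PM
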