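import Pool.Agent.Lib_helper41.PM.Contr

/-!
# The two majorisation lemmas
-/

open Matrix
open scoped ENNReal BigOperators ComplexOrder

namespace Pool.Agent.Lib_helper41.PM
variable {n : ℕ} {q : ℝ≥0∞}

/-- the function `e² / (1 + e)` -/
noncomputable def kap (e : ℝ) : ℝ := e ^ 2 / (1 + e)

/-- the function `e / (1 + e)` -/
noncomputable def hh (e : ℝ) : ℝ := e / (1 + e)

lemma kap_nonneg {a : ℝ} (ha : 0 ≤ a) : 0 ≤ kap a := by unfold kap; positivity

lemma hh_nonneg {a : ℝ} (ha : 0 ≤ a) : 0 ≤ hh a := by unfold hh; positivity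

lemma kap_mono {a b : ℝ} (ha : 0 ≤ a) (hab : a ≤ b) : kap a ≤ kap b := by
  unfold kap
  rw [div_le_div_iff₀ (by linarith) (by linarith)]
  nlinarith [mul_nonneg (mul_nonneg ha (by linarith : 0 ≤ b)) (sub_nonneg.mpr hab)]

lemma kap_jensen {θ x : Fin n → ℝ} (hθ : ∀ i, 0 ≤ θ i) (hθ1 : ∑ i, θ i ≤ 1)
    (hx : ∀ i, 0 ≤ x i) : kap (∑ i, θ i * x i) ≤ ∑ i, θ i * kap (x i) := by
  set m : ℝ := ∑ i, θ i * x i with hm
  have hm0 : 0 ≤ m := Finset.sum_nonneg fun i _ => mul_nonneg (hθ i) (hx i)
  have hm1 : (0 : ℝ) < 1 + m := by linarith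
  set d : ℝ := 1 - 1 / (1 + m) ^ 2 with hd
  have h1 : ∀ i, kap m + d * (x i - m) ≤ kap (x i) := by
    intro i
    have h0 : (0 : ℝ) < 1 + x i := by linarith [hx i]
    have : kap (x i) - (kap m + d * (x i - m)) = (x i - m) ^ 2 / ((1 + x i) * (1 + m) ^ 2) := by
      unfold kap
      rw [hd]
      field_simp
      ring
    have h2 : 0 ≤ (x i - m) ^ 2 / ((1 + x i) * (1 + m) ^ 2) := by positivity
    linarith
  have h2 : kap m ≤ d * m := by
    have : d * m - kap m = m ^ 2 / (1 + m) ^ 2 := by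
      unfold kap
      rw [hd]
      field_simp
      ring
    have h3 : 0 ≤ m ^ 2 / (1 + m) ^ 2 := by positivity
    linarith
  have h3 : ∑ i, θ i * (kap m + d * (x i - m)) ≤ ∑ i, θ i * kap (x i) :=
    Finset.sum_le_sum fun i _ => mul_le_mul_of_nonneg_left (h1 i) (hθ i)
  have h4 : ∑ i, θ i * (kap m + d * (x i - m)) =
      (∑ i, θ i) * kap m + (1 - ∑ i, θ i) * (d * m) := by
    have e1 : ∀ i, θ i * (kap m + d * (x i - m)) = θ i * kap m - θ i * (d * m) + d * (θ i * x i) := by
      intro i; ring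
    simp only [e1]
    rw [Finset.sum_add_distrib, Finset.sum_sub_distrib, ← Finset.sum_mul, ← Finset.sum_mul,
      ← Finset.mul_sum, ← hm]
    ring
  rw [h4] at h3
  have h5 : (1 - ∑ i, θ i) * kap m ≤ (1 - ∑ i, θ i) * (d * m) :=
    mul_le_mul_of_nonneg_left h2 (by linarith)
  linarith

lemma entry_conj (P : Mat n) (k : Fin n → ℝ) (i : Fin n) :
    ((P * diagonal (fun j => (k j : ℂ)) * Pᴴ) i i).re =
      ∑ j, Complex.normSq (P i j) * k j := by
  rw [mul_apply, Complex.re_sum]
  refine Finset.sum_congr rfl fun j _ => ?_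
  rw [mul_diagonal, conjTranspose_apply, ← starRingEnd_apply]
  have : P i j * (k j : ℂ) * (starRingEnd ℂ) (P i j) =
      ((Complex.normSq (P i j) * k j : ℝ) : ℂ) := by
    push_cast
    rw [← Complex.mul_conj]
    ring
  rw [this, Complex.ofReal_re]

lemma dg_RkR (U : unitaryGroup (Fin n) ℂ) (R : Mat n) (k : Fin n → ℝ) (i : Fin n) :
    dg U (R * diagonal (fun j => (k j : ℂ)) * Rᴴ) i =
      ∑ j, Complex.normSq ((star (U : Mat n) * R) i j) * k j := by
  unfold dg
  rw [← entry_conj]
  congr 2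
  rw [conjTranspose_mul, ← star_eq_conjTranspose (star (U : Mat n)), star_star]
  simp only [mul_assoc]

lemma entry_RcR (V : unitaryGroup (Fin n) ℂ) (R : Mat n) (e : Fin n → ℝ) (j : Fin n) :
    ((Rᴴ * cj V (fun k => (e k : ℂ)) * R) j j).re =
      ∑ k, Complex.normSq ((star (V : Mat n) * R) k j) * e k := by
  have h1 : Rᴴ * cj V (fun k => (e k : ℂ)) * R =
      (Rᴴ * (V : Mat n)) * diagonal (fun k => (e k : ℂ)) * (Rᴴ * (V : Mat n))ᴴ := by
    unfold cj
    rw [conjTranspose_mul, conjTranspose_conjTranspose, ← star_eq_conjTranspose (V : Mat n)]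
    simp only [mul_assoc]
  rw [h1, entry_conj]
  refine Finset.sum_congr rfl fun k _ => ?_
  congr 1
  have h2 : Rᴴ * (V : Mat n) = (star (V : Mat n) * R)ᴴ := by
    rw [conjTranspose_mul, star_eq_conjTranspose, conjTranspose_conjTranspose]
  rw [h2, conjTranspose_apply]
  exact Complex.normSq_conj _

lemma posDef_of_sub_one {X : Mat n} (h : (X - 1).PosSemidef) : X.PosDef := by
  have : X = 1 + (X - 1) := by abel
  rw [this]
  exact PosDef.one.add_posSemidef h

/-- everything we need about the simultaneous diagonalisation of `X, Y ≥ 1` -/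
lemma simul_facts {X Y Xi Yi : Mat n} (hX1 : (X - 1).PosSemidef) (hY1 : (Y - 1).PosSemidef)
    (hXi : X * Xi = 1) (hYi : Y * Yi = 1) : ∃ (R : Mat n) (w : Fin n → ℝ),
    Rᴴ * X * R = 1 ∧ Rᴴ * Y * R = diagonal (fun i => (w i : ℂ)) ∧ (∀ i, 0 < w i) ∧ Contr R ∧
    Contr (R * diagonal (fun i => (((√(w i))⁻¹ : ℝ) : ℂ))) ∧ Xi = R * Rᴴ ∧
    Yi = R * diagonal (fun i => (((w i)⁻¹ : ℝ) : ℂ)) * Rᴴ := by
  have hXpd := posDef_of_sub_one hX1
  have hYpd := posDef_of_sub_one hY1
  obtain ⟨R, w, h1, h2⟩ := exists_simul hXpd hYpd.1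
  have hRinv : R * (Rᴴ * X) = 1 := mul_eq_one_comm.mp h1
  have hinj : Function.Injective R.mulVec := by
    intro x y hxy
    have := congrArg (fun v => (Rᴴ * X) *ᵥ v) hxy
    simpa [Matrix.mulVec_mulVec, h1] using this
  have hw : ∀ i, 0 < w i := by
    intro i
    have h3 := hYpd.conjTranspose_mul_mul_same hinj
    rw [h2, posDef_diagonal_iff] at h3
    exact_mod_cast h3 i
  have hc1 : Contr R := by
    apply contr_of_left
    have : 1 - Rᴴ * R = Rᴴ * (X - 1) * R := by
      rw [mul_sub, sub_mul, h1, mul_one]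
    rw [this]
    exact hX1.conjTranspose_mul_mul_same R
  have hsq : ∀ i, (√(w i))⁻¹ * w i * (√(w i))⁻¹ = 1 := by
    intro i
    have h3 : √(w i) * √(w i) = w i := Real.mul_self_sqrt (hw i).le
    have h4 : √(w i) ≠ 0 := (Real.sqrt_pos.mpr (hw i)).ne'
    nth_rewrite 2 [← h3]
    field_simp
  have hc2 : Contr (R * diagonal (fun i => (((√(w i))⁻¹ : ℝ) : ℂ))) := by
    apply contr_of_left
    set G : Mat n := diagonal (fun i => (((√(w i))⁻¹ : ℝ) : ℂ)) with hG
    have hGh : Gᴴ = G := by
      rw [hG, diagonal_conjTranspose]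
      congr 1
      ext i
      simp
    have e1 : (R * G)ᴴ * Y * (R * G) = 1 := by
      rw [conjTranspose_mul, hGh]
      calc _ = G * (Rᴴ * Y * R) * G := by simp only [mul_assoc]
        _ = 1 := by
          rw [h2, hG, diagonal_mul_diagonal, diagonal_mul_diagonal, ← diagonal_one]
          congr 1
          ext i
          rw [← Complex.ofReal_mul, ← Complex.ofReal_mul, hsq, Complex.ofReal_one]
    have : 1 - (R * G)ᴴ * (R * G) = (R * G)ᴴ * (Y - 1) * (R * G) := by
      rw [mul_sub, sub_mul, e1, mul_one]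
    rw [this]
    exact hY1.conjTranspose_mul_mul_same _
  have hXi' : Xi = R * Rᴴ := by
    have e1 : (R * Rᴴ) * X = 1 := by rw [mul_assoc]; exact hRinv
    calc Xi = ((R * Rᴴ) * X) * Xi := by rw [e1, one_mul]
      _ = R * Rᴴ := by rw [mul_assoc, hXi, mul_one]
  have hYi' : Yi = R * diagonal (fun i => (((w i)⁻¹ : ℝ) : ℂ)) * Rᴴ := by
    set G : Mat n := diagonal (fun i => (((w i)⁻¹ : ℝ) : ℂ)) with hG
    have e0 : G * (Rᴴ * Y * R) = 1 := by
      rw [h2, hG, diagonal_mul_diagonal, ← diagonal_one]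
      congr 1
      ext i
      rw [← Complex.ofReal_mul, inv_mul_cancel₀ (hw i).ne', Complex.ofReal_one]
    have e1 : (R * G * Rᴴ) * Y = 1 := by
      have e2 : (G * Rᴴ * Y) * R = 1 := by
        rw [← e0]; simp only [mul_assoc]
      have e3 := mul_eq_one_comm.mp e2
      rw [← e3]; simp only [mul_assoc]
    calc Yi = ((R * G * Rᴴ) * Y) * Yi := by rw [e1, one_mul]
      _ = R * G * Rᴴ := by rw [mul_assoc _ Y, hYi, mul_one]
  exact ⟨R, w, h1, h2, hw, hc1, hc2, hXi', hYi'⟩

lemma diag_sub_diag (a b : Fin n → ℝ) : (diagonal (fun i => (a i : ℂ)) : Mat n) -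
    diagonal (fun i => (b i : ℂ)) = diagonal (fun i => ((a i - b i : ℝ) : ℂ)) := by
  rw [diagonal_sub]
  congr 1
  ext i
  push_cast
  rfl

lemma one_eq_diag : (1 : Mat n) = diagonal (fun _ => ((1 : ℝ) : ℂ)) := by
  simp [← diagonal_one]

/-- monotonicity of the inverse -/
lemma inv_anti {X Y Xi Yi : Mat n} (hX1 : (X - 1).PosSemidef) (hXY : (Y - X).PosSemidef)
    (hXi : X * Xi = 1) (hYi : Y * Yi = 1) : (Xi - Yi).PosSemidef := by
  have hY1 : (Y - 1).PosSemidef := by
    have : Y - 1 = (Y - X) + (X - 1) := by abel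
    rw [this]; exact hXY.add hX1
  obtain ⟨R, w, h1, h2, hw, -, -, hXi', hYi'⟩ := simul_facts hX1 hY1 hXi hYi
  have h3 : Xi - Yi = R * diagonal (fun i => ((1 - (w i)⁻¹ : ℝ) : ℂ)) * Rᴴ := by
    rw [← diag_sub_diag (fun _ => 1) (fun i => (w i)⁻¹), ← one_eq_diag, mul_sub, sub_mul,
      mul_one, ← hXi', ← hYi']
  have hw1 : ∀ i, 1 ≤ w i := by
    have h4 := hXY.conjTranspose_mul_mul_same R
    rw [mul_sub, sub_mul, h1, h2] at h4
    intro i
    have h5 := diag_re_nonneg h4 i
    simp at h5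
    exact h5
  rw [h3]
  apply PosSemidef.mul_mul_conjTranspose_same
  apply PosSemidef.diagonal
  intro i
  have : 0 ≤ 1 - (w i)⁻¹ := by
    have := inv_le_one_of_one_le₀ (hw1 i)
    linarith
  show (0 : ℂ) ≤ ((1 - (w i)⁻¹ : ℝ) : ℂ)
  exact_mod_cast this

/-- the first majorisation lemma -/
theorem L1 {X Y Xi Yi : Mat n} (hX1 : (X - 1).PosSemidef) (hY1 : (Y - 1).PosSemidef)
    (hXi : X * Xi = 1) (hYi : Y * Yi = 1) {V : unitaryGroup (Fin n) ℂ} {e : Fin n → ℝ}
    (hV : X - Y = cj V (fun i => (e i : ℂ))) (U : unitaryGroup (Fin n) ℂ) :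
    ∃ D : Fin n → Fin n → ℝ, DSS D ∧ ∀ i,
      0 ≤ dg U (Yi - Xi + Xi * (Y - X) * Xi) i ∧
      dg U (Yi - Xi + Xi * (Y - X) * Xi) i ≤ ∑ j, D i j * kap |e j| := by
  obtain ⟨R, w, h1, h2, hw, hR, hQ, hXi', hYi'⟩ := simul_facts hX1 hY1 hXi hYi
  -- the matrix `K`
  set k : Fin n → ℝ := fun i => (w i)⁻¹ + w i - 2 with hk
  have hK : Yi - Xi + Xi * (Y - X) * Xi = R * diagonal (fun i => (k i : ℂ)) * Rᴴ := by
    have e1 : Xi * (Y - X) * Xi = R * (diagonal (fun i => (w i : ℂ)) - 1) * Rᴴ := by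
      rw [hXi', ← h1, ← h2]
      noncomm_ring
    rw [e1]
    have e2 : Yi - Xi = R * (diagonal (fun i => (((w i)⁻¹ : ℝ) : ℂ)) - 1) * Rᴴ := by
      rw [hYi', hXi']
      noncomm_ring
    rw [e2, ← add_mul, ← mul_add]
    congr 2
    rw [one_eq_diag, diag_sub_diag, diag_sub_diag, diagonal_add]
    congr 1
    ext i
    rw [hk, ← Complex.ofReal_add]
    congr 1
    ring
  set P : Mat n := star (U : Mat n) * R with hP
  have hPc : Contr P := (contr_star_unitary U).mul hR
  have hD1 := DSS.of_contr hPc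
  -- the numbers `η`
  set η : Fin n → ℝ := fun j => if 1 ≤ w j then w j - 1 else (w j)⁻¹ - 1 with hη
  have hη0 : ∀ j, 0 ≤ η j := by
    intro j
    simp only [hη]
    split_ifs with h
    · linarith
    · push Not at h
      have := (one_lt_inv₀ (hw j)).mpr h
      linarith
  have hkη : ∀ j, k j = kap (η j) := by
    intro j
    have hwj := hw j
    simp only [hk, hη, kap]
    split_ifs with h
    · rw [add_sub_cancel]
      field_simp
      ring
    · rw [add_sub_cancel]
      field_simp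
      ring
  -- the second matrix
  set T : Fin n → Fin n → ℝ := fun j l => Complex.normSq ((star (V : Mat n) * R) l j) with hT
  have hTc : Contr (star (V : Mat n) * R) := (contr_star_unitary V).mul hR
  have hT1 : DSS T := (DSS.of_contr hTc).transpose
  set T' : Fin n → Fin n → ℝ := fun j l => (w j)⁻¹ * T j l with hT'
  have hT2 : DSS T' := by
    have h3 : Contr (star (V : Mat n) * (R * diagonal (fun i => (((√(w i))⁻¹ : ℝ) : ℂ)))) :=
      (contr_star_unitary V).mul hQ
    have h4 := (DSS.of_contr h3).transpose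
    have h5 : (fun j l => Complex.normSq ((star (V : Mat n) *
        (R * diagonal (fun i => (((√(w i))⁻¹ : ℝ) : ℂ)))) l j)) = T' := by
      ext j l
      rw [← mul_assoc, mul_diagonal, Complex.normSq_mul, Complex.normSq_ofReal, hT', hT]
      simp only
      have h6 : (√(w j))⁻¹ * (√(w j))⁻¹ = (w j)⁻¹ := by
        rw [← mul_inv, Real.mul_self_sqrt (hw j).le]
      rw [h6, mul_comm]
    rwa [h5] at h4
  set Θ : Fin n → Fin n → ℝ := fun j l =>
    if e l < 0 then (if 1 ≤ w j then T j l else 0) else (if 1 ≤ w j then 0 else T' j l) with hΘ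
  have hΘ0 : ∀ j l, 0 ≤ Θ j l := by
    intro j l
    simp only [hΘ]
    have := hT1.nonneg j l
    have := hT2.nonneg j l
    split_ifs <;> first | exact le_rfl | assumption
  have hΘD : DSS Θ := by
    refine ⟨hΘ0, fun j => ?_, fun l => ?_⟩
    · by_cases h : 1 ≤ w j
      · refine le_trans (Finset.sum_le_sum fun l _ => ?_) (hT1.row j)
        simp only [hΘ, h, if_true]
        split_ifs
        · exact le_rfl
        · exact hT1.nonneg j l
      · refine le_trans (Finset.sum_le_sum fun l _ => ?_) (hT2.row j)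
        simp only [hΘ, h, if_false]
        split_ifs
        · exact hT2.nonneg j l
        · exact le_rfl
    · by_cases h : e l < 0
      · refine le_trans (Finset.sum_le_sum fun j _ => ?_) (hT1.col l)
        simp only [hΘ, h, if_true]
        split_ifs
        · exact le_rfl
        · exact hT1.nonneg j l
      · refine le_trans (Finset.sum_le_sum fun j _ => ?_) (hT2.col l)
        simp only [hΘ, h, if_false]
        split_ifs
        · exact hT2.nonneg j l
        · exact le_rfl
  -- the inequality for `η`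
  have hdiag : ∀ j, 1 - w j = ∑ l, T j l * e l := by
    intro j
    have h3 : Rᴴ * cj V (fun i => (e i : ℂ)) * R = 1 - diagonal (fun i => (w i : ℂ)) := by
      rw [← hV, mul_sub, sub_mul, h1, h2]
    have h4 := entry_RcR V R e j
    rw [h3] at h4
    simp only [Matrix.sub_apply, one_apply_eq, diagonal_apply_eq, Complex.sub_re, Complex.one_re,
      Complex.ofReal_re] at h4
    exact h4
  have hηT : ∀ j, η j ≤ ∑ l, Θ j l * |e l| := by
    intro j
    simp only [hη]
    split_ifs with h
    · have h3 : w j - 1 = ∑ l, T j l * (-e l) := by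
        have := hdiag j
        simp only [mul_neg, Finset.sum_neg_distrib]
        linarith
      rw [h3]
      refine Finset.sum_le_sum fun l _ => ?_
      simp only [hΘ, h, if_true]
      split_ifs with h4
      · rw [abs_of_neg h4]
      · rw [zero_mul]
        have := mul_nonneg (hT1.nonneg j l) (not_lt.mp h4)
        linarith
    · have h3 : (w j)⁻¹ - 1 = ∑ l, T' j l * e l := by
        have h4 : ∑ l, T' j l * e l = (w j)⁻¹ * ∑ l, T j l * e l := by
          rw [Finset.mul_sum]
          refine Finset.sum_congr rfl fun l _ => ?_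
          simp only [hT']
          ring
        rw [h4, ← hdiag, mul_sub, mul_one, inv_mul_cancel₀ (hw j).ne']
      rw [h3]
      refine Finset.sum_le_sum fun l _ => ?_
      simp only [hΘ, h, if_false]
      split_ifs with h4
      · rw [zero_mul]
        have := mul_nonneg (hT2.nonneg j l) (neg_nonneg.mpr h4.le)
        linarith
      · rw [abs_of_nonneg (not_lt.mp h4)]
  have hkT : ∀ j, k j ≤ ∑ l, Θ j l * kap |e l| := by
    intro j
    rw [hkη]
    refine (kap_mono (hη0 j) (hηT j)).trans ?_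
    exact kap_jensen (hΘ0 j) (hΘD.row j) (fun l => abs_nonneg _)
  refine ⟨_, hD1.mul hΘD, fun i => ⟨?_, ?_⟩⟩
  · rw [hK, dg_RkR]
    refine Finset.sum_nonneg fun j _ => mul_nonneg (Complex.normSq_nonneg _) ?_
    rw [hkη]
    exact kap_nonneg (hη0 j)
  · rw [hK, dg_RkR]
    calc ∑ j, Complex.normSq ((star (U : Mat n) * R) i j) * k j
        ≤ ∑ j, Complex.normSq ((star (U : Mat n) * R) i j) * ∑ l, Θ j l * kap |e l| :=
          Finset.sum_le_sum fun j _ => mul_le_mul_of_nonneg_left (hkT j) (Complex.normSq_nonneg _)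
      _ = _ := by
          simp only [Finset.mul_sum, Finset.sum_mul]
          rw [Finset.sum_comm]
          refine Finset.sum_congr rfl fun l _ => Finset.sum_congr rfl fun j _ => ?_
          ring

/-- the second majorisation lemma -/
theorem L2 {X Xi Yi : Mat n} (hX1 : (X - 1).PosSemidef) {Q : unitaryGroup (Fin n) ℂ}
    {c : Fin n → ℝ} (hc : ∀ j, 0 ≤ c j) (hXi : X * Xi = 1)
    (hYi : (X + cj Q (fun i => (c i : ℂ))) * Yi = 1) (U : unitaryGroup (Fin n) ℂ) :
    ∃ D : Fin n → Fin n → ℝ, DSS D ∧ ∀ i, dg U (Xi - Yi) i ≤ ∑ j, D i j * hh (c j) := by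
  set C : Mat n := cj Q (fun i => (c i : ℂ)) with hC
  have hCp : C.PosSemidef := posSemidef_cj Q c hc
  have hY1 : (X + C - 1).PosSemidef := by
    have : X + C - 1 = (X - 1) + C := by abel
    rw [this]; exact hX1.add hCp
  obtain ⟨R, w, h1, h2, hw, hR, -, hXi', hYi'⟩ := simul_facts hX1 hY1 hXi hYi
  set g : Fin n → ℝ := fun j => w j - 1 with hg
  have hRC : Rᴴ * C * R = diagonal (fun i => (g i : ℂ)) := by
    have : Rᴴ * C * R = Rᴴ * (X + C) * R - Rᴴ * X * R := by noncomm_ring
    rw [this, h2, h1, one_eq_diag, diag_sub_diag]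
  have hg0 : ∀ j, 0 ≤ g j := by
    intro j
    have h3 := diag_re_nonneg (hCp.conjTranspose_mul_mul_same R) j
    rw [hRC, diagonal_apply_eq, Complex.ofReal_re] at h3
    exact h3
  have h3 : Xi - Yi = R * diagonal (fun i => ((1 - (w i)⁻¹ : ℝ) : ℂ)) * Rᴴ := by
    rw [← diag_sub_diag (fun _ => 1) (fun i => (w i)⁻¹), ← one_eq_diag, mul_sub, sub_mul,
      mul_one, ← hXi', ← hYi']
  set P : Mat n := star (U : Mat n) * R with hP
  have hPc : Contr P := (contr_star_unitary U).mul hR
  have hD1 := DSS.of_contr hPc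
  -- `ρ`
  set T : Fin n → Fin n → ℝ := fun j l => Complex.normSq ((star (Q : Mat n) * R) l j) with hT
  have hTc : Contr (star (Q : Mat n) * R) := (contr_star_unitary Q).mul hR
  have hT1 : DSS T := (DSS.of_contr hTc).transpose
  have hgT : ∀ j, g j = ∑ l, T j l * c l := by
    intro j
    have h4 := entry_RcR Q R c j
    rw [← hC, hRC, diagonal_apply_eq, Complex.ofReal_re] at h4
    exact h4
  -- the contraction `V`
  set Ch : Mat n := cj Q (fun i => ((√(c i) : ℝ) : ℂ)) with hCh
  set G : Mat n := diagonal (fun i => (((√(g i))⁻¹ : ℝ) : ℂ)) with hG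
  have hGh : Gᴴ = G := by
    rw [hG, diagonal_conjTranspose]
    congr 1
    ext i
    simp
  have hChh : Chᴴ = Ch := cj_isHermitian Q _
  have hChC : Ch * Ch = C := by
    rw [hCh, cj_mul, hC]
    congr 1
    ext i
    simp only [Pi.mul_apply]
    rw [← Complex.ofReal_mul, Real.mul_self_sqrt (hc i)]
  have hsq : ∀ i, (√(g i))⁻¹ * g i * (√(g i))⁻¹ ≤ 1 := by
    intro i
    rcases (hg0 i).eq_or_lt with h0 | h0
    · rw [← h0]; simp
    · have h5 : √(g i) * √(g i) = g i := Real.mul_self_sqrt (hg0 i)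
      have h6 : √(g i) ≠ 0 := (Real.sqrt_pos.mpr h0).ne'
      have : (√(g i))⁻¹ * g i * (√(g i))⁻¹ = 1 := by
        nth_rewrite 2 [← h5]
        field_simp
      exact this.le
  have hVc : Contr (Ch * R * G) := by
    apply contr_of_left
    have e1 : (Ch * R * G)ᴴ * (Ch * R * G) =
        diagonal (fun i => (((√(g i))⁻¹ * g i * (√(g i))⁻¹ : ℝ) : ℂ)) := by
      rw [conjTranspose_mul, conjTranspose_mul, hGh, hChh]
      calc _ = G * (Rᴴ * (Ch * Ch) * R) * G := by simp only [mul_assoc]
        _ = _ := by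
          rw [hChC, hRC, hG, diagonal_mul_diagonal, diagonal_mul_diagonal]
          congr 1
          ext i
          push_cast
          ring
    rw [e1, one_eq_diag, diag_sub_diag]
    apply PosSemidef.diagonal
    intro i
    have := hsq i
    show (0 : ℂ) ≤ ((1 - (√(g i))⁻¹ * g i * (√(g i))⁻¹ : ℝ) : ℂ)
    exact_mod_cast sub_nonneg.mpr this
  set T' : Fin n → Fin n → ℝ := fun j l => c l * T j l / g j with hT'
  have hT2 : DSS T' := by
    have h4 : Contr (star (Q : Mat n) * (Ch * R * G)) := (contr_star_unitary Q).mul hVc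
    have h5 := (DSS.of_contr h4).transpose
    have h6 : (fun j l => Complex.normSq ((star (Q : Mat n) * (Ch * R * G)) l j)) = T' := by
      ext j l
      have e1 : star (Q : Mat n) * (Ch * R * G) =
          diagonal (fun i => ((√(c i) : ℝ) : ℂ)) * (star (Q : Mat n) * R) * G := by
        rw [hCh]
        unfold cj
        calc _ = (star (Q : Mat n) * (Q : Mat n)) * diagonal (fun i => ((√(c i) : ℝ) : ℂ)) *
              (star (Q : Mat n) * R) * G := by simp only [mul_assoc]
          _ = _ := by rw [unitary_star_mul, one_mul]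
      rw [e1, hG, mul_diagonal, diagonal_mul, Complex.normSq_mul, Complex.normSq_mul,
        Complex.normSq_ofReal, Complex.normSq_ofReal, hT', hT, Real.mul_self_sqrt (hc l)]
      simp only
      rw [← mul_inv, Real.mul_self_sqrt (hg0 j), div_eq_mul_inv]
    rwa [h6] at h5
  have hkey : ∀ j, 1 - (w j)⁻¹ ≤ ∑ l, T' j l * hh (c l) := by
    intro j
    have hwg : w j = 1 + g j := by simp only [hg]; ring
    rcases (hg0 j).eq_or_lt with h0 | h0
    · rw [hwg, ← h0, add_zero, inv_one, sub_self]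
      exact Finset.sum_nonneg fun l _ => mul_nonneg (hT2.nonneg j l) (hh_nonneg (hc l))
    · have h4 := kap_jensen (hT1.nonneg j) (hT1.row j) hc
      rw [← hgT] at h4
      have h5 : 1 - (w j)⁻¹ = kap (g j) / g j := by
        rw [hwg]
        unfold kap
        have : (1 : ℝ) + g j ≠ 0 := by linarith
        field_simp
        ring
      rw [h5, div_le_iff₀ h0, Finset.sum_mul]
      refine h4.trans (le_of_eq ?_)
      refine Finset.sum_congr rfl fun l _ => ?_
      simp only [hT', kap, hh]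
      field_simp
  refine ⟨_, hD1.mul hT2, fun i => ?_⟩
  rw [h3, dg_RkR]
  calc ∑ j, Complex.normSq ((star (U : Mat n) * R) i j) * (1 - (w j)⁻¹)
      ≤ ∑ j, Complex.normSq ((star (U : Mat n) * R) i j) * ∑ l, T' j l * hh (c l) :=
        Finset.sum_le_sum fun j _ => mul_le_mul_of_nonneg_left (hkey j) (Complex.normSq_nonneg _)
    _ = _ := by
        simp only [Finset.mul_sum, Finset.sum_mul]
        rw [Finset.sum_comm]
        refine Finset.sum_congr rfl fun l _ => Finset.sum_congr rfl fun j _ => ?_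
        ring

end Pool.Agent.Lib_helper41.PM
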