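import Pool.Agent.Lib_helper41.PM.Neg

/-!
# Löwner–Heinz inequality for matrices
-/

open Matrix
open scoped ENNReal BigOperators ComplexOrder MatrixOrder Matrix.Norms.L2Operator

namespace Pool.Agent.Lib_helper41.PM
variable {n : ℕ}

theorem mpow_mono {s : ℝ} (hs : s ∈ Set.Icc (0 : ℝ) 1) {A B : Mat n} (hA : A.PosSemidef)
    (h : (B - A).PosSemidef) : (mpow B s - mpow A s).PosSemidef := by
  have hA' : (0 : Mat n) ≤ A := hA.nonneg
  have hAB : A ≤ B := h
  have hB' : (0 : Mat n) ≤ B := hA'.trans hAB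
  have h1 := CFC.rpow_le_rpow (A := Mat n) hs hAB
  rw [CFC.rpow_eq_cfc_real hA', CFC.rpow_eq_cfc_real hB'] at h1
  exact h1

end Pool.Agent.Lib_helper41.PM
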