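import Pool.Agent.Lib_helper41.PM.Ando
import Pool.Agent.Lib_helper41.PM.Big

/-!
# Monotonicity for exponents in `[1/2, 1]`
-/

open Matrix
open scoped ENNReal BigOperators ComplexOrder

namespace Pool.Agent.Lib_helper41.PM
variable {n : ℕ} {q : ℝ≥0∞}

lemma mpow_mpow {X : Mat n} (hX : X.PosDef) {a b : ℝ} (hab : a * b = 1) :
    mpow (mpow X a) b = X := by
  obtain ⟨U, c, rfl⟩ := exists_cj hX.1
  rw [mpow_cj, mpow_cj]
  congr 1
  ext i
  have h := posDef_cj_pos U c hX i
  rw [← Real.rpow_mul h.le, hab, Real.rpow_one]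

lemma posDef_combo {A B : Mat n} (hA : A.PosDef) (hB : B.PosDef) {l : ℝ} (hl0 : 0 ≤ l)
    (hl1 : l ≤ 1) : (l • A + (1 - l) • B).PosDef := by
  rcases hl0.eq_or_lt with h0 | h0
  · rw [← h0]; simpa using hB
  · exact (hA.smul h0).add_posSemidef (hB.posSemidef.smul (by linarith))

theorem step (hq : 1 ≤ q) {r : ℝ} (hr : r ∈ Set.Ioo (1 : ℝ) 2) {A B : Mat n} (hA : A.PosDef)
    (hB : B.PosDef) {l : ℝ} (hl0 : 0 ≤ l) (hl1 : l ≤ 1) :
    schatten q (mpow (l • A + (1 - l) • B) r - mpow B r) ≤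
      (1 + (1 - l) ^ r) * schatten q (mpow A r - mpow B r) := by
  have hr0 : (0 : ℝ) < r := by linarith [hr.1]
  obtain ⟨V, e, hV⟩ := exists_cj (hA.1.sub hB.1)
  have h1 := J_bound hq hr hA hB hl0 hl1 hV
  have hAr := mpow_posDef hA r
  have hBr := mpow_posDef hB r
  have hMr := mpow_posDef (posDef_combo hA hB hl0 hl1) r
  have hs : 1 / r ∈ Set.Ioo (0 : ℝ) 1 := by
    constructor
    · positivity
    · rw [div_lt_one hr0]; exact hr.1
  have h2 := E_bound hq hs hAr hBr (V := V) (e := e) (by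
    rw [mpow_mpow hA (mul_one_div_cancel hr0.ne'), mpow_mpow hB (mul_one_div_cancel hr0.ne'), hV])
  rw [one_div_one_div] at h2
  set S := schatten q (mpow A r - mpow B r) with hS
  have hS0 : 0 ≤ S := schatten_nonneg hq _
  have h3 : mpow (l • A + (1 - l) • B) r - mpow B r = l • (mpow A r - mpow B r) -
      (l • mpow A r + (1 - l) • mpow B r - mpow (l • A + (1 - l) • B) r) := by module
  rw [h3]
  have hJh : (l • mpow A r + (1 - l) • mpow B r - mpow (l • A + (1 - l) • B) r).IsHermitian :=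
    ((isHermitian_smul hAr.1 _).add (isHermitian_smul hBr.1 _)).sub hMr.1
  refine (schatten_sub_le hq (isHermitian_smul (hAr.1.sub hBr.1) l) hJh).trans ?_
  rw [schatten_smul hq (hAr.1.sub hBr.1), abs_of_nonneg hl0, ← hS]
  have hl1' : 0 ≤ 1 - l := by linarith
  have p1 : 0 ≤ (1 - l) ^ r := Real.rpow_nonneg hl1' _
  have p2 : 0 ≤ l ^ r := Real.rpow_nonneg hl0 _
  have p3 : l ^ r ≤ 1 := Real.rpow_le_one hl0 hl1 hr0.le
  have hc : 0 ≤ l * (1 - l) ^ r + (1 - l) * l ^ r := by positivity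
  have h4 := h1.trans (mul_le_mul_of_nonneg_left h2 hc)
  have h5 : l * (1 - l) ^ r + (1 - l) * l ^ r ≤ (1 - l) ^ r + (1 - l) := by
    nlinarith
  have h6 := mul_le_mul_of_nonneg_right h5 hS0
  linarith

lemma iter (hq : 1 ≤ q) {r : ℝ} (hr : r ∈ Set.Ioo (1 : ℝ) 2) {A B : Mat n} (hA : A.PosDef)
    (hB : B.PosDef) {l : ℝ} (hl0 : 0 ≤ l) (hl1 : l ≤ 1) {u : ℝ} (hu0 : 0 ≤ u) (hu1 : u ≤ 1)
    (k : ℕ) :
    schatten q (mpow ((l ^ k * u) • A + (1 - l ^ k * u) • B) r - mpow B r) ≤
      (1 + (1 - l) ^ r) ^ k * schatten q (mpow (u • A + (1 - u) • B) r - mpow B r) := by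
  induction k with
  | zero => simp
  | succ k ih =>
    have hlk0 : 0 ≤ l ^ k := pow_nonneg hl0 k
    have hlk1 : l ^ k ≤ 1 := pow_le_one₀ hl0 hl1
    have hv0 : 0 ≤ l ^ k * u := mul_nonneg hlk0 hu0
    have hv1 : l ^ k * u ≤ 1 := mul_le_one₀ hlk1 hu0 hu1
    have h1 := step hq hr (posDef_combo hA hB hv0 hv1) hB hl0 hl1
    have h2 : l • ((l ^ k * u) • A + (1 - l ^ k * u) • B) + (1 - l) • B =
        (l ^ (k + 1) * u) • A + (1 - l ^ (k + 1) * u) • B := by
      rw [pow_succ]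
      module
    rw [h2] at h1
    refine h1.trans ?_
    have h3 : 0 ≤ 1 + (1 - l) ^ r := by
      have := Real.rpow_nonneg (by linarith : 0 ≤ 1 - l) r
      linarith
    rw [pow_succ (1 + (1 - l) ^ r), mul_comm _ (1 + (1 - l) ^ r), mul_assoc]
    exact mul_le_mul_of_nonneg_left ih h3

open Filter Topology in
theorem mono_main (hq : 1 ≤ q) {r : ℝ} (hr : r ∈ Set.Ioo (1 : ℝ) 2) {A B : Mat n} (hA : A.PosDef)
    (hB : B.PosDef) {v u : ℝ} (hv : 0 ≤ v) (hvu : v ≤ u) (hu1 : u ≤ 1) :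
    schatten q (mpow (v • A + (1 - v) • B) r - mpow B r) ≤
      schatten q (mpow (u • A + (1 - u) • B) r - mpow B r) := by
  rcases hv.eq_or_lt with rfl | hv0
  · rw [zero_smul, zero_add, sub_zero, one_smul, sub_self]
    have h0 : schatten q (0 : Mat n) = 0 := by
      have := schatten_smul (n := n) (q := q) hq isHermitian_zero 0
      rwa [zero_smul, abs_zero, zero_mul] at this
    rw [h0]
    exact schatten_nonneg hq _
  have hu0 : 0 < u := lt_of_lt_of_le hv0 hvu
  set ρ : ℝ := v / u with hρ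
  have hρ0 : 0 < ρ := by positivity
  have hρ1 : ρ ≤ 1 := by rw [hρ, div_le_one hu0]; exact hvu
  have hρu : ρ * u = v := div_mul_cancel₀ v hu0.ne'
  set L : ℝ := -Real.log ρ with hL
  have hL0 : 0 ≤ L := by
    rw [hL]; have := Real.log_nonpos hρ0.le hρ1; linarith
  set S := schatten q (mpow (u • A + (1 - u) • B) r - mpow B r) with hS
  have hS0 : 0 ≤ S := schatten_nonneg hq _
  have key : ∀ k : ℕ, 1 ≤ k → schatten q (mpow (v • A + (1 - v) • B) r - mpow B r) ≤
      Real.exp (L ^ r * (k : ℝ) ^ (-(r - 1))) * S := by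
    intro k hk
    have hk0 : (0 : ℝ) < k := by exact_mod_cast hk
    set l : ℝ := Real.exp (-(L / k)) with hl
    have hl0 : 0 < l := Real.exp_pos _
    have hl1 : l ≤ 1 := by
      rw [hl, Real.exp_le_one_iff]
      have : 0 ≤ L / k := by positivity
      linarith
    have hlk : l ^ k = ρ := by
      rw [hl, ← Real.exp_nat_mul]
      have : (k : ℝ) * (-(L / k)) = Real.log ρ := by
        rw [hL]; field_simp
      rw [this, Real.exp_log hρ0]
    have h1 := iter hq hr hA hB hl0.le hl1 hu0.le hu1 k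
    rw [hlk, hρu] at h1
    refine h1.trans (mul_le_mul_of_nonneg_right ?_ hS0)
    have h2 : 1 - l ≤ L / k := by
      have := Real.add_one_le_exp (-(L / k))
      rw [← hl] at this
      linarith
    have hr0 : 0 ≤ r := by linarith [hr.1]
    have h3 : (1 - l) ^ r ≤ (L / k) ^ r := Real.rpow_le_rpow (by linarith) h2 hr0
    have h4 : 1 + (1 - l) ^ r ≤ Real.exp ((L / k) ^ r) := by
      have := Real.add_one_le_exp ((L / k) ^ r)
      linarith
    have h5 : 0 ≤ 1 + (1 - l) ^ r := by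
      have := Real.rpow_nonneg (by linarith : 0 ≤ 1 - l) r
      linarith
    calc (1 + (1 - l) ^ r) ^ k ≤ (Real.exp ((L / k) ^ r)) ^ k := pow_le_pow_left₀ h5 h4 k
      _ = Real.exp (L ^ r * (k : ℝ) ^ (-(r - 1))) := by
        rw [← Real.exp_nat_mul]
        congr 1
        rw [Real.div_rpow hL0 hk0.le, neg_sub, Real.rpow_sub hk0, Real.rpow_one]
        ring
  have hlim : Tendsto (fun k : ℕ => Real.exp (L ^ r * (k : ℝ) ^ (-(r - 1))) * S) atTop
      (𝓝 (Real.exp (L ^ r * 0) * S)) := by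
    have h1 := (tendsto_rpow_neg_atTop (by linarith [hr.1] : 0 < r - 1)).comp
      tendsto_natCast_atTop_atTop
    exact ((Real.continuous_exp.tendsto _).comp (h1.const_mul (L ^ r))).mul_const S
  rw [mul_zero, Real.exp_zero, one_mul] at hlim
  refine ge_of_tendsto hlim ?_
  filter_upwards [eventually_ge_atTop 1] with k hk
  exact key k hk

/-- the exponents in `[1/2, 1]` are monotonic for every Schatten metric -/
theorem monotonic_mid (hq : 1 ≤ q) {p : ℝ} (hp : 1 / 2 ≤ p) (hp1 : p ≤ 1) : Monotonic p q := by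
  rcases hp.eq_or_lt with rfl | hp'
  · exact monotonic_half hq
  rcases hp1.eq_or_lt with rfl | hp1'
  · intro n X Y hX hY v hv u hu hvu
    have e : ∀ t ∈ Set.Icc (0 : ℝ) 1, schatten q (mean 1 t X Y - Y) =
        t * schatten q (X - Y) := by
      intro t ht
      have h1 : ∀ Z : Mat n, Z.IsHermitian → mpow Z 1 = Z := by
        intro Z hZ
        obtain ⟨U, c, rfl⟩ := exists_cj hZ
        rw [mpow_cj]
        congr 1
        ext i
        rw [Real.rpow_one]
      have h2 : mean 1 t X Y = t • X + (1 - t) • Y := by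
        unfold mean
        rw [div_one, h1 X hX.1, h1 Y hY.1, h1 _ ((isHermitian_smul hX.1 _).add
          (isHermitian_smul hY.1 _))]
      have h3 : t • X + (1 - t) • Y - Y = t • (X - Y) := by module
      rw [h2, h3, schatten_smul hq (hX.1.sub hY.1), abs_of_nonneg ht.1]
    simp only
    rw [e v hv, e u hu]
    exact mul_le_mul_of_nonneg_right hvu (schatten_nonneg hq _)
  · intro n X Y hX hY v hv u hu hvu
    have hp0 : 0 < p := by linarith
    have hr : 1 / p ∈ Set.Ioo (1 : ℝ) 2 := by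
      constructor
      · rw [lt_div_iff₀ hp0]; linarith
      · rw [div_lt_iff₀ hp0]; linarith
    have h1 := mono_main hq hr (mpow_posDef hX p) (mpow_posDef hY p) hv.1 hvu hu.2
    rw [mpow_mpow hY (mul_one_div_cancel hp0.ne')] at h1
    exact h1

end Pool.Agent.Lib_helper41.PM
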