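import Pool.Agent.Lib_helper41.PM.Half

/-!
# Power means with negative or small positive exponent are never monotonic
-/

open Matrix
open scoped ENNReal BigOperators ComplexOrder

namespace Pool.Agent.Lib_helper41.PM
variable {n : ℕ} {q : ℝ≥0∞}

theorem mean_zero {p : ℝ} (hp : p ≠ 0) {X Y : Mat n} (hY : Y.PosDef) : mean p 0 X Y = Y := by
  unfold mean
  rw [zero_smul, zero_add, sub_zero, one_smul]
  obtain ⟨U, c, rfl⟩ := exists_cj hY.1
  rw [mpow_cj, mpow_cj]
  congr 1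
  ext i
  have h := posDef_cj_pos U c hY i
  rw [← Real.rpow_mul h.le, mul_one_div_cancel hp, Real.rpow_one]

theorem mean_one {p : ℝ} (hp : p ≠ 0) {X Y : Mat n} (hX : X.PosDef) : mean p 1 X Y = X := by
  unfold mean
  rw [sub_self, zero_smul, add_zero, one_smul]
  obtain ⟨U, c, rfl⟩ := exists_cj hX.1
  rw [mpow_cj, mpow_cj]
  congr 1
  ext i
  have h := posDef_cj_pos U c hX i
  rw [← Real.rpow_mul h.le, mul_one_div_cancel hp, Real.rpow_one]

/-- the case `p = 1/2` -/
theorem monotonic_half (hq : 1 ≤ q) : Monotonic (1 / 2) q := by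
  intro n X Y hX hY s hs t ht hst
  have hA := mpow_half_posSemidef hX
  have hB := mpow_half_posSemidef hY
  have key := half_step hq hA hB hs.1 hst ht.2
  have e : ∀ r : ℝ, mean (1 / 2) r X Y = (r • mpow X (1 / 2) + (1 - r) • mpow Y (1 / 2)) *
      (r • mpow X (1 / 2) + (1 - r) • mpow Y (1 / 2)) := by
    intro r
    unfold mean
    exact mpow_two ((isHermitian_smul hA.1 _).add (isHermitian_smul hB.1 _))
  simp only
  rw [e, e]
  rw [mpow_half_sq hY] at key
  exact key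

lemma nq_le_sum (hq : 1 ≤ q) (x : Fin n → ℝ) : nq q x ≤ ∑ i, |x i| := by
  classical
  have h1 : x = ∑ i, (x i) • (Pi.single i 1 : Fin n → ℝ) := by
    ext j
    simp [Finset.sum_apply, Pi.single_apply]
  calc nq q x = nq q (∑ i, (x i) • (Pi.single i 1 : Fin n → ℝ)) := by rw [← h1]
    _ ≤ ∑ i, nq q ((x i) • (Pi.single i 1 : Fin n → ℝ)) := nq_sum hq _ _
    _ = ∑ i, |x i| := by
      refine Finset.sum_congr rfl fun i _ => ?_
      rw [nq_smul hq]
      have : nq q (Pi.single i 1 : Fin n → ℝ) = 1 := by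
        have : Fact (1 ≤ q) := ⟨hq⟩
        unfold nq
        have h2 := PiLp.norm_single (p := q) (β := fun _ : Fin n => ℝ) i (1 : ℝ)
        rw [norm_one] at h2
        exact h2
      rw [this, mul_one]

lemma abs_le_nq (hq : 1 ≤ q) (x : Fin n → ℝ) (i : Fin n) : |x i| ≤ nq q x := by
  have : Fact (1 ≤ q) := ⟨hq⟩
  have := PiLp.norm_apply_le (WithLp.toLp q x) i
  simpa [nq] using this

lemma abs_dg_le_schatten (hq : 1 ≤ q) (U : unitaryGroup (Fin n) ℂ) {C : Mat n}
    (hC : C.IsHermitian) (i : Fin n) : |dg U C i| ≤ schatten q C :=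
  (abs_le_nq hq _ i).trans (nq_dg_le hq U hC)

lemma dg_cj (U : unitaryGroup (Fin n) ℂ) (c : Fin n → ℝ) : dg U (cj U (fun i => (c i : ℂ))) = c :=
  dg_conj U c

lemma dg_one (U : unitaryGroup (Fin n) ℂ) : dg U (1 : Mat n) = 1 := by
  ext i
  unfold dg
  rw [mul_one, unitary_star_mul]
  simp

lemma schatten_cj_le (hq : 1 ≤ q) (U : unitaryGroup (Fin n) ℂ) (c : Fin n → ℝ) :
    schatten q (cj U (fun i => (c i : ℂ))) ≤ ∑ i, |c i| := by
  have := schatten_conj hq U c
  unfold cj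
  rw [this]
  exact nq_le_sum hq c

/-- the eigenvalues are bounded below by `L` if `N ≥ L` -/
lemma le_eig {N : Mat n} {L : ℝ} (h : (N - L • (1 : Mat n)).PosSemidef)
    {V : unitaryGroup (Fin n) ℂ} {d : Fin n → ℝ} (hV : N = cj V (fun i => (d i : ℂ))) (i : Fin n) :
    L ≤ d i := by
  have h1 := dg_nonneg V h i
  rw [dg_sub, dg_smul, hV, dg_cj, dg_one] at h1
  simpa using h1

lemma eig_le {N : Mat n} {L : ℝ} (h : (L • (1 : Mat n) - N).PosSemidef)
    {V : unitaryGroup (Fin n) ℂ} {d : Fin n → ℝ} (hV : N = cj V (fun i => (d i : ℂ))) (i : Fin n) :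
    d i ≤ L := by
  have h1 := dg_nonneg V h i
  rw [dg_sub, dg_smul, hV, dg_cj, dg_one] at h1
  simpa using h1

/-- rank one matrix of a real vector in dimension two -/
noncomputable def pr (a b : ℝ) : Mat 2 :=
  !![((a * a : ℝ) : ℂ), ((a * b : ℝ) : ℂ); ((a * b : ℝ) : ℂ), ((b * b : ℝ) : ℂ)]

lemma pr_posSemidef (a b : ℝ) : (pr a b).PosSemidef := by
  have h : pr a b = vecMulVec ![(a : ℂ), (b : ℂ)] (star ![(a : ℂ), (b : ℂ)]) := by
    ext i j
    fin_cases i <;> fin_cases j <;> simp [pr, vecMulVec_apply, mul_comm]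
  rw [h]
  exact posSemidef_vecMulVec_self_star _

/-- a rotation -/
noncomputable def rot (a b : ℝ) (h : a ^ 2 + b ^ 2 = 1) : unitaryGroup (Fin 2) ℂ :=
  ⟨!![(a : ℂ), ((-b : ℝ) : ℂ); (b : ℂ), (a : ℂ)], by
    have hc : (a : ℂ) * a + b * b = 1 := by
      have := congrArg (fun x : ℝ => (x : ℂ)) h
      push_cast at this
      linear_combination this
    rw [mem_unitaryGroup_iff]
    ext i j
    fin_cases i <;> fin_cases j <;>
      simp [Matrix.mul_apply, Fin.sum_univ_two, star_apply] <;>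
      first | linear_combination hc | ring⟩

lemma cj_rot (a b : ℝ) (h : a ^ 2 + b ^ 2 = 1) (c : Fin 2 → ℝ) :
    cj (rot a b h) (fun i => (c i : ℂ)) = c 0 • pr a b + c 1 • pr (-b) a := by
  unfold cj rot
  ext i j
  fin_cases i <;> fin_cases j <;>
    simp [Matrix.mul_apply, Fin.sum_univ_two, star_apply, pr, vecMul_diagonal] <;> ring

lemma cj_one_two (c : Fin 2 → ℝ) :
    cj (1 : unitaryGroup (Fin 2) ℂ) (fun i => (c i : ℂ)) = c 0 • pr 1 0 + c 1 • pr 0 1 := by
  unfold cj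
  ext i j
  fin_cases i <;> fin_cases j <;> simp [pr]

lemma schatten_le_of_sq (hq : 1 ≤ q) {C : Mat 2} (hC : C.IsHermitian) {c : ℝ} (hc : 0 ≤ c)
    (h : C * C = (c ^ 2) • (1 : Mat 2)) : schatten q C ≤ 2 * c := by
  obtain ⟨V, d, rfl⟩ := exists_cj hC
  have h1 : ∀ i, |d i| = c := by
    intro i
    have h2 := congrFun (congrArg (dg V) h) i
    have h3 : cj V (fun i => (d i : ℂ)) * cj V (fun i => (d i : ℂ)) =
        cj V (fun i => ((d i * d i : ℝ) : ℂ)) := by
      rw [cj_mul]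
      congr 1
      ext i
      simp
    rw [h3, dg_cj, dg_smul, dg_one] at h2
    simp only [Pi.smul_apply, Pi.one_apply, smul_eq_mul, mul_one] at h2
    rw [← abs_of_nonneg hc]
    rw [← sq_eq_sq_iff_abs_eq_abs, pow_two, h2]
  refine (schatten_cj_le hq V d).trans ?_
  rw [Fin.sum_univ_two, h1, h1]
  linarith

/-- the first matrix of the example -/
noncomputable def exX (z : ℝ) : Mat 2 := cj (1 : unitaryGroup (Fin 2) ℂ) (fun i => ((![1, z] i : ℝ) : ℂ))

/-- the rotation of the example -/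
noncomputable def exR : unitaryGroup (Fin 2) ℂ := rot (12 / 13) (5 / 13) (by norm_num)

/-- the second matrix of the example -/
noncomputable def exY (z : ℝ) : Mat 2 := cj exR (fun i => ((![3, z] i : ℝ) : ℂ))

lemma posDef_cj (U : unitaryGroup (Fin n) ℂ) (c : Fin n → ℝ) (hc : ∀ i, 0 < c i) :
    (cj U (fun i => (c i : ℂ))).PosDef := by
  unfold cj
  rw [star_eq_conjTranspose]
  have h1 : (diagonal (fun i => (c i : ℂ)) : Mat n).PosDef := by
    rw [posDef_diagonal_iff]
    intro i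
    exact_mod_cast hc i
  refine h1.mul_mul_conjTranspose_same ?_
  intro x y hxy
  have := congrArg (fun v => v ᵥ* (star (U : Mat n))) hxy
  simpa [Matrix.vecMul_vecMul, unitary_mul_star] using this

lemma mpow_exX (z p : ℝ) : mpow (exX z) p = (1 : ℝ) • pr 1 0 + (z ^ p) • pr 0 1 := by
  unfold exX
  rw [mpow_cj, cj_one_two]
  simp

lemma mpow_exY (z p : ℝ) :
    mpow (exY z) p = ((3 : ℝ) ^ p) • pr (12 / 13) (5 / 13) + (z ^ p) • pr (-(5 / 13)) (12 / 13) := by
  unfold exY exR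
  rw [mpow_cj, cj_rot]
  simp

lemma schatten_pr (hq : 1 ≤ q) {a b : ℝ} (h : a ^ 2 + b ^ 2 = 1) : schatten q (pr a b) ≤ 1 := by
  have h1 := cj_rot a b h ![1, 0]
  have h2 : cj (rot a b h) (fun i => ((![1, 0] i : ℝ) : ℂ)) = pr a b := by
    rw [h1]; simp
  rw [← h2]
  refine (schatten_cj_le hq _ _).trans ?_
  rw [Fin.sum_univ_two]
  simp

theorem not_monotonic_of_small (hq : 1 ≤ q) {p z : ℝ} (hp : p ≠ 0) (hz : 0 < z) (hz' : z ≤ 1 / 100)
    (hm : ∀ (V : unitaryGroup (Fin 2) ℂ) (d : Fin 2 → ℝ),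
      ((1 / 2 : ℝ) • mpow (exX z) p + (1 / 2 : ℝ) • mpow (exY z) p) = cj V (fun i => (d i : ℂ)) →
      ∀ i, |d i ^ (1 / p)| ≤ 1 / 10) :
    ¬ Monotonic p q := by
  intro hmon
  have hX : (exX z).PosDef := by
    apply posDef_cj
    intro i
    fin_cases i
    · simp
    · simpa using hz
  have hY : (exY z).PosDef := by
    apply posDef_cj
    intro i
    fin_cases i
    · simp
    · simpa using hz
  have h1 := hmon 2 (exX z) (exY z) hX hY (a := 1 / 2) (by constructor <;> norm_num) (b := 1)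
    (by constructor <;> norm_num) (by norm_num)
  simp only at h1
  rw [mean_one hp hX] at h1
  have hNh : ((1 / 2 : ℝ) • mpow (exX z) p + (1 / 2 : ℝ) • mpow (exY z) p).IsHermitian := by
    rw [mpow_exX, mpow_exY]
    have hz1 := (Real.rpow_nonneg hz.le p)
    exact (isHermitian_smul ((isHermitian_smul (pr_posSemidef _ _).1 _).add
      (isHermitian_smul (pr_posSemidef _ _).1 _)) _).add
      (isHermitian_smul ((isHermitian_smul (pr_posSemidef _ _).1 _).add
      (isHermitian_smul (pr_posSemidef _ _).1 _)) _)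
  obtain ⟨V, d, hV⟩ := exists_cj hNh
  have hmean : mean p (1 / 2) (exX z) (exY z) = cj V (fun i => ((d i ^ (1 / p) : ℝ) : ℂ)) := by
    unfold mean
    rw [show (1 - 1 / 2 : ℝ) = 1 / 2 by norm_num, hV, mpow_cj]
  have hms : schatten q (mean p (1 / 2) (exX z) (exY z)) ≤ 1 / 5 := by
    rw [hmean]
    refine (schatten_cj_le hq _ _).trans ?_
    rw [Fin.sum_univ_two]
    have := hm V d hV 0
    have := hm V d hV 1
    linarith
  have hmh : (mean p (1 / 2) (exX z) (exY z)).IsHermitian := by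
    rw [hmean]; exact cj_isHermitian _ _
  have hY3 : 3 ≤ schatten q (exY z) := by
    have h2 := abs_dg_le_schatten hq exR hY.1 0
    unfold exY at h2 ⊢
    rw [dg_cj] at h2
    simpa using h2
  have h2 : schatten q (exY z) ≤ schatten q (mean p (1 / 2) (exX z) (exY z)) +
      schatten q (mean p (1 / 2) (exX z) (exY z) - exY z) := by
    have := schatten_sub_le hq hmh (hmh.sub hY.1)
    rwa [sub_sub_cancel] at this
  -- the upper bound for the distance of the endpoints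
  have e1 : exX z = (1 : ℝ) • pr 1 0 + z • pr 0 1 := by
    unfold exX; rw [cj_one_two]; simp
  have e2 : exY z = (3 : ℝ) • pr (12 / 13) (5 / 13) + z • pr (-(5 / 13)) (12 / 13) := by
    unfold exY exR; rw [cj_rot]; simp
  have e3 : exX z - exY z = ((-2 : ℝ) • pr (12 / 13) (5 / 13) + (pr 1 0 - pr (12 / 13) (5 / 13))) +
      (z • pr 0 1 - z • pr (-(5 / 13)) (12 / 13)) := by
    rw [e1, e2]
    module
  have hh : ∀ a b : ℝ, (pr a b).IsHermitian := fun a b => (pr_posSemidef a b).1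
  have h3 : schatten q (exX z - exY z) ≤ 2 + 10 / 13 + 2 * z := by
    rw [e3]
    have i1 := schatten_add_le hq ((isHermitian_smul (hh (12 / 13) (5 / 13)) (-2)).add
      ((hh 1 0).sub (hh (12 / 13) (5 / 13))))
      ((isHermitian_smul (hh 0 1) z).sub (isHermitian_smul (hh (-(5 / 13)) (12 / 13)) z))
    have i2 := schatten_add_le hq (isHermitian_smul (hh (12 / 13) (5 / 13)) (-2))
      ((hh 1 0).sub (hh (12 / 13) (5 / 13)))
    have i3 := schatten_sub_le hq (isHermitian_smul (hh 0 1) z)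
      (isHermitian_smul (hh (-(5 / 13)) (12 / 13)) z)
    rw [schatten_smul hq (hh _ _)] at i2
    rw [schatten_smul hq (hh _ _), schatten_smul hq (hh _ _), abs_of_pos hz] at i3
    have j1 := schatten_pr hq (show (12 / 13 : ℝ) ^ 2 + (5 / 13) ^ 2 = 1 by norm_num)
    have j2 := schatten_pr hq (show (0 : ℝ) ^ 2 + 1 ^ 2 = 1 by norm_num)
    have j3 := schatten_pr hq (show (-(5 / 13) : ℝ) ^ 2 + (12 / 13) ^ 2 = 1 by norm_num)
    have j4 : schatten q (pr 1 0 - pr (12 / 13) (5 / 13)) ≤ 2 * (5 / 13) := by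
      apply schatten_le_of_sq hq ((hh 1 0).sub (hh (12 / 13) (5 / 13))) (by norm_num)
      ext i j
      fin_cases i <;> fin_cases j <;>
        simp [Matrix.mul_apply, Fin.sum_univ_two, pr] <;> norm_num
    rw [show |(-2 : ℝ)| = 2 by norm_num] at i2
    nlinarith
  rw [show (10 / 13 : ℝ) = 10 / 13 by rfl] at h3
  linarith

lemma pr_id1 : pr 0 1 + pr (-(5 / 13)) (12 / 13) - (1 / 13 : ℝ) • (1 : Mat 2) =
    (12 / 169 : ℝ) • pr 1 (-5) := by
  ext i j
  fin_cases i <;> fin_cases j <;> simp [pr] <;> norm_num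

lemma pr_id2 : (25 / 13 : ℝ) • (1 : Mat 2) - pr 1 0 - pr (12 / 13) (5 / 13) =
    (12 / 169 : ℝ) • pr 1 (-5) := by
  ext i j
  fin_cases i <;> fin_cases j <;> simp [pr] <;> norm_num

lemma pr_id3 : (1 : Mat 2) = pr 1 0 + pr 0 1 := by
  ext i j
  fin_cases i <;> fin_cases j <;> simp [pr]

lemma pr_id4 : (1 : Mat 2) = pr (12 / 13) (5 / 13) + pr (-(5 / 13)) (12 / 13) := by
  ext i j
  fin_cases i <;> fin_cases j <;> simp [pr] <;> norm_num

/-- negative exponents are never monotonic -/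
theorem not_monotonic_neg (hq : 1 ≤ q) {p : ℝ} (hp : p < 0) : ¬ Monotonic p q := by
  set z : ℝ := (1 / 100) * (26 : ℝ) ^ (1 / p) with hz
  have h26 : (0 : ℝ) < (26 : ℝ) ^ (1 / p) := by positivity
  have h26' : (26 : ℝ) ^ (1 / p) ≤ 1 := by
    apply Real.rpow_le_one_of_one_le_of_nonpos (by norm_num)
    exact div_nonpos_of_nonneg_of_nonpos zero_le_one hp.le
  have hz0 : 0 < z := by positivity
  have hz1 : z ≤ 1 / 100 := by
    rw [hz]; linarith
  refine not_monotonic_of_small hq hp.ne hz0 hz1 ?_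
  intro V d hV i
  have hzp : 0 < z ^ p := Real.rpow_pos_of_pos hz0 p
  have h3p : 0 < (3 : ℝ) ^ p := by positivity
  have hL : ((1 / 2 : ℝ) • mpow (exX z) p + (1 / 2 : ℝ) • mpow (exY z) p -
      (z ^ p / 26) • (1 : Mat 2)).PosSemidef := by
    have e : (1 / 2 : ℝ) • mpow (exX z) p + (1 / 2 : ℝ) • mpow (exY z) p -
      (z ^ p / 26) • (1 : Mat 2) = (1 / 2 : ℝ) • pr 1 0 + ((3 : ℝ) ^ p / 2) • pr (12 / 13) (5 / 13) +
        (z ^ p / 2) • ((12 / 169 : ℝ) • pr 1 (-5)) := by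
      rw [← pr_id1, mpow_exX, mpow_exY]
      module
    rw [e]
    exact (((pr_posSemidef _ _).smul (by norm_num)).add ((pr_posSemidef _ _).smul (by positivity))).add
      (((pr_posSemidef _ _).smul (by norm_num)).smul (by positivity))
  have h1 := le_eig hL hV i
  have hLp : 0 < z ^ p / 26 := by positivity
  have hd : 0 < d i := lt_of_lt_of_le hLp h1
  rw [abs_of_nonneg (Real.rpow_nonneg hd.le _)]
  have h2 : d i ^ (1 / p) ≤ (z ^ p / 26) ^ (1 / p) := by
    apply Real.rpow_le_rpow_of_nonpos hLp h1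
    exact div_nonpos_of_nonneg_of_nonpos zero_le_one hp.le
  refine h2.trans ?_
  rw [Real.div_rpow hzp.le (by norm_num), ← Real.rpow_mul hz0.le, mul_one_div_cancel hp.ne,
    Real.rpow_one, hz, mul_div_assoc, div_self h26.ne']
  norm_num

/-- small positive exponents are never monotonic -/
theorem not_monotonic_small (hq : 1 ≤ q) {p : ℝ} (hp : 0 < p) (hp' : p ≤ 1 / 87) :
    ¬ Monotonic p q := by
  have h30 : (25 / 26) * (3 : ℝ) ^ p < (1 / 10 : ℝ) ^ p := by
    have h1 : (30 : ℝ) ^ p < 26 / 25 := by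
      have h2 : (30 : ℝ) ^ p ≤ (30 : ℝ) ^ (1 / 87 : ℝ) :=
        Real.rpow_le_rpow_of_exponent_le (by norm_num) hp'
      refine lt_of_le_of_lt h2 ?_
      have h3 : (30 : ℝ) < (26 / 25) ^ 87 := by norm_num
      have h4 : (30 : ℝ) ^ (1 / 87 : ℝ) < ((26 / 25 : ℝ) ^ 87) ^ (1 / 87 : ℝ) :=
        Real.rpow_lt_rpow (by norm_num) h3 (by norm_num)
      refine h4.trans_eq ?_
      rw [← Real.rpow_natCast, ← Real.rpow_mul (by norm_num)]
      norm_num
    have h5 : (30 : ℝ) ^ p = 3 ^ p / (1 / 10 : ℝ) ^ p := by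
      rw [← Real.div_rpow (by norm_num) (by norm_num)]
      norm_num
    rw [h5, div_lt_iff₀ (by positivity)] at h1
    linarith
  set g : ℝ := (1 / 10 : ℝ) ^ p - (25 / 26) * (3 : ℝ) ^ p with hg
  have hg0 : 0 < g := by rw [hg]; linarith
  set z : ℝ := min (1 / 100) (g ^ (1 / p)) with hz
  have hz0 : 0 < z := lt_min (by norm_num) (by positivity)
  have hz1 : z ≤ 1 / 100 := min_le_left _ _
  have hzp : 0 < z ^ p := Real.rpow_pos_of_pos hz0 p
  have hzg : z ^ p ≤ g := by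
    have h1 : z ^ p ≤ (g ^ (1 / p)) ^ p := Real.rpow_le_rpow hz0.le (min_le_right _ _) hp.le
    rwa [← Real.rpow_mul hg0.le, one_div_mul_cancel hp.ne', Real.rpow_one] at h1
  refine not_monotonic_of_small hq hp.ne' hz0 hz1 ?_
  intro V d hV i
  have h3p : 1 ≤ (3 : ℝ) ^ p := Real.one_le_rpow (by norm_num) hp.le
  have hU : (((25 / 26) * (3 : ℝ) ^ p + z ^ p) • (1 : Mat 2) -
      ((1 / 2 : ℝ) • mpow (exX z) p + (1 / 2 : ℝ) • mpow (exY z) p)).PosSemidef := by
    have e : ((25 / 26) * (3 : ℝ) ^ p + z ^ p) • (1 : Mat 2) -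
      ((1 / 2 : ℝ) • mpow (exX z) p + (1 / 2 : ℝ) • mpow (exY z) p) =
        (((3 : ℝ) ^ p - 1) / 2) • pr 1 0 + ((3 : ℝ) ^ p / 2) • ((12 / 169 : ℝ) • pr 1 (-5)) +
        (z ^ p / 2) • ((1 : Mat 2) - pr 0 1) +
        (z ^ p / 2) • ((1 : Mat 2) - pr (-(5 / 13)) (12 / 13)) := by
      rw [← pr_id2, mpow_exX, mpow_exY]
      module
    have e1 : (1 : Mat 2) - pr 0 1 = pr 1 0 := by rw [pr_id3]; abel
    have e2 : (1 : Mat 2) - pr (-(5 / 13)) (12 / 13) = pr (12 / 13) (5 / 13) := by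
      rw [pr_id4]; abel
    rw [e, e1, e2]
    exact ((((pr_posSemidef _ _).smul (by linarith)).add
      (((pr_posSemidef _ _).smul (by norm_num)).smul (by positivity))).add
      ((pr_posSemidef _ _).smul (by positivity))).add ((pr_posSemidef _ _).smul (by positivity))
  have h1 := eig_le hU hV i
  have hL : (((1 / 2 : ℝ) • mpow (exX z) p + (1 / 2 : ℝ) • mpow (exY z) p) -
      (0 : ℝ) • (1 : Mat 2)).PosSemidef := by
    rw [zero_smul, sub_zero, mpow_exX, mpow_exY]
    exact ((((pr_posSemidef _ _).smul (by norm_num)).add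
      ((pr_posSemidef _ _).smul hzp.le)).smul (by norm_num)).add
      ((((pr_posSemidef _ _).smul (by positivity)).add
      ((pr_posSemidef _ _).smul hzp.le)).smul (by norm_num))
  have hd : 0 ≤ d i := le_eig hL hV i
  rw [abs_of_nonneg (Real.rpow_nonneg hd _)]
  have h2 : d i ≤ (1 / 10 : ℝ) ^ p := by
    refine h1.trans ?_
    rw [hg] at hzg
    linarith
  have h3 : d i ^ (1 / p) ≤ ((1 / 10 : ℝ) ^ p) ^ (1 / p) :=
    Real.rpow_le_rpow hd h2 (by positivity)
  rwa [← Real.rpow_mul (by norm_num), mul_one_div_cancel hp.ne', Real.rpow_one] at h3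

end Pool.Agent.Lib_helper41.PM
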