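import Pool.Agent.Lib_helper41.PM.Defs

/-!
# Schatten norms of Hermitian matrices (elementary, via pinching and Birkhoff's theorem)
-/

open Matrix
open scoped ENNReal BigOperators ComplexOrder

namespace Pool.Agent.Lib_helper41.PM

variable {n : ℕ} {q : ℝ≥0∞}

/-- `ℓ_q` norm of a real vector -/
noncomputable def nq (q : ℝ≥0∞) (x : Fin n → ℝ) : ℝ := ‖WithLp.toLp q x‖

lemma nq_mono (hq : 1 ≤ q) {x y : Fin n → ℝ} (h : ∀ i, |x i| ≤ |y i|) : nq q x ≤ nq q y := by
  unfold nq
  rcases eq_or_ne q ∞ with rfl | hq'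
  · rw [PiLp.norm_eq_ciSup, PiLp.norm_eq_ciSup]
    rcases isEmpty_or_nonempty (Fin n) with he | he
    · simp
    · apply ciSup_mono (Set.finite_range _).bddAbove
      intro i
      simpa using h i
  · have h0 : 0 < q.toReal := ENNReal.toReal_pos (by positivity) hq'
    rw [PiLp.norm_eq_sum h0, PiLp.norm_eq_sum h0]
    apply Real.rpow_le_rpow
    · positivity
    · apply Finset.sum_le_sum
      intro i _
      apply Real.rpow_le_rpow (norm_nonneg _) _ h0.le
      simpa using h i
    · positivity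

lemma nq_abs (hq : 1 ≤ q) {x y : Fin n → ℝ} (h : ∀ i, |x i| = |y i|) : nq q x = nq q y :=
  le_antisymm (nq_mono hq fun i => (h i).le) (nq_mono hq fun i => (h i).ge)

lemma nq_nonneg (hq : 1 ≤ q) (x : Fin n → ℝ) : 0 ≤ nq q x := by
  have : Fact (1 ≤ q) := ⟨hq⟩
  exact norm_nonneg _

lemma nq_add (hq : 1 ≤ q) (x y : Fin n → ℝ) : nq q (x + y) ≤ nq q x + nq q y := by
  have : Fact (1 ≤ q) := ⟨hq⟩
  unfold nq
  rw [WithLp.toLp_add]
  exact norm_add_le _ _

lemma nq_sub (hq : 1 ≤ q) (x y : Fin n → ℝ) : nq q (x - y) ≤ nq q x + nq q y := by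
  have : Fact (1 ≤ q) := ⟨hq⟩
  unfold nq
  rw [WithLp.toLp_sub]
  exact norm_sub_le _ _

lemma nq_smul (hq : 1 ≤ q) (c : ℝ) (x : Fin n → ℝ) : nq q (c • x) = |c| * nq q x := by
  have : Fact (1 ≤ q) := ⟨hq⟩
  unfold nq
  rw [WithLp.toLp_smul, norm_smul, Real.norm_eq_abs]

lemma nq_sum (hq : 1 ≤ q) {ι : Type} (s : Finset ι) (x : ι → Fin n → ℝ) :
    nq q (∑ i ∈ s, x i) ≤ ∑ i ∈ s, nq q (x i) := by
  classical
  induction s using Finset.induction_on with
  | empty =>
    simp only [Finset.sum_empty]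
    have := nq_smul (n := n) hq 0 0
    rw [zero_smul, abs_zero, zero_mul] at this
    exact this.le
  | insert a s ha ih =>
    rw [Finset.sum_insert ha, Finset.sum_insert ha]
    exact (nq_add hq _ _).trans (by linarith)

lemma nq_perm (hq : 1 ≤ q) (σ : Equiv.Perm (Fin n)) (x : Fin n → ℝ) :
    nq q (x ∘ σ) = nq q x := by
  have : Fact (1 ≤ q) := ⟨hq⟩
  unfold nq
  have h := (LinearIsometryEquiv.piLpCongrLeft q ℝ ℝ σ.symm).norm_map (WithLp.toLp q x)
  rw [← h]
  congr 1

/-- doubly stochastic matrices do not increase the norm -/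
lemma nq_ds (hq : 1 ≤ q) {M : Matrix (Fin n) (Fin n) ℝ} (hM : M ∈ doublyStochastic ℝ (Fin n))
    (x : Fin n → ℝ) : nq q (M *ᵥ x) ≤ nq q x := by
  classical
  obtain ⟨w, hw0, hw1, rfl⟩ := exists_eq_sum_perm_of_mem_doublyStochastic hM
  have h1 : (∑ σ, w σ • Equiv.Perm.permMatrix ℝ σ) *ᵥ x = ∑ σ, w σ • (x ∘ σ) := by
    rw [Matrix.sum_mulVec]
    refine Finset.sum_congr rfl fun σ _ => ?_
    rw [Matrix.smul_mulVec]
    congr 1
    ext i
    simp [Matrix.mulVec, dotProduct, Equiv.Perm.permMatrix, PEquiv.toMatrix_apply]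
  rw [h1]
  refine (nq_sum hq _ _).trans ?_
  have h2 : ∀ σ ∈ (Finset.univ : Finset (Equiv.Perm (Fin n))), nq q (w σ • (x ∘ σ)) = w σ * nq q x := by
    intro σ _
    rw [nq_smul hq, nq_perm hq, abs_of_nonneg (hw0 σ)]
  rw [Finset.sum_congr rfl h2, ← Finset.sum_mul, hw1, one_mul]

lemma nq_congr (hq : 1 ≤ q) {f g : Fin n → ℝ}
    (h : (Finset.univ : Finset (Fin n)).val.map f = (Finset.univ : Finset (Fin n)).val.map g) :
    nq q f = nq q g := by
  unfold nq
  rcases eq_or_ne q ∞ with rfl | hq'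
  · rw [PiLp.norm_eq_ciSup, PiLp.norm_eq_ciSup]
    have hr : Set.range (fun i => ‖f i‖) = Set.range (fun i => ‖g i‖) := by
      ext x
      have h1 : ∀ u : Fin n → ℝ, x ∈ Set.range (fun i => ‖u i‖) ↔
          x ∈ ((Finset.univ : Finset (Fin n)).val.map u).map (fun y => ‖y‖) := by
        intro u
        simp
      rw [h1, h1, h]
    show sSup (Set.range (fun i => ‖f i‖)) = sSup (Set.range (fun i => ‖g i‖))
    rw [hr]
  · have h0 : 0 < q.toReal := ENNReal.toReal_pos (by positivity) hq'
    rw [PiLp.norm_eq_sum h0, PiLp.norm_eq_sum h0]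
    have h1 : ∀ u : Fin n → ℝ, ∑ i, ‖u i‖ ^ q.toReal =
        (((Finset.univ : Finset (Fin n)).val.map u).map (fun y => ‖y‖ ^ q.toReal)).sum := by
      intro u
      rw [Multiset.map_map]
      rfl
    show (∑ i, ‖f i‖ ^ q.toReal) ^ (1 / q.toReal) = (∑ i, ‖g i‖ ^ q.toReal) ^ (1 / q.toReal)
    rw [h1, h1, h]

/-- the Schatten norm of `U diag(c) U*` -/
lemma schatten_conj (hq : 1 ≤ q) (U : unitaryGroup (Fin n) ℂ) (c : Fin n → ℝ) :
    schatten q ((U : Mat n) * diagonal (fun i => (c i : ℂ)) * star (U : Mat n)) = nq q c := by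
  set A : Mat n := (U : Mat n) * diagonal (fun i => (c i : ℂ)) * star (U : Mat n) with hA
  have hU : star (U : Mat n) * (U : Mat n) = 1 := by
    have := U.2
    rw [mem_unitaryGroup_iff'] at this
    exact this
  have hAA : Aᴴ * A = (U : Mat n) * diagonal (fun i => ((c i ^ 2 : ℝ) : ℂ)) * star (U : Mat n) := by
    have h1 : Aᴴ = A := by
      rw [hA, conjTranspose_mul, conjTranspose_mul, diagonal_conjTranspose]
      rw [← star_eq_conjTranspose, ← star_eq_conjTranspose, star_star, mul_assoc]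
      congr 2
      congr 1
      ext i
      simp
    rw [h1, hA]
    calc _ = (U : Mat n) * diagonal (fun i => (c i : ℂ)) * (star (U : Mat n) * (U : Mat n)) *
          diagonal (fun i => (c i : ℂ)) * star (U : Mat n) := by
          simp only [mul_assoc]
      _ = _ := by
          rw [hU, mul_one, mul_assoc (U : Mat n), diagonal_mul_diagonal]
          congr 2
          congr 1
          ext i
          push_cast
          ring
  have hchar : (Aᴴ * A).charpoly = ∏ i, (Polynomial.X - Polynomial.C ((c i ^ 2 : ℝ) : ℂ)) := by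
    rw [hAA, charpoly_mul_comm, ← mul_assoc, hU, one_mul, charpoly_diagonal]
  have hroots := (isHermitian_conjTranspose_mul_self A).roots_charpoly_eq_eigenvalues
  have hprod : (∏ i, (Polynomial.X - Polynomial.C ((c i ^ 2 : ℝ) : ℂ))) =
      (((Finset.univ : Finset (Fin n)).val.map fun i => ((c i ^ 2 : ℝ) : ℂ)).map
        fun a => Polynomial.X - Polynomial.C a).prod := by
    rw [Multiset.map_map]; rfl
  rw [hchar, hprod, Polynomial.roots_multiset_prod_X_sub_C] at hroots
  have hms : (Finset.univ : Finset (Fin n)).val.map (fun i => c i ^ 2) =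
      (Finset.univ : Finset (Fin n)).val.map
        (isHermitian_conjTranspose_mul_self A).eigenvalues := by
    apply Multiset.map_injective (f := ((↑) : ℝ → ℂ)) Complex.ofReal_injective
    rw [Multiset.map_map, Multiset.map_map]
    exact hroots
  have h2 : nq q (fun i => √(c i ^ 2)) = nq q (sv A) := by
    apply nq_congr hq
    have := congrArg (Multiset.map Real.sqrt) hms
    rw [Multiset.map_map, Multiset.map_map] at this
    exact this
  unfold schatten
  show nq q (sv A) = nq q c
  rw [← h2]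
  apply nq_abs hq
  intro i
  rw [Real.sqrt_sq_eq_abs, abs_abs]

/-- real diagonal of `U* C U` -/
noncomputable def dg (U : unitaryGroup (Fin n) ℂ) (C : Mat n) (i : Fin n) : ℝ :=
  ((star (U : Mat n) * C * (U : Mat n)) i i).re

lemma dg_add (U : unitaryGroup (Fin n) ℂ) (C D : Mat n) : dg U (C + D) = dg U C + dg U D := by
  ext i
  simp [dg, mul_add, add_mul]

lemma dg_sub (U : unitaryGroup (Fin n) ℂ) (C D : Mat n) : dg U (C - D) = dg U C - dg U D := by
  ext i
  simp [dg, mul_sub, sub_mul]

lemma dg_smul (U : unitaryGroup (Fin n) ℂ) (a : ℝ) (C : Mat n) : dg U (a • C) = a • dg U C := by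
  ext i
  simp [dg]

/-- the spectral theorem in the form we use -/
lemma exists_diag {C : Mat n} (hC : C.IsHermitian) : ∃ (U : unitaryGroup (Fin n) ℂ)
    (c : Fin n → ℝ), C = (U : Mat n) * diagonal (fun i => (c i : ℂ)) * star (U : Mat n) := by
  refine ⟨hC.eigenvectorUnitary, hC.eigenvalues, ?_⟩
  have := hC.spectral_theorem
  rw [Unitary.conjStarAlgAut_apply] at this
  exact this

lemma unitary_star_mul (U : unitaryGroup (Fin n) ℂ) : star (U : Mat n) * (U : Mat n) = 1 := by
  have := U.2
  rw [mem_unitaryGroup_iff'] at this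
  exact this

lemma unitary_mul_star (U : unitaryGroup (Fin n) ℂ) : (U : Mat n) * star (U : Mat n) = 1 := by
  have := U.2
  rw [mem_unitaryGroup_iff] at this
  exact this

lemma dg_conj (U : unitaryGroup (Fin n) ℂ) (c : Fin n → ℝ) :
    dg U ((U : Mat n) * diagonal (fun i => (c i : ℂ)) * star (U : Mat n)) = c := by
  ext i
  unfold dg
  have : star (U : Mat n) * ((U : Mat n) * diagonal (fun i => (c i : ℂ)) * star (U : Mat n)) *
      (U : Mat n) = diagonal (fun i => (c i : ℂ)) := by
    calc _ = (star (U : Mat n) * (U : Mat n)) * diagonal (fun i => (c i : ℂ)) *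
          (star (U : Mat n) * (U : Mat n)) := by simp only [mul_assoc]
      _ = _ := by rw [unitary_star_mul, one_mul, mul_one]
  rw [this]
  simp

/-- pinching inequality -/
lemma nq_dg_le (hq : 1 ≤ q) (V : unitaryGroup (Fin n) ℂ) {C : Mat n} (hC : C.IsHermitian) :
    nq q (dg V C) ≤ schatten q C := by
  obtain ⟨U, c, rfl⟩ := exists_diag hC
  rw [schatten_conj hq]
  set W : unitaryGroup (Fin n) ℂ := star V * U with hW
  have hWc : (W : Mat n) = star (V : Mat n) * (U : Mat n) := rfl
  have h1 : star (V : Mat n) * ((U : Mat n) * diagonal (fun i => (c i : ℂ)) * star (U : Mat n)) *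
      (V : Mat n) = (W : Mat n) * diagonal (fun i => (c i : ℂ)) * star (W : Mat n) := by
    rw [hWc, star_mul, star_star]
    simp only [mul_assoc]
  let M : Matrix (Fin n) (Fin n) ℝ := fun i j => Complex.normSq ((W : Mat n) i j)
  have hM : M ∈ doublyStochastic ℝ (Fin n) := by
    rw [mem_doublyStochastic]
    refine ⟨fun i j => Complex.normSq_nonneg _, ?_, ?_⟩
    · ext i
      have h2 := congrFun (congrFun (unitary_mul_star W) i) i
      rw [mul_apply, one_apply_eq] at h2
      have h3 : (∑ j, (M i j : ℂ)) = 1 := by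
        rw [← h2]
        refine Finset.sum_congr rfl fun j _ => ?_
        rw [star_apply]
        exact (Complex.mul_conj _).symm
      simp only [mulVec, dotProduct, Pi.one_apply, mul_one]
      exact_mod_cast h3
    · ext j
      have h2 := congrFun (congrFun (unitary_star_mul W) j) j
      rw [mul_apply, one_apply_eq] at h2
      have h3 : (∑ i, (M i j : ℂ)) = 1 := by
        rw [← h2]
        refine Finset.sum_congr rfl fun i _ => ?_
        rw [star_apply, mul_comm]
        exact (Complex.mul_conj _).symm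
      simp only [vecMul, dotProduct, Pi.one_apply, one_mul]
      exact_mod_cast h3
  have h4 : dg V ((U : Mat n) * diagonal (fun i => (c i : ℂ)) * star (U : Mat n)) = M *ᵥ c := by
    ext i
    unfold dg
    rw [h1, mul_apply]
    simp only [mulVec, dotProduct, mul_diagonal, star_apply]
    rw [Complex.re_sum]
    refine Finset.sum_congr rfl fun j _ => ?_
    have : (W : Mat n) i j * (c j : ℂ) * star ((W : Mat n) i j) =
        ((Complex.normSq ((W : Mat n) i j) * c j : ℝ) : ℂ) := by
      push_cast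
      rw [← Complex.mul_conj]
      simp only [RCLike.star_def]
      ring
    rw [this, Complex.ofReal_re]
  rw [h4]
  exact nq_ds hq hM c

/-- attained at an eigenbasis -/
lemma exists_dg_eq (hq : 1 ≤ q) {C : Mat n} (hC : C.IsHermitian) :
    ∃ U : unitaryGroup (Fin n) ℂ, schatten q C = nq q (dg U C) := by
  obtain ⟨U, c, rfl⟩ := exists_diag hC
  exact ⟨U, by rw [schatten_conj hq, dg_conj]⟩

lemma schatten_nonneg (hq : 1 ≤ q) (C : Mat n) : 0 ≤ schatten q C := nq_nonneg hq _

lemma schatten_add_le (hq : 1 ≤ q) {C D : Mat n} (hC : C.IsHermitian) (hD : D.IsHermitian) :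
    schatten q (C + D) ≤ schatten q C + schatten q D := by
  obtain ⟨U, hU⟩ := exists_dg_eq hq (hC.add hD)
  rw [hU, dg_add]
  exact (nq_add hq _ _).trans (add_le_add (nq_dg_le hq U hC) (nq_dg_le hq U hD))

lemma schatten_sub_le (hq : 1 ≤ q) {C D : Mat n} (hC : C.IsHermitian) (hD : D.IsHermitian) :
    schatten q (C - D) ≤ schatten q C + schatten q D := by
  obtain ⟨U, hU⟩ := exists_dg_eq hq (hC.sub hD)
  rw [hU, dg_sub]
  exact (nq_sub hq _ _).trans (add_le_add (nq_dg_le hq U hC) (nq_dg_le hq U hD))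

lemma isHermitian_smul {C : Mat n} (hC : C.IsHermitian) (a : ℝ) : (a • C).IsHermitian := by
  unfold IsHermitian at *
  rw [conjTranspose_smul, hC]
  simp

lemma schatten_smul (hq : 1 ≤ q) {C : Mat n} (hC : C.IsHermitian) (a : ℝ) :
    schatten q (a • C) = |a| * schatten q C := by
  obtain ⟨U, c, rfl⟩ := exists_diag hC
  have : a • ((U : Mat n) * diagonal (fun i => (c i : ℂ)) * star (U : Mat n)) =
      (U : Mat n) * diagonal (fun i => (((a • c) i : ℝ) : ℂ)) * star (U : Mat n) := by
    rw [← smul_mul_assoc, ← mul_smul_comm]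
    congr 2
    ext i j
    by_cases hij : i = j
    · subst hij; simp
    · simp [hij]
  rw [this, schatten_conj hq, schatten_conj hq, nq_smul hq]

end Pool.Agent.Lib_helper41.PM
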